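import Pool.Agent.Helper6.CD.Hall

/-!
MP_cd7e06_al, odd exponents: row BLOCKS.  The letters of one index in the cyclic word are numbered
`0, ..., M - 1`; blocks `j ∈ J` consist of `2 n` consecutive letters with alternating gaps of
heights `1, -1`; almost all letters are good; then the positive blocks are matched with the
negative blocks by marks (helper6).
-/

set_option autoImplicit false

namespace H55CD

open Finset

theorem blocks (M n D K : ℕ) (ε : Bool) (τ : ℕ → ℕ) (s : ℕ → Bool) (h : ℕ → ℤ)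
    (h1 : ∀ t < M, τ t < M) (h2 : ∀ t < M, τ (τ t) = t) (h3 : ∀ t < M, s (τ t) = !s t)
    (J : Finset ℕ) (σ : ℕ → Bool) (o : ℕ → ℕ) (ho : ∀ j ∈ J, o j + 2 * n ≤ M)
    (hdis : ∀ i ∈ J, ∀ j ∈ J, i < j → o i + 2 * n ≤ o j)
    (hp : ∀ j ∈ J, σ j = true → ∀ k < n, s (o j + 2 * k) = true ∧ s (o j + 2 * k + 1) = ε ∧
      h (o j + 2 * k + 1) = h (o j + 2 * k) + 1 ∧
      (k + 1 < n → h (o j + 2 * k + 2) = h (o j + 2 * k + 1) - 1))
    (hm : ∀ j ∈ J, σ j = false → ∀ k < n, s (o j + 2 * k) = !ε ∧ s (o j + 2 * k + 1) = false ∧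
      h (o j + 2 * k + 1) = h (o j + 2 * k) - 1 ∧
      (k + 1 < n → h (o j + 2 * k + 2) = h (o j + 2 * k + 1) + 1))
    (hrest : M ≤ 2 * n * J.card + K) (Bad : Finset ℕ) (hBad : Bad.card ≤ D)
    (hgood : ∀ t < M, t ∉ Bad → (τ ((t + 1) % M) + 1) % M = τ t ∧
      h ((t + 1) % M) - h t + h (τ t) - h (τ ((t + 1) % M)) = 0)
    (hn : D + K + J.card < n) :
    ∃ e κ : ℕ → ℕ, (∀ j ∈ J, κ j < n) ∧
      (∀ j ∈ J, σ j = true → e j ∈ J ∧ σ (e j) = false ∧
        τ (o j + 2 * κ j) = o (e j) + 2 * κ (e j) + 1) ∧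
      (∀ j ∈ J, σ j = false → ∃ i ∈ J, σ i = true ∧ e i = j) := by
  classical
  set P : Finset ℕ := J.filter (fun j => σ j = true) with hP
  set Q : Finset ℕ := J.filter (fun j => σ j = false) with hQ
  -- the marks
  let mark : ℕ → ℕ → ℕ := fun j k => o j + 2 * k + (if σ j = true then 0 else 1)
  have mP : ∀ j ∈ P, ∀ k, mark j k = o j + 2 * k := by
    intro j hj k
    simp only [mark, (Finset.mem_filter.1 hj).2, if_true, add_zero]
  have mQ : ∀ j ∈ Q, ∀ k, mark j k = o j + 2 * k + 1 := by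
    intro j hj k
    have : σ j = false := (Finset.mem_filter.1 hj).2
    simp only [mark, this, Bool.false_eq_true, if_false]
  have PJ : ∀ j ∈ P, j ∈ J := fun j hj => (Finset.mem_filter.1 hj).1
  have QJ : ∀ j ∈ Q, j ∈ J := fun j hj => (Finset.mem_filter.1 hj).1
  -- the letters in blocks
  have disj : ∀ i ∈ J, ∀ j ∈ J, ∀ a < 2 * n, ∀ b < 2 * n, o i + a = o j + b → i = j ∧ a = b := by
    intro i hi j hj a ha b hb e
    rcases lt_trichotomy i j with hij | hij | hij
    · have := hdis i hi j hj hij; omega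
    · subst hij; exact ⟨rfl, by omega⟩
    · have := hdis j hj i hi hij; omega
  -- letters outside of the blocks
  let In : Finset ℕ := (J ×ˢ Finset.range (2 * n)).image (fun x => o x.1 + x.2)
  have hIn : In.card = J.card * (2 * n) := by
    rw [Finset.card_image_of_injOn, Finset.card_product, Finset.card_range]
    intro x hx y hy e
    obtain ⟨hx1, hx2⟩ := Finset.mem_product.1 (Finset.mem_coe.1 hx)
    obtain ⟨hy1, hy2⟩ := Finset.mem_product.1 (Finset.mem_coe.1 hy)
    obtain ⟨e1, e2⟩ := disj _ hx1 _ hy1 _ (Finset.mem_range.1 hx2) _ (Finset.mem_range.1 hy2) e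
    exact Prod.ext e1 e2
  have hInM : In ⊆ Finset.range M := by
    intro t ht
    obtain ⟨x, hx, rfl⟩ := Finset.mem_image.1 ht
    obtain ⟨hx1, hx2⟩ := Finset.mem_product.1 hx
    have := ho _ hx1
    have := Finset.mem_range.1 hx2
    exact Finset.mem_range.2 (by omega)
  let Out : Finset ℕ := Finset.range M \ In
  have hOut : Out.card ≤ K := by
    have := Finset.card_sdiff_add_card_eq_card hInM
    rw [Finset.card_range, hIn] at this
    have e : J.card * (2 * n) = 2 * n * J.card := Nat.mul_comm _ _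
    have e' : Out.card = (Finset.range M \ In).card := rfl
    omega
  have inblock : ∀ t < M, t ∉ Out → ∃ j ∈ J, ∃ a < 2 * n, t = o j + a := by
    intro t ht htO
    have : t ∈ In := by
      by_contra hc
      exact htO (Finset.mem_sdiff.2 ⟨Finset.mem_range.2 ht, hc⟩)
    obtain ⟨x, hx, rfl⟩ := Finset.mem_image.1 this
    obtain ⟨hx1, hx2⟩ := Finset.mem_product.1 hx
    exact ⟨x.1, hx1, x.2, Finset.mem_range.1 hx2, rfl⟩
  -- injectivity of the marks
  have injP : ∀ b ∈ P, ∀ b' ∈ P, ∀ i < n, ∀ i' < n, mark b i = mark b' i' → b = b' ∧ i = i' := by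
    intro b hb b' hb' i hi i' hi' e
    rw [mP b hb, mP b' hb'] at e
    obtain ⟨e1, e2⟩ := disj b (PJ b hb) b' (PJ b' hb') (2 * i) (by omega) (2 * i') (by omega) e
    exact ⟨e1, by omega⟩
  have injQ : ∀ b ∈ Q, ∀ b' ∈ Q, ∀ i < n, ∀ i' < n, mark b i = mark b' i' → b = b' ∧ i = i' := by
    intro b hb b' hb' i hi i' hi' e
    rw [mQ b hb, mQ b' hb'] at e
    obtain ⟨e1, e2⟩ := disj b (QJ b hb) b' (QJ b' hb') (2 * i + 1) (by omega) (2 * i' + 1)
      (by omega) (by omega)
    exact ⟨e1, by omega⟩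
  have ltP : ∀ b ∈ P, ∀ i < n, mark b i < M := by
    intro b hb i hi
    rw [mP b hb]
    have := ho b (PJ b hb); omega
  have ltQ : ∀ b ∈ Q, ∀ i < n, mark b i < M := by
    intro b hb i hi
    rw [mQ b hb]
    have := ho b (QJ b hb); omega
  -- counting bad marks
  have badcount : ∀ (S : Finset ℕ) (f g : ℕ → ℕ → ℕ) (X Y : Finset ℕ),
      (∀ b ∈ S, ∀ b' ∈ S, ∀ i < n, ∀ i' < n, f b i = f b' i' → b = b' ∧ i = i') →
      (∀ b ∈ S, ∀ b' ∈ S, ∀ i < n, ∀ i' < n, g b i = g b' i' → b = b' ∧ i = i') →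
      ((S ×ˢ Finset.range n).filter (fun x => f x.1 x.2 ∈ X ∨ g x.1 x.2 ∈ Y)).card ≤
        X.card + Y.card := by
    intro S f g X Y hf hg
    have aux : ∀ (F : ℕ → ℕ → ℕ) (Z : Finset ℕ),
        (∀ b ∈ S, ∀ b' ∈ S, ∀ i < n, ∀ i' < n, F b i = F b' i' → b = b' ∧ i = i') →
        ((S ×ˢ Finset.range n).filter (fun x => F x.1 x.2 ∈ Z)).card ≤ Z.card := by
      intro F Z hF
      refine Finset.card_le_card_of_injOn (fun x => F x.1 x.2) ?_ ?_
      · intro x hx
        exact Finset.mem_coe.2 (Finset.mem_filter.1 (Finset.mem_coe.1 hx)).2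
      · intro x hx y hy e
        have hx1 := Finset.mem_product.1 (Finset.mem_filter.1 (Finset.mem_coe.1 hx)).1
        have hy1 := Finset.mem_product.1 (Finset.mem_filter.1 (Finset.mem_coe.1 hy)).1
        obtain ⟨e1, e2⟩ := hF _ hx1.1 _ hy1.1 _ (Finset.mem_range.1 hx1.2) _
          (Finset.mem_range.1 hy1.2) e
        exact Prod.ext e1 e2
    rw [Finset.filter_or]
    exact (Finset.card_union_le _ _).trans (Nat.add_le_add (aux f X hf) (aux g Y hg))
  -- exceptional letters: outside, and the first (last) letters of blocks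
  let Ex1 : Finset ℕ := Out ∪ J.image o
  let Ex2 : Finset ℕ := Out ∪ J.image (fun j => o j + (2 * n - 1))
  have hEx1 : Ex1.card ≤ K + J.card :=
    (Finset.card_union_le _ _).trans (Nat.add_le_add hOut Finset.card_image_le)
  have hEx2 : Ex2.card ≤ K + J.card :=
    (Finset.card_union_le _ _).trans (Nat.add_le_add hOut Finset.card_image_le)
  -- forward direction
  let bad1 : Finset (ℕ × ℕ) := (P ×ˢ Finset.range n).filter
    (fun x => mark x.1 x.2 ∈ Bad ∨ τ (mark x.1 x.2) ∈ Ex1)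
  have hbad1 : bad1.card ≤ D + (K + J.card) := by
    refine (badcount P mark (fun b i => τ (mark b i)) Bad Ex1 injP ?_).trans
      (Nat.add_le_add hBad hEx1)
    intro b hb b' hb' i hi i' hi' e
    refine injP b hb b' hb' i hi i' hi' ?_
    rw [← h2 _ (ltP b hb i hi), ← h2 _ (ltP b' hb' i' hi')]
    exact congrArg τ e
  have fwd : ∀ b ∈ P, ∀ i < n, (b, i) ∉ bad1 → ∃ b' ∈ Q, ∃ i' < n, τ (mark b i) = mark b' i' := by
    intro b hb i hi hbi
    have hnb : ¬ (mark b i ∈ Bad ∨ τ (mark b i) ∈ Ex1) := fun hc =>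
      hbi (Finset.mem_filter.2 ⟨Finset.mem_product.2 ⟨hb, Finset.mem_range.2 hi⟩, hc⟩)
    rw [not_or] at hnb
    obtain ⟨hnb1, hnb2⟩ := hnb
    have hbJ := PJ b hb
    have hσ : σ b = true := (Finset.mem_filter.1 hb).2
    have htM := ltP b hb i hi
    have hoM := ho b hbJ
    have hmk := mP b hb i
    obtain ⟨p1, p2, p3, p4⟩ := hp b hbJ hσ i hi
    obtain ⟨g1, g2⟩ := hgood _ htM hnb1
    have hmod : (mark b i + 1) % M = o b + 2 * i + 1 := by
      rw [hmk]; exact Nat.mod_eq_of_lt (by omega)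
    rw [hmod] at g1 g2
    rw [hmk] at g1 g2 htM hnb2 ⊢
    have hwM : τ (o b + 2 * i) < M := h1 _ htM
    have huM : τ (o b + 2 * i + 1) < M := h1 _ (by omega)
    have hsw : s (τ (o b + 2 * i)) = false := by rw [h3 _ htM, p1]; rfl
    have hhw : h (τ (o b + 2 * i)) = h (τ (o b + 2 * i + 1)) - 1 := by linarith
    obtain ⟨j', hj', a, ha, e⟩ := inblock _ hwM (fun hc => hnb2 (Finset.mem_union_left _ hc))
    have ha0 : a ≠ 0 := by
      rintro rfl
      exact hnb2 (Finset.mem_union_right _ (Finset.mem_image.2 ⟨j', hj', by rw [e]; rfl⟩))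
    -- the letter before
    have hu : τ (o b + 2 * i + 1) + 1 = τ (o b + 2 * i) := by
      rcases Nat.lt_or_ge (τ (o b + 2 * i + 1) + 1) M with hlt | hge
      · rwa [Nat.mod_eq_of_lt hlt] at g1
      · have : τ (o b + 2 * i + 1) + 1 = M := by omega
        rw [this, Nat.mod_self] at g1
        omega
    have hu' : τ (o b + 2 * i + 1) = o j' + (a - 1) := by omega
    rw [hu', e] at hhw
    rw [e] at hsw
    rw [e]
    rcases Bool.eq_false_or_eq_true (σ j') with hσ' | hσ'
    · -- positive block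
      exfalso
      rcases Nat.even_or_odd' a with ⟨k, hk | hk⟩
      · have := (hp j' hj' hσ' k (by omega)).1
        rw [show o j' + a = o j' + 2 * k by omega, this] at hsw
        exact absurd hsw (by decide)
      · have := (hp j' hj' hσ' k (by omega)).2.2.1
        rw [show o j' + a = o j' + 2 * k + 1 by omega,
          show o j' + (a - 1) = o j' + 2 * k by omega] at hhw
        linarith
    · -- negative block
      rcases Nat.even_or_odd' a with ⟨k, hk | hk⟩
      · exfalso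
        obtain ⟨k', rfl⟩ : ∃ k', k = k' + 1 := ⟨k - 1, by omega⟩
        have := (hm j' hj' hσ' k' (by omega)).2.2.2 (by omega)
        rw [show o j' + a = o j' + 2 * k' + 2 by omega,
          show o j' + (a - 1) = o j' + 2 * k' + 1 by omega] at hhw
        linarith
      · have hjQ : j' ∈ Q := Finset.mem_filter.2 ⟨hj', hσ'⟩
        exact ⟨j', hjQ, k, by omega, by rw [mQ j' hjQ]; omega⟩
  -- backward direction
  let bad2 : Finset (ℕ × ℕ) := (Q ×ˢ Finset.range n).filter
    (fun x => o x.1 + 2 * x.2 ∈ Bad ∨ τ (mark x.1 x.2) ∈ Ex2)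
  have hbad2 : bad2.card ≤ D + (K + J.card) := by
    refine (badcount Q (fun b i => o b + 2 * i) (fun b i => τ (mark b i)) Bad Ex2 ?_ ?_).trans
      (Nat.add_le_add hBad hEx2)
    · intro b hb b' hb' i hi i' hi' e
      obtain ⟨e1, e2⟩ := disj b (QJ b hb) b' (QJ b' hb') (2 * i) (by omega) (2 * i') (by omega) e
      exact ⟨e1, by omega⟩
    · intro b hb b' hb' i hi i' hi' e
      refine injQ b hb b' hb' i hi i' hi' ?_
      rw [← h2 _ (ltQ b hb i hi), ← h2 _ (ltQ b' hb' i' hi')]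
      exact congrArg τ e
  have bwd : ∀ b ∈ Q, ∀ i < n, (b, i) ∉ bad2 → ∃ b' ∈ P, ∃ i' < n, τ (mark b i) = mark b' i' := by
    intro b hb i hi hbi
    have hnb : ¬ (o b + 2 * i ∈ Bad ∨ τ (mark b i) ∈ Ex2) := fun hc =>
      hbi (Finset.mem_filter.2 ⟨Finset.mem_product.2 ⟨hb, Finset.mem_range.2 hi⟩, hc⟩)
    rw [not_or] at hnb
    obtain ⟨hnb1, hnb2⟩ := hnb
    have hbJ := QJ b hb
    have hσ : σ b = false := (Finset.mem_filter.1 hb).2
    have hoM := ho b hbJ
    have hmk := mQ b hb i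
    obtain ⟨p1, p2, p3, p4⟩ := hm b hbJ hσ i hi
    have hxM : o b + 2 * i < M := by omega
    obtain ⟨g1, g2⟩ := hgood _ hxM hnb1
    have hmod : (o b + 2 * i + 1) % M = o b + 2 * i + 1 := Nat.mod_eq_of_lt (by omega)
    rw [hmod] at g1 g2
    rw [hmk] at hnb2 ⊢
    have htM : τ (o b + 2 * i + 1) < M := h1 _ (by omega)
    have hst : s (τ (o b + 2 * i + 1)) = true := by rw [h3 _ (by omega), p2]; rfl
    have hht : h (τ (o b + 2 * i)) = h (τ (o b + 2 * i + 1)) + 1 := by linarith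
    obtain ⟨j', hj', a, ha, e⟩ := inblock _ htM (fun hc => hnb2 (Finset.mem_union_left _ hc))
    have hoM' := ho j' hj'
    have ha0 : a ≠ 2 * n - 1 := by
      rintro rfl
      exact hnb2 (Finset.mem_union_right _ (Finset.mem_image.2 ⟨j', hj', by rw [e]⟩))
    have hw : τ (o b + 2 * i) = o j' + a + 1 := by
      rw [← g1, e]; exact Nat.mod_eq_of_lt (by omega)
    rw [hw, e] at hht
    rw [e] at hst
    rw [e]
    rcases Bool.eq_false_or_eq_true (σ j') with hσ' | hσ'
    · rcases Nat.even_or_odd' a with ⟨k, hk | hk⟩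
      · have hjP : j' ∈ P := Finset.mem_filter.2 ⟨hj', hσ'⟩
        exact ⟨j', hjP, k, by omega, by rw [mP j' hjP]; omega⟩
      · exfalso
        have := (hp j' hj' hσ' k (by omega)).2.2.2 (by omega)
        rw [show o j' + a + 1 = o j' + 2 * k + 2 by omega,
          show o j' + a = o j' + 2 * k + 1 by omega] at hht
        linarith
    · exfalso
      rcases Nat.even_or_odd' a with ⟨k, hk | hk⟩
      · have := (hm j' hj' hσ' k (by omega)).2.2.1
        rw [show o j' + a + 1 = o j' + 2 * k + 1 by omega,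
          show o j' + a = o j' + 2 * k by omega] at hht
        linarith
      · have := (hm j' hj' hσ' k (by omega)).2.1
        rw [show o j' + a = o j' + 2 * k + 1 by omega, this] at hst
        exact absurd hst (by decide)
  have cPQ : P.card ≤ Q.card := H6CD.hall_card n (D + (K + J.card)) (by omega) P Q mark injP τ
    (fun b hb i hi => h2 _ (ltP b hb i hi)) bad1 hbad1 fwd
  have cQP : Q.card ≤ P.card := H6CD.hall_card n (D + (K + J.card)) (by omega) Q P mark injQ τ
    (fun b hb i hi => h2 _ (ltQ b hb i hi)) bad2 hbad2 bwd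
  obtain ⟨e, κ, e1, e2, e3, e4, e5, _⟩ := H6CD.hall_finset n (D + (K + J.card)) (by omega) P Q
    mark injP (by
      intro b hb hb'
      have t1 : σ b = true := (Finset.mem_filter.1 hb).2
      have t2 : σ b = false := (Finset.mem_filter.1 hb').2
      rw [t1] at t2
      exact absurd t2 (by decide)) (le_antisymm cPQ cQP) τ
    (fun b hb i hi => h2 _ (ltP b hb i hi)) bad1 hbad1 fwd
  refine ⟨e, κ, ?_, ?_, ?_⟩
  · intro j hj
    refine e4 j ?_
    rcases Bool.eq_false_or_eq_true (σ j) with hσ' | hσ'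
    · exact Finset.mem_union_left _ (Finset.mem_filter.2 ⟨hj, hσ'⟩)
    · exact Finset.mem_union_right _ (Finset.mem_filter.2 ⟨hj, hσ'⟩)
  · intro j hj hσ'
    have hjP : j ∈ P := Finset.mem_filter.2 ⟨hj, hσ'⟩
    have hQ' := e1 j hjP
    refine ⟨QJ _ hQ', (Finset.mem_filter.1 hQ').2, ?_⟩
    have := e5 j hjP
    rwa [mP j hjP, mQ _ hQ'] at this
  · intro j hj hσ'
    have hjQ : j ∈ Q := Finset.mem_filter.2 ⟨hj, hσ'⟩
    have hP' := e2 j hjQ
    exact ⟨e j, PJ _ hP', (Finset.mem_filter.1 hP').2, e3 j (Finset.mem_union_right _ hjQ)⟩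

end H55CD
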