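import Pool.Agent.Helper74.CL.Defs

/-!
# A group of class two in which products of few commutators have small rank

`Hs ι F` is the group of pairs `(v, M)` of a vector and a matrix with
`(v, M) (u, N) = (v + u, M + N + v uᵀ)`.  A product of `g` commutators is of the form `(0, M)` with
`M` of rank at most `2 g`.
-/

set_option autoImplicit false
set_option linter.unusedSectionVars false
set_option linter.unusedSimpArgs false

namespace H59CD

open H74CL Matrix

variable {ι F : Type} [Fintype ι] [DecidableEq ι]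

/-- Pairs of a vector and a matrix. -/
@[ext] structure Hs (ι F : Type) where
  v : ι → F
  M : Matrix ι ι F

section Ring

variable [CommRing F]

instance : Mul (Hs ι F) := ⟨fun a b => ⟨a.v + b.v, a.M + b.M + vecMulVec a.v b.v⟩⟩
instance : One (Hs ι F) := ⟨⟨0, 0⟩⟩
instance : Inv (Hs ι F) := ⟨fun a => ⟨-a.v, -a.M + vecMulVec a.v a.v⟩⟩

theorem mul_v (a b : Hs ι F) : (a * b).v = a.v + b.v := rfl
theorem mul_M (a b : Hs ι F) : (a * b).M = a.M + b.M + vecMulVec a.v b.v := rfl
theorem one_v : (1 : Hs ι F).v = 0 := rfl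
theorem one_M : (1 : Hs ι F).M = 0 := rfl
theorem inv_v (a : Hs ι F) : (a⁻¹).v = -a.v := rfl
theorem inv_M (a : Hs ι F) : (a⁻¹).M = -a.M + vecMulVec a.v a.v := rfl

instance : Group (Hs ι F) where
  mul_assoc a b c := by
    ext1
    · simp only [mul_v, add_assoc]
    · simp only [mul_M, mul_v, Matrix.add_vecMulVec, Matrix.vecMulVec_add]
      abel
  one_mul a := by
    ext1
    · simp only [mul_v, one_v, zero_add]
    · simp only [mul_M, one_v, one_M, Matrix.zero_vecMulVec]
      abel
  mul_one a := by
    ext1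
    · simp only [mul_v, one_v, add_zero]
    · simp only [mul_M, one_v, one_M, Matrix.vecMulVec_zero]
      abel
  inv_mul_cancel a := by
    ext1
    · simp only [mul_v, inv_v, one_v, neg_add_cancel]
    · simp only [mul_M, inv_v, inv_M, one_M, Matrix.neg_vecMulVec]
      abel

/-- A commutator. -/
theorem comm_eq (a b : Hs ι F) :
    a * b * a⁻¹ * b⁻¹ = ⟨0, vecMulVec a.v b.v - vecMulVec b.v a.v⟩ := by
  ext1
  · simp only [mul_v, inv_v]
    abel
  · simp only [mul_M, mul_v, inv_v, inv_M, Matrix.add_vecMulVec, Matrix.vecMulVec_add,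
      Matrix.neg_vecMulVec, Matrix.vecMulVec_neg]
    abel

/-- An element is central if its vector is zero. -/
theorem central (a b : Hs ι F) (ha : a.v = 0) : a * b = b * a := by
  ext1
  · simp only [mul_v, ha, add_zero, zero_add]
  · simp only [mul_M, ha, Matrix.zero_vecMulVec, Matrix.vecMulVec_zero]
    abel

theorem mul_M_of_zero (a b : Hs ι F) (ha : a.v = 0) : (a * b).M = a.M + b.M := by
  rw [mul_M, ha, Matrix.zero_vecMulVec, add_zero]

theorem pow_of_zero (a : Hs ι F) (ha : a.v = 0) (n : ℕ) : a ^ n = ⟨0, n • a.M⟩ := by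
  induction n with
  | zero =>
    rw [pow_zero, zero_smul]
    rfl
  | succ n ih =>
    rw [pow_succ, ih]
    ext1
    · simp only [mul_v, ha, add_zero]
    · rw [mul_M]
      simp only [Matrix.zero_vecMulVec, add_zero]
      rw [succ_nsmul]

end Ring

section Field

variable [Field F]

omit [DecidableEq ι] in
theorem rank_add_le' (A B : Matrix ι ι F) : (A + B).rank ≤ A.rank + B.rank := by
  have h : LinearMap.range (A + B).mulVecLin ≤
      LinearMap.range A.mulVecLin ⊔ LinearMap.range B.mulVecLin := by
    rintro _ ⟨x, rfl⟩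
    rw [Matrix.mulVecLin_add, LinearMap.add_apply]
    exact Submodule.add_mem_sup ⟨x, rfl⟩ ⟨x, rfl⟩
  exact le_trans (Submodule.finrank_mono h)
    (Submodule.finrank_add_le_finrank_add_finrank _ _)

theorem rank_sub_le (A B : Matrix ι ι F) : (A - B).rank ≤ A.rank + B.rank := by
  rw [sub_eq_add_neg]
  refine le_trans (rank_add_le' _ _) ?_
  have h : (-B).rank = B.rank := by
    have h1 : (-B).rank ≤ B.rank := by
      rw [show -B = B * (-1 : Matrix ι ι F) by rw [Matrix.mul_neg, Matrix.mul_one]]
      exact Matrix.rank_mul_le_left _ _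
    have h2 : B.rank ≤ (-B).rank := by
      conv_lhs => rw [show B = (-B) * (-1 : Matrix ι ι F) by
        rw [Matrix.mul_neg, Matrix.mul_one, neg_neg]]
      exact Matrix.rank_mul_le_left _ _
    exact le_antisymm h1 h2
  rw [h]

/-- A product of `g` commutators has zero vector and rank at most `2 g`. -/
theorem rank_of_PC {g : ℕ} {z : Hs ι F} (h : PC g z) : z.v = 0 ∧ z.M.rank ≤ 2 * g := by
  obtain ⟨l, rfl, rfl⟩ := h
  induction l with
  | nil =>
    refine ⟨rfl, ?_⟩
    simp only [List.map_nil, List.prod_nil, one_M, Matrix.rank_zero]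
    exact Nat.zero_le _
  | cons p l ih =>
    obtain ⟨ih1, ih2⟩ := ih
    rw [List.map_cons, List.prod_cons, comm_eq]
    refine ⟨?_, ?_⟩
    · rw [mul_v, ih1, add_zero]
    · rw [mul_M, Matrix.zero_vecMulVec, add_zero, List.length_cons]
      refine le_trans (rank_add_le' _ _) ?_
      change (vecMulVec p.1.v p.2.v - vecMulVec p.2.v p.1.v).rank + _ ≤ _
      have h1 := rank_sub_le (vecMulVec p.1.v p.2.v) (vecMulVec p.2.v p.1.v)
      have h2 := Matrix.rank_vecMulVec_le p.1.v p.2.v
      have h3 := Matrix.rank_vecMulVec_le p.2.v p.1.v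
      omega

end Field

end H59CD
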