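import Mathlib

/-!
# The interlacement form of a pairing: an inequality with an extra family of functionals
-/

set_option autoImplicit false
set_option linter.unusedSectionVars false
set_option linter.unusedSimpArgs false

namespace H3CD

open Finset Module

/-- Linear algebra: a subspace `T`, a nondegenerate subspace `U` orthogonal to it, and the radical. -/
theorem lin_bound {F V : Type*} [Field F] [AddCommGroup V] [Module F V] [FiniteDimensional F V]
    (B : LinearMap.BilinForm F V) (hB : B.IsRefl) (T U R1 R2 : Submodule F V)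
    (hTU : ∀ x ∈ T, ∀ y ∈ U, B x y = 0) (hU : U ⊓ B.orthogonal U = ⊥)
    (hR1T : R1 ≤ T) (hR1 : R1 ≤ B.orthogonal T) (hR2 : T ⊓ B.orthogonal ⊤ ≤ R2)
    (h12 : 2 * finrank F R2 ≤ finrank F R1) :
    finrank F T + finrank F U + finrank F (B.orthogonal ⊤ : Submodule F V) ≤ finrank F V := by
  have hTU0 : T ⊓ U = ⊥ := by
    rw [eq_bot_iff, ← hU]
    rintro x ⟨hx1, hx2⟩
    refine ⟨hx2, LinearMap.BilinForm.mem_orthogonal_iff.2 ?_⟩
    intro y hy
    exact hB _ _ (hTU x hx1 y hy)
  have hA : finrank F (T ⊔ U : Submodule F V) = finrank F T + finrank F U := by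
    have := Submodule.finrank_sup_add_finrank_inf_eq T U
    rw [hTU0, finrank_bot] at this
    omega
  have h1 := LinearMap.BilinForm.finrank_add_finrank_orthogonal hB (T ⊔ U)
  have h2 : (T ⊔ U) ⊓ B.orthogonal ⊤ ≤ R2 := by
    rintro x ⟨hx1, hx2⟩
    obtain ⟨t, ht, u, hu, rfl⟩ := Submodule.mem_sup.1 hx1
    have hx3 : ∀ v, B v (t + u) = 0 := fun v =>
      (LinearMap.BilinForm.mem_orthogonal_iff.1 hx2) v Submodule.mem_top
    have hu0 : u = 0 := by
      have : u ∈ U ⊓ B.orthogonal U := by
        refine ⟨hu, LinearMap.BilinForm.mem_orthogonal_iff.2 ?_⟩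
        intro y hy
        have h3 := hx3 y
        rw [map_add, hB _ _ (hTU t ht y hy), zero_add] at h3
        exact h3
      rw [hU] at this
      exact (Submodule.mem_bot F).1 this
    rw [hu0, add_zero] at hx2 ⊢
    exact hR2 ⟨ht, hx2⟩
  have h3 : B.orthogonal ⊤ ⊔ R1 ≤ B.orthogonal (T ⊔ U) := by
    rw [sup_le_iff]
    refine ⟨LinearMap.BilinForm.orthogonal_le le_top, ?_⟩
    intro x hx
    refine LinearMap.BilinForm.mem_orthogonal_iff.2 ?_
    intro y hy
    obtain ⟨t, ht, u, hu, rfl⟩ := Submodule.mem_sup.1 hy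
    have h4 : B t x = 0 := (LinearMap.BilinForm.mem_orthogonal_iff.1 (hR1 hx)) t ht
    have h5 : B u x = 0 := hB _ _ (hTU x (hR1T hx) u hu)
    change B (t + u) x = 0
    rw [map_add, LinearMap.add_apply, h4, h5, add_zero]
  have h4 := Submodule.finrank_mono h3
  have h5 := Submodule.finrank_sup_add_finrank_inf_eq (B.orthogonal ⊤) R1
  have h6 : finrank F (B.orthogonal ⊤ ⊓ R1 : Submodule F V) ≤ finrank F R2 := by
    refine Submodule.finrank_mono ?_
    rintro x ⟨hx1, hx2⟩
    exact hR2 ⟨hR1T hx2, hx1⟩
  have h7 := Submodule.finrank_mono h2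
  omega

section

variable {n : ℕ} (ρ π : Equiv.Perm (Fin n))

/-- the colourings of the gaps whose increments are invariant under the pairing -/
def Inc : Submodule (ZMod 2) (Fin n → ZMod 2) where
  carrier := {F | ∀ i, F (ρ (π i)) + F (π i) = F (ρ i) + F i}
  add_mem' := by
    intro F G hF hG i
    simp only [Pi.add_apply]
    have h1 := hF i
    have h2 := hG i
    linear_combination h1 + h2
  zero_mem' := by intro i; simp
  smul_mem' := by
    intro c F hF i
    simp only [Pi.smul_apply, smul_eq_mul]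
    have h1 := hF i
    linear_combination c * h1

lemma mem_Inc {F : Fin n → ZMod 2} :
    F ∈ Inc ρ π ↔ ∀ i, F (ρ (π i)) + F (π i) = F (ρ i) + F i := Iff.rfl

/-- the form -/
def form (P : Fin n → Prop) [DecidablePred P] :
    LinearMap.BilinForm (ZMod 2) (Fin n → ZMod 2) :=
  LinearMap.mk₂ (ZMod 2)
    (fun F G => ∑ i ∈ univ.filter P, (F (ρ i) + F i) * (G (ρ i) + G (π i)))
    (by
      intro F F' G
      rw [← Finset.sum_add_distrib]
      refine Finset.sum_congr rfl (fun i _ => ?_)
      simp only [Pi.add_apply]; ring)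
    (by
      intro c F G
      rw [smul_eq_mul, Finset.mul_sum]
      refine Finset.sum_congr rfl (fun i _ => ?_)
      simp only [Pi.smul_apply, smul_eq_mul]; ring)
    (by
      intro F G G'
      rw [← Finset.sum_add_distrib]
      refine Finset.sum_congr rfl (fun i _ => ?_)
      simp only [Pi.add_apply]; ring)
    (by
      intro c F G
      rw [smul_eq_mul, Finset.mul_sum]
      refine Finset.sum_congr rfl (fun i _ => ?_)
      simp only [Pi.smul_apply, smul_eq_mul]; ring)

lemma form_apply (P : Fin n → Prop) [DecidablePred P] (F G : Fin n → ZMod 2) :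
    form ρ π P F G = ∑ i ∈ univ.filter P, (F (ρ i) + F i) * (G (ρ i) + G (π i)) := rfl

lemma two_zero (x : ZMod 2) : x + x = 0 := CharTwo.add_self_eq_zero x

/-- splitting a sum over all letters into pairs -/
lemma sum_pairs {M : Type*} [AddCommMonoid M] (P : Fin n → Prop) [DecidablePred P]
    (hπ : ∀ i, π (π i) = i) (hP : ∀ i, P (π i) ↔ ¬ P i) (φ : Fin n → M) :
    ∑ i, φ i = ∑ i ∈ univ.filter P, (φ i + φ (π i)) := by
  rw [Finset.sum_add_distrib, ← Finset.sum_filter_add_sum_filter_not univ P φ]
  congr 1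
  refine Finset.sum_bij' (fun i _ => π i) (fun i _ => π i) ?_ ?_ ?_ ?_ ?_
  · intro i hi
    simp only [Finset.mem_filter, Finset.mem_univ, true_and] at hi ⊢
    exact (hP i).2 hi
  · intro i hi
    simp only [Finset.mem_filter, Finset.mem_univ, true_and] at hi ⊢
    rw [hP]; exact fun h => h hi
  · intro i _; exact hπ i
  · intro i _; exact hπ i
  · intro i _
    simp only [hπ]

/-- the form is symmetric on `Inc` -/
lemma form_symm (P : Fin n → Prop) [DecidablePred P] (hπ : ∀ i, π (π i) = i)
    (hP : ∀ i, P (π i) ↔ ¬ P i) (F G : Fin n → ZMod 2) (hF : F ∈ Inc ρ π) (hG : G ∈ Inc ρ π) :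
    form ρ π P F G = form ρ π P G F := by
  have h0 : ∑ i, (F (ρ i) * G (ρ i) + F i * G i) = 0 := by
    rw [Finset.sum_add_distrib, Equiv.sum_comp ρ (fun i => F i * G i)]
    exact two_zero _
  have h1 := sum_pairs π P hπ hP (fun i => F (ρ i) * G (ρ i) + F i * G i)
  rw [h1] at h0
  have h2 : form ρ π P F G + form ρ π P G F = 0 := by
    rw [form_apply, form_apply, ← Finset.sum_add_distrib, ← h0]
    refine Finset.sum_congr rfl (fun i _ => ?_)
    have e1 : F (ρ (π i)) = F (ρ i) + F i + F (π i) := by
      have := hF i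
      have h3 := two_zero (F (π i))
      linear_combination this - h3
    have e2 : G (ρ (π i)) = G (ρ i) + G i + G (π i) := by
      have := hG i
      have h3 := two_zero (G (π i))
      linear_combination this - h3
    rw [e1, e2]
    have c2 : (2 : ZMod 2) = 0 := rfl
    linear_combination (-(F i * G i + F (π i) * G (π i))) * c2
  have h3 := two_zero (form ρ π P G F)
  linear_combination h2 - h3

/-- colourings changing only at `τ` letters -/
def Tsub (τ : Fin n → Prop) : Submodule (ZMod 2) (Inc ρ π) where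
  carrier := {F | ∀ i, ¬ τ i → F.1 (ρ i) = F.1 i}
  add_mem' := by
    intro F G hF hG i hi
    simp only [Submodule.coe_add, Pi.add_apply]
    rw [hF i hi, hG i hi]
  zero_mem' := by intro i _; simp
  smul_mem' := by
    intro c F hF i hi
    simp only [SetLike.val_smul, Pi.smul_apply, smul_eq_mul]
    rw [hF i hi]

/-- colourings changing only at `τ` letters, with the gluing condition for `τ` letters -/
def R1sub (τ : Fin n → Prop) : Submodule (ZMod 2) (Inc ρ π) where
  carrier := {F | (∀ i, ¬ τ i → F.1 (ρ i) = F.1 i) ∧ ∀ i, τ i → F.1 (ρ i) = F.1 (π i)}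
  add_mem' := by
    intro F G hF hG
    refine ⟨fun i hi => ?_, fun i hi => ?_⟩
    · simp only [Submodule.coe_add, Pi.add_apply]
      rw [hF.1 i hi, hG.1 i hi]
    · simp only [Submodule.coe_add, Pi.add_apply]
      rw [hF.2 i hi, hG.2 i hi]
  zero_mem' := by refine ⟨fun i _ => by simp, fun i _ => by simp⟩
  smul_mem' := by
    intro c F hF
    refine ⟨fun i hi => ?_, fun i hi => ?_⟩
    · simp only [SetLike.val_smul, Pi.smul_apply, smul_eq_mul]
      rw [hF.1 i hi]
    · simp only [SetLike.val_smul, Pi.smul_apply, smul_eq_mul]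
      rw [hF.2 i hi]

/-- colourings changing only at `τ` letters, with the gluing condition for all letters -/
def R2sub (τ : Fin n → Prop) : Submodule (ZMod 2) (Inc ρ π) where
  carrier := {F | (∀ i, ¬ τ i → F.1 (ρ i) = F.1 i) ∧ ∀ i, F.1 (ρ i) = F.1 (π i)}
  add_mem' := by
    intro F G hF hG
    refine ⟨fun i hi => ?_, fun i => ?_⟩
    · simp only [Submodule.coe_add, Pi.add_apply]
      rw [hF.1 i hi, hG.1 i hi]
    · simp only [Submodule.coe_add, Pi.add_apply]
      rw [hF.2 i, hG.2 i]
  zero_mem' := by refine ⟨fun i _ => by simp, fun i => by simp⟩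
  smul_mem' := by
    intro c F hF
    refine ⟨fun i hi => ?_, fun i => ?_⟩
    · simp only [SetLike.val_smul, Pi.smul_apply, smul_eq_mul]
      rw [hF.1 i hi]
    · simp only [SetLike.val_smul, Pi.smul_apply, smul_eq_mul]
      rw [hF.2 i]

/-- The key vanishing: a colouring in `R2sub` which is zero on the gaps of one type is zero. -/
lemma vanish (P τ : Fin n → Prop) [DecidablePred P] [DecidablePred τ]
    (hπ : ∀ i, π (π i) = i) (hτ : ∀ i, τ (π i) ↔ τ i)
    (htr : ∀ S : Fin n → Prop, (∀ i, S i → S (ρ i)) → (∃ i, S i) → ∀ i, S i)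
    (hne : ∃ i, τ i)
    (wt A : Fin n → ℤ) (hwt : ∀ i, wt (π i) = - wt i)
    (hA1 : ∀ i, ¬ τ i → A (ρ i) = A i + wt i) (hA2 : ∀ i, τ i → A (ρ i) = 0)
    (s : ℤ) (F : Fin n → ZMod 2) (hF1 : ∀ i, ¬ τ i → F (ρ i) = F i)
    (hF2 : ∀ i, F (ρ i) = F (π i)) (hs : ∀ i, τ i → F i ≠ 0 → 0 < s * A i) : ∀ i, F i = 0 := by
  classical
  let e : Fin n → ℤ := fun i => if F i = 0 then 0 else 1
  have he1 : ∀ i, ¬ τ i → e (ρ i) = e i := by
    intro i hi
    simp only [e]
    rw [hF1 i hi]
  have he2 : ∀ i, ¬ τ i → e (π i) = e i := by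
    intro i hi
    simp only [e]
    rw [← hF2 i, hF1 i hi]
  -- the weighted sum vanishes
  have h1 : ∑ i ∈ univ.filter (fun i => ¬ τ i), e i * wt i = 0 := by
    have h2 : ∑ i ∈ univ.filter (fun i => ¬ τ i), e i * wt i =
        ∑ i ∈ univ.filter (fun i => ¬ τ i), - (e i * wt i) := by
      refine Finset.sum_bij' (fun i _ => π i) (fun i _ => π i) ?_ ?_ ?_ ?_ ?_
      · intro i hi
        simp only [Finset.mem_filter, Finset.mem_univ, true_and] at hi ⊢
        rwa [hτ]
      · intro i hi
        simp only [Finset.mem_filter, Finset.mem_univ, true_and] at hi ⊢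
        rwa [hτ]
      · intro i _; exact hπ i
      · intro i _; exact hπ i
      · intro i hi
        simp only [Finset.mem_filter, Finset.mem_univ, true_and] at hi
        rw [he2 i hi, hwt]; ring
    rw [Finset.sum_neg_distrib] at h2
    linarith
  have h3 : ∑ i ∈ univ.filter (fun i => ¬ τ i), e i * wt i =
      ∑ i ∈ univ.filter τ, e i * A i := by
    have h4 : ∑ i, (e (ρ i) * A (ρ i) - e i * A i) = 0 := by
      rw [Finset.sum_sub_distrib, Equiv.sum_comp ρ (fun i => e i * A i), sub_self]
    rw [← Finset.sum_filter_add_sum_filter_not univ τ] at h4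
    have h5 : ∑ i ∈ univ.filter τ, (e (ρ i) * A (ρ i) - e i * A i) =
        - ∑ i ∈ univ.filter τ, e i * A i := by
      rw [← Finset.sum_neg_distrib]
      refine Finset.sum_congr rfl (fun i hi => ?_)
      rw [hA2 i (Finset.mem_filter.1 hi).2]; ring
    have h6 : ∑ i ∈ univ.filter (fun i => ¬ τ i), (e (ρ i) * A (ρ i) - e i * A i) =
        ∑ i ∈ univ.filter (fun i => ¬ τ i), e i * wt i := by
      refine Finset.sum_congr rfl (fun i hi => ?_)
      have hi := (Finset.mem_filter.1 hi).2
      rw [hA1 i hi, he1 i hi]; ring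
    rw [h5, h6] at h4
    linarith
  have h7 : ∑ i ∈ univ.filter τ, s * (e i * A i) = 0 := by
    rw [← Finset.mul_sum, ← h3, h1, mul_zero]
  have h8 : ∀ i ∈ univ.filter τ, 0 ≤ s * (e i * A i) := by
    intro i hi
    by_cases h : F i = 0
    · simp [e, h]
    · have := hs i (Finset.mem_filter.1 hi).2 h
      simp only [e, if_neg h, one_mul]
      exact this.le
  have h9 := (Finset.sum_eq_zero_iff_of_nonneg h8).1 h7
  have h10 : ∀ i, τ i → F i = 0 := by
    intro i hi
    by_contra h
    have h11 := h9 i (Finset.mem_filter.2 ⟨Finset.mem_univ _, hi⟩)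
    have h12 := hs i hi h
    simp only [e, if_neg h, one_mul] at h11
    omega
  by_contra hcon
  push Not at hcon
  have h13 := htr (fun i => F i ≠ 0) (fun i hi => by
    have : ¬ τ i := fun h => hi (h10 i h)
    rw [hF1 i this]
    exact hi) hcon
  obtain ⟨i, hi⟩ := hne
  exact h13 i (h10 i hi)

/-- `R1sub` is at least twice as large as `R2sub` -/
lemma double (P τ : Fin n → Prop) [DecidablePred P] [DecidablePred τ]
    (hπ : ∀ i, π (π i) = i) (hP : ∀ i, P (π i) ↔ ¬ P i) (hτ : ∀ i, τ (π i) ↔ τ i)
    (htr : ∀ S : Fin n → Prop, (∀ i, S i → S (ρ i)) → (∃ i, S i) → ∀ i, S i)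
    (hne : ∃ i, τ i) (typ : Fin n → Bool) (ht1 : ∀ i, ¬ τ i → typ (ρ i) = typ i)
    (ht2 : ∀ i, τ i → P i → typ i = false ∧ typ (ρ i) = true)
    (ht3 : ∀ i, τ i → ¬ P i → typ i = true ∧ typ (ρ i) = false)
    (wt A : Fin n → ℤ) (hwt : ∀ i, wt (π i) = - wt i)
    (hA1 : ∀ i, ¬ τ i → A (ρ i) = A i + wt i) (hA2 : ∀ i, τ i → A (ρ i) = 0)
    (hA3 : ∀ i, τ i → P i → A i < 0) (hA4 : ∀ i, τ i → ¬ P i → 0 < A i) :
    2 * finrank (ZMod 2) (R2sub ρ π τ) ≤ finrank (ZMod 2) (R1sub ρ π τ) := by
  classical
  let comb : (Fin n → ZMod 2) → (Fin n → ZMod 2) → Fin n → ZMod 2 := fun F F' i =>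
    if typ i = true then F i else F' i
  have hcomb : ∀ F ∈ R2sub ρ π τ, ∀ F' ∈ R2sub ρ π τ,
      (∀ i, ¬ τ i → comb F.1 F'.1 (ρ i) = comb F.1 F'.1 i) ∧
      (∀ i, τ i → comb F.1 F'.1 (ρ i) = comb F.1 F'.1 (π i)) := by
    intro F hF F' hF'
    refine ⟨fun i hi => ?_, fun i hi => ?_⟩
    · simp only [comb]
      rw [ht1 i hi, hF.1 i hi, hF'.1 i hi]
    · simp only [comb]
      have hi' : τ (π i) := (hτ i).2 hi
      by_cases hp : P i
      · have hp' : ¬ P (π i) := fun h => (hP i).1 h hp
        rw [(ht2 i hi hp).2, (ht3 _ hi' hp').1, if_pos rfl, if_pos rfl, hF.2 i]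
      · have hp' : P (π i) := (hP i).2 hp
        rw [(ht3 i hi hp).2, (ht2 _ hi' hp').1, if_neg (by decide), if_neg (by decide), hF'.2 i]
  have hInc : ∀ G : Fin n → ZMod 2, (∀ i, ¬ τ i → G (ρ i) = G i) →
      (∀ i, τ i → G (ρ i) = G (π i)) → G ∈ Inc ρ π := by
    intro G h1 h2 i
    by_cases hi : τ i
    · have h3 := h2 i hi
      have h4 := h2 (π i) ((hτ i).2 hi)
      rw [hπ] at h4
      rw [h3, h4]; ring
    · have h3 := h1 i hi
      have h4 := h1 (π i) (fun h => hi ((hτ i).1 h))
      rw [h3, h4, two_zero, two_zero]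
  let Ψ : (R2sub ρ π τ × R2sub ρ π τ) →ₗ[ZMod 2] R1sub ρ π τ :=
    { toFun := fun x => ⟨⟨comb x.1.1.1 x.2.1.1,
          hInc _ (hcomb _ x.1.2 _ x.2.2).1 (hcomb _ x.1.2 _ x.2.2).2⟩,
        hcomb _ x.1.2 _ x.2.2⟩
      map_add' := by
        intro x y
        apply Subtype.ext
        apply Subtype.ext
        funext i
        simp only [comb, Prod.fst_add, Prod.snd_add, Submodule.coe_add, Pi.add_apply]
        split_ifs <;> rfl
      map_smul' := by
        intro c x
        apply Subtype.ext
        apply Subtype.ext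
        funext i
        simp only [comb, Prod.smul_fst, Prod.smul_snd, SetLike.val_smul, Pi.smul_apply,
          smul_eq_mul, RingHom.id_apply]
        split_ifs <;> rfl }
  have hΨ : Function.Injective Ψ := by
    rw [← LinearMap.ker_eq_bot, LinearMap.ker_eq_bot']
    rintro ⟨F, F'⟩ h0
    have h1 : ∀ i, comb F.1.1 F'.1.1 i = 0 := by
      intro i
      have := congrArg (fun x : R1sub ρ π τ => x.1.1 i) h0
      exact this
    have hFx : ∀ i, typ i = true → F.1.1 i = 0 := by
      intro i hi
      have := h1 i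
      simp only [comb] at this
      rwa [if_pos hi] at this
    have hFy : ∀ i, typ i = false → F'.1.1 i = 0 := by
      intro i hi
      have := h1 i
      simp only [comb] at this
      rwa [if_neg (by rw [hi]; decide)] at this
    have hF : ∀ i, F.1.1 i = 0 :=
      vanish ρ π P τ hπ hτ htr hne wt A hwt hA1 hA2 (-1) F.1.1 F.2.1 F.2.2 (by
        intro i hi h
        by_cases hp : P i
        · have := hA3 i hi hp
          omega
        · exact absurd (hFx i (ht3 i hi hp).1) h)
    have hF' : ∀ i, F'.1.1 i = 0 :=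
      vanish ρ π P τ hπ hτ htr hne wt A hwt hA1 hA2 1 F'.1.1 F'.2.1 F'.2.2 (by
        intro i hi h
        by_cases hp : P i
        · exact absurd (hFy i (ht2 i hi hp).1) h
        · have := hA4 i hi hp
          omega)
    refine Prod.ext ?_ ?_
    · apply Subtype.ext; apply Subtype.ext; funext i; exact hF i
    · apply Subtype.ext; apply Subtype.ext; funext i; exact hF' i
  have := LinearMap.finrank_le_finrank_of_injective hΨ
  rw [Module.finrank_prod] at this
  omega

/-- The abstract inequality. -/
theorem abs_bound {ι K : Type*} [Fintype ι] [Fintype K] (P τ : Fin n → Prop) [DecidablePred P]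
    [DecidablePred τ] (hπ : ∀ i, π (π i) = i) (hP : ∀ i, P (π i) ↔ ¬ P i)
    (hτ : ∀ i, τ (π i) ↔ τ i)
    (htr : ∀ S : Fin n → Prop, (∀ i, S i → S (ρ i)) → (∃ i, S i) → ∀ i, S i)
    (hprim : ∀ f : Fin n → ZMod 2, ∑ i, f i = 0 → ∃ F : Fin n → ZMod 2, ∀ i, F (ρ i) + F i = f i)
    (c : Fin n → K) (hc : Function.Surjective c) (hcol : ∀ i, c (ρ (π i)) = c i)
    (hne : ∃ i, τ i) (typ : Fin n → Bool) (ht1 : ∀ i, ¬ τ i → typ (ρ i) = typ i)
    (ht2 : ∀ i, τ i → P i → typ i = false ∧ typ (ρ i) = true)
    (ht3 : ∀ i, τ i → ¬ P i → typ i = true ∧ typ (ρ i) = false)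
    (wt A : Fin n → ℤ) (hwt : ∀ i, wt (π i) = - wt i)
    (hA1 : ∀ i, ¬ τ i → A (ρ i) = A i + wt i) (hA2 : ∀ i, τ i → A (ρ i) = 0)
    (hA3 : ∀ i, τ i → P i → A i < 0) (hA4 : ∀ i, τ i → ¬ P i → 0 < A i)
    (Φ : ι → Fin n → ZMod 2) (hΦ1 : ∀ u i, Φ u (ρ (π i)) + Φ u (π i) = Φ u (ρ i) + Φ u i)
    (hΦ2 : ∀ u i, τ i → Φ u (ρ i) = Φ u (π i))
    (hdet : ∀ y : ι → ZMod 2, (∀ v, ∑ u, y u * form ρ π P (Φ u) (Φ v) = 0) → y = 0) :
    (univ.filter (fun i => τ i ∧ P i)).card + Fintype.card ι + Fintype.card K ≤
      (univ.filter P).card := by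
  classical
  have hπne : ∀ i, π i ≠ i := by
    intro i h
    have := hP i
    rw [h] at this
    by_cases hp : P i
    · exact this.1 hp hp
    · exact hp (this.2 hp)
  let V := Inc ρ π
  let B : LinearMap.BilinForm (ZMod 2) V := (form ρ π P).restrict V
  have hBap : ∀ x y : V, B x y = form ρ π P x.1 y.1 := fun x y => rfl
  have hBs : ∀ x y : V, B x y = B y x := fun x y =>
    form_symm ρ π P hπ hP x.1 y.1 x.2 y.2
  have hB : B.IsRefl := by
    intro x y h
    rw [hBs]
    exact h
  let T : Submodule (ZMod 2) V := Tsub ρ π τ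
  let Φ' : ι → V := fun u => ⟨Φ u, hΦ1 u⟩
  let U : Submodule (ZMod 2) V := Submodule.span (ZMod 2) (Set.range Φ')
  -- `T` is orthogonal to `U`
  have hTU : ∀ x ∈ T, ∀ y ∈ U, B x y = 0 := by
    intro x hx y hy
    have : U ≤ LinearMap.ker (B x) := by
      rw [Submodule.span_le]
      rintro _ ⟨u, rfl⟩
      rw [SetLike.mem_coe, LinearMap.mem_ker, hBap, form_apply]
      refine Finset.sum_eq_zero (fun i _ => ?_)
      change (x.1 (ρ i) + x.1 i) * (Φ u (ρ i) + Φ u (π i)) = 0
      by_cases hi : τ i
      · rw [hΦ2 u i hi, two_zero, mul_zero]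
      · have := hx i hi
        rw [this, two_zero, zero_mul]
    exact LinearMap.mem_ker.1 (this hy)
  -- `U` is nondegenerate
  have hlin : ∀ y : ι → ZMod 2, (∀ v, B (∑ u, y u • Φ' u) (Φ' v) = 0) → y = 0 := by
    intro y hy
    apply hdet
    intro v
    have := hy v
    rw [map_sum, LinearMap.sum_apply] at this
    rw [← this]
    refine Finset.sum_congr rfl (fun u _ => ?_)
    rw [map_smul, LinearMap.smul_apply, smul_eq_mul, hBap]
  have hUrep : ∀ x ∈ U, ∃ y : ι → ZMod 2, ∑ u, y u • Φ' u = x := by
    intro x hx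
    exact (Submodule.mem_span_range_iff_exists_fun (ZMod 2)).1 hx
  have hU : U ⊓ B.orthogonal U = ⊥ := by
    rw [eq_bot_iff]
    rintro x ⟨hx1, hx2⟩
    obtain ⟨y, rfl⟩ := hUrep x hx1
    have : y = 0 := by
      apply hlin
      intro v
      rw [hBs]
      exact LinearMap.BilinForm.mem_orthogonal_iff.1 hx2 _ (Submodule.subset_span ⟨v, rfl⟩)
    rw [this]
    simp
  have hUdim : finrank (ZMod 2) U = Fintype.card ι := by
    apply finrank_span_eq_card
    rw [Fintype.linearIndependent_iff]
    intro y hy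
    have : y = 0 := by
      apply hlin
      intro v
      rw [hy, map_zero, LinearMap.zero_apply]
    intro u
    rw [this]; rfl
  -- the two spaces of colourings
  have hR1T : R1sub ρ π τ ≤ T := fun F hF => hF.1
  have hR1 : R1sub ρ π τ ≤ B.orthogonal T := by
    intro F hF
    refine LinearMap.BilinForm.mem_orthogonal_iff.2 ?_
    intro G hG
    change B G F = 0
    rw [hBap, form_apply]
    refine Finset.sum_eq_zero (fun i _ => ?_)
    by_cases hi : τ i
    · rw [hF.2 i hi, two_zero, mul_zero]
    · have : G.1 (ρ i) = G.1 i := hG i hi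
      rw [this, two_zero, zero_mul]
  have hR2 : T ⊓ B.orthogonal ⊤ ≤ R2sub ρ π τ := by
    rintro F ⟨hF1, hF2⟩
    refine ⟨hF1, ?_⟩
    have hpos : ∀ i, P i → F.1 (ρ i) = F.1 (π i) := by
      intro i hi
      obtain ⟨G, hG⟩ := hprim (fun j => if j = i ∨ j = π i then 1 else 0) (by
        rw [Finset.sum_boole]
        have : univ.filter (fun j => j = i ∨ j = π i) = {i, π i} := by
          ext j; simp
        rw [this, Finset.card_pair (hπne i).symm]
        rfl)
      have hGV : G ∈ Inc ρ π := by
        intro j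
        rw [hG, hG]
        congr 1
        apply propext
        constructor
        · rintro (h | h)
          · right; rw [← h, hπ]
          · left; exact π.injective h
        · rintro (h | h)
          · right; rw [h]
          · left; rw [h, hπ]
      have h1 := LinearMap.BilinForm.mem_orthogonal_iff.1 hF2 ⟨G, hGV⟩ Submodule.mem_top
      change B ⟨G, hGV⟩ F = 0 at h1
      rw [hBap, form_apply, Finset.sum_eq_single i] at h1
      · simp only [hG, true_or, if_true, one_mul] at h1
        have h2 := two_zero (F.1 (π i))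
        linear_combination h1 - h2
      · intro j hj hji
        have hj' : P j := (Finset.mem_filter.1 hj).2
        have : ¬ (j = i ∨ j = π i) := by
          rintro (h | h)
          · exact hji h
          · rw [h] at hj'
            exact (hP i).1 hj' hi
        simp only [hG, if_neg this, zero_mul]
      · intro h
        exact absurd (Finset.mem_filter.2 ⟨Finset.mem_univ _, hi⟩) h
    intro i
    by_cases hi : P i
    · exact hpos i hi
    · have h1 := hpos (π i) ((hP i).2 hi)
      rw [hπ] at h1
      have h2 := F.2 i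
      rw [h1] at h2
      linear_combination - h2
  have h12 := double ρ π P τ hπ hP hτ htr hne typ ht1 ht2 ht3 wt A hwt hA1 hA2 hA3 hA4
  have main := lin_bound B hB T U (R1sub ρ π τ) (R2sub ρ π τ) hTU hU hR1T hR1 hR2 h12
  -- dimension of `V`
  have hVdim : finrank (ZMod 2) V ≤ (univ.filter P).card + 1 := by
    let D : V →ₗ[ZMod 2] ({i // P i} → ZMod 2) :=
      { toFun := fun F i => F.1 (ρ i.1) + F.1 i.1
        map_add' := by
          intro F G; funext i
          simp only [Submodule.coe_add, Pi.add_apply]; ring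
        map_smul' := by
          intro a F; funext i
          simp only [SetLike.val_smul, Pi.smul_apply, smul_eq_mul, RingHom.id_apply]; ring }
    have h1 := LinearMap.finrank_range_add_finrank_ker D
    have h2 : finrank (ZMod 2) (LinearMap.range D) ≤ (univ.filter P).card := by
      refine (Submodule.finrank_le _).trans ?_
      rw [Module.finrank_fintype_fun_eq_card, Fintype.card_subtype]
    have h3 : finrank (ZMod 2) (LinearMap.ker D) ≤ 1 := by
      refine finrank_le_one (⟨⟨fun _ => 1, fun i => rfl⟩, ?_⟩ : LinearMap.ker D) ?_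
      · rw [LinearMap.mem_ker]; funext i; exact two_zero _
      · rintro ⟨F, hF⟩
        have h4 : ∀ i, F.1 (ρ i) = F.1 i := by
          have h5 : ∀ i, P i → F.1 (ρ i) = F.1 i := by
            intro i hi
            have := congrFun (LinearMap.mem_ker.1 hF) ⟨i, hi⟩
            have h6 : F.1 (ρ i) + F.1 i = 0 := this
            have h7 := two_zero (F.1 i)
            linear_combination h6 - h7
          intro i
          by_cases hi : P i
          · exact h5 i hi
          · have h6 := h5 (π i) ((hP i).2 hi)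
            have h7 := F.2 i
            rw [h6, two_zero] at h7
            have h8 := two_zero (F.1 i)
            linear_combination -h7 - h8
        obtain ⟨i0, _⟩ := hne
        refine ⟨F.1 i0, ?_⟩
        apply Subtype.ext; apply Subtype.ext; funext i
        have := htr (fun j => F.1 j = F.1 i0) (fun j hj => by rw [h4]; exact hj) ⟨i0, rfl⟩ i
        simp only [SetLike.val_smul, Pi.smul_apply, smul_eq_mul, mul_one]
        exact this.symm
    omega
  -- dimension of the radical
  have hrad : Fintype.card K ≤ finrank (ZMod 2) (B.orthogonal ⊤ : Submodule (ZMod 2) V) := by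
    have hcol2 : ∀ i, c (ρ i) = c (π i) := by
      intro i
      have := hcol (π i)
      rwa [hπ] at this
    let E : (K → ZMod 2) →ₗ[ZMod 2] (B.orthogonal ⊤ : Submodule (ZMod 2) V) :=
      { toFun := fun h => ⟨⟨fun i => h (c i), fun i => by
            change h (c (ρ (π i))) + h (c (π i)) = h (c (ρ i)) + h (c i)
            rw [hcol, hcol2]; ring⟩,
          LinearMap.BilinForm.mem_orthogonal_iff.2 (by
            intro G _
            change B G _ = 0
            rw [hBap, form_apply]
            refine Finset.sum_eq_zero (fun i _ => ?_)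
            change (G.1 (ρ i) + G.1 i) * (h (c (ρ i)) + h (c (π i))) = 0
            rw [hcol2, two_zero, mul_zero])⟩
        map_add' := by
          intro h h'; rfl
        map_smul' := by
          intro a h; rfl }
    have hE : Function.Injective E := by
      intro h h' hh
      funext k
      obtain ⟨i, rfl⟩ := hc k
      exact congrFun (congrArg (fun x : (B.orthogonal ⊤ : Submodule (ZMod 2) V) => x.1.1) hh) i
    have := LinearMap.finrank_le_finrank_of_injective hE
    rwa [Module.finrank_fintype_fun_eq_card] at this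
  -- dimension of `T`
  have hTdim : (univ.filter (fun i => τ i ∧ P i)).card + 1 ≤ finrank (ZMod 2) T := by
    let D : T →ₗ[ZMod 2] ({i // τ i ∧ P i} → ZMod 2) :=
      { toFun := fun F i => F.1.1 (ρ i.1) + F.1.1 i.1
        map_add' := by
          intro F G; funext i
          simp only [Submodule.coe_add, Pi.add_apply]; ring
        map_smul' := by
          intro a F; funext i
          simp only [SetLike.val_smul, Pi.smul_apply, smul_eq_mul, RingHom.id_apply]; ring }
    have hD : Function.Surjective D := by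
      intro x
      let f : Fin n → ZMod 2 := fun i =>
        if h : τ i ∧ P i then x ⟨i, h⟩ else
        if h : τ (π i) ∧ P (π i) then x ⟨π i, h⟩ else 0
      have hf0 : ∀ i, f (π i) = f i := by
        intro i
        simp only [f]
        by_cases h : τ i ∧ P i
        · have h2 : ¬ (τ (π i) ∧ P (π i)) := fun h' => (hP i).1 h'.2 h.2
          have h3 : τ (π (π i)) ∧ P (π (π i)) := by rw [hπ]; exact h
          rw [dif_neg h2, dif_pos h3, dif_pos h]
          congr 1
          exact Subtype.ext (hπ i)
        · by_cases h' : τ (π i) ∧ P (π i)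
          · rw [dif_pos h', dif_neg h, dif_pos h']
          · have h3 : ¬ (τ (π (π i)) ∧ P (π (π i))) := by rw [hπ]; exact h
            rw [dif_neg h', dif_neg h3, dif_neg h, dif_neg h']
      have hfsum : ∑ i, f i = 0 := by
        rw [sum_pairs π P hπ hP f]
        refine Finset.sum_eq_zero (fun i _ => ?_)
        rw [hf0, two_zero]
      obtain ⟨F, hF⟩ := hprim f hfsum
      refine ⟨⟨⟨F, fun i => by rw [hF, hF, hf0]⟩, ?_⟩, ?_⟩
      · intro i hi
        have h1 : f i = 0 := by
          simp only [f]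
          rw [dif_neg (fun h => hi h.1), dif_neg (fun h => hi ((hτ i).1 h.1))]
        have h2 := hF i
        rw [h1] at h2
        have h3 := two_zero (F i)
        change F (ρ i) = F i
        linear_combination h2 - h3
      · funext i
        change F (ρ i.1) + F i.1 = x i
        rw [hF]
        simp only [f]
        rw [dif_pos i.2]
    have h1 := LinearMap.finrank_range_add_finrank_ker D
    have h2 : finrank (ZMod 2) (LinearMap.range D) = (univ.filter (fun i => τ i ∧ P i)).card := by
      rw [LinearMap.range_eq_top.2 hD, finrank_top, Module.finrank_fintype_fun_eq_card,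
        Fintype.card_subtype]
    have h3 : 1 ≤ finrank (ZMod 2) (LinearMap.ker D) := by
      rw [Nat.one_le_iff_ne_zero]
      intro h0
      have h4 := Submodule.finrank_eq_zero.1 h0
      obtain ⟨i0, _⟩ := hne
      let one : T := ⟨⟨fun _ => 1, fun i => rfl⟩, fun i _ => rfl⟩
      have h5 : one ∈ LinearMap.ker D := by
        rw [LinearMap.mem_ker]; funext i; exact two_zero _
      rw [h4, Submodule.mem_bot] at h5
      have h6 := congrArg (fun x : T => x.1.1 i0) h5
      exact one_ne_zero h6
    omega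
  have hmain : finrank (ZMod 2) T + finrank (ZMod 2) U +
      finrank (ZMod 2) (B.orthogonal ⊤ : Submodule (ZMod 2) V) ≤ finrank (ZMod 2) V := main
  omega

end

end H3CD
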