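import Pool.Agent.Helper74.CL.Step
import Pool.Agent.CD7.Heis
import Pool.Agent.CD7.SharpAbs

/-!
# A sharp lower bound for the number of commutators of `∏ X_i t⁻¹ Y_i t`
-/

set_option autoImplicit false
set_option linter.unusedSectionVars false
set_option linter.unusedSimpArgs false

namespace H3CD

open Finset Module H74CL H59CD Matrix

/-- the permutation `i ↦ i + 1` of `ℤ / n` -/
noncomputable def rot (n : ℕ) (hn : 0 < n) : Equiv.Perm (Fin n) :=
  Equiv.ofBijective (fun i => (⟨(i.1 + 1) % n, Nat.mod_lt _ hn⟩ : Fin n)) (by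
    rw [← Finite.injective_iff_bijective]
    intro i j h
    have h1 : (i.1 + 1) % n = (j.1 + 1) % n := congrArg Fin.val h
    have hi := i.2
    have hj := j.2
    apply Fin.ext
    by_cases h2 : i.1 + 1 < n
    · by_cases h3 : j.1 + 1 < n
      · rw [Nat.mod_eq_of_lt h2, Nat.mod_eq_of_lt h3] at h1
        omega
      · have h4 : j.1 + 1 = n := by omega
        rw [h4, Nat.mod_self, Nat.mod_eq_of_lt h2] at h1
        omega
    · have h5 : i.1 + 1 = n := by omega
      by_cases h3 : j.1 + 1 < n
      · rw [h5, Nat.mod_self, Nat.mod_eq_of_lt h3] at h1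
        omega
      · omega)

lemma rot_val (n : ℕ) (hn : 0 < n) (i : Fin n) : (rot n hn i).1 = (i.1 + 1) % n := rfl

lemma rot_fun {β : Type*} (n : ℕ) (hn : 0 < n) (f : ℕ → β) (hf : f n = f 0) (i : Fin n) :
    f (rot n hn i).1 = f (i.1 + 1) := by
  rw [rot_val]
  by_cases h : i.1 + 1 < n
  · rw [Nat.mod_eq_of_lt h]
  · have : i.1 + 1 = n := by have := i.2; omega
    rw [this, Nat.mod_self, hf]

lemma rot_trans (n : ℕ) (hn : 0 < n) (S : Fin n → Prop) (h : ∀ i, S i → S (rot n hn i))
    (he : ∃ i, S i) : ∀ i, S i := by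
  obtain ⟨j, hj⟩ := he
  have key : ∀ k : ℕ, S ⟨(j.1 + k) % n, Nat.mod_lt _ hn⟩ := by
    intro k
    induction k with
    | zero =>
      have : (⟨(j.1 + 0) % n, Nat.mod_lt _ hn⟩ : Fin n) = j := by
        apply Fin.ext
        simp [Nat.mod_eq_of_lt j.2]
      rwa [this]
    | succ k ih =>
      have h1 := h _ ih
      have h2 : rot n hn ⟨(j.1 + k) % n, Nat.mod_lt _ hn⟩ =
          ⟨(j.1 + (k + 1)) % n, Nat.mod_lt _ hn⟩ := by
        apply Fin.ext
        rw [rot_val]
        simp only
        rw [Nat.mod_add_mod]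
        congr 1
      rwa [h2] at h1
  intro i
  have h1 := key (n - j.1 + i.1)
  have h2 : (⟨(j.1 + (n - j.1 + i.1)) % n, Nat.mod_lt _ hn⟩ : Fin n) = i := by
    apply Fin.ext
    have hj := j.2
    simp only
    rw [show j.1 + (n - j.1 + i.1) = n + i.1 by omega, Nat.add_mod_left,
      Nat.mod_eq_of_lt i.2]
  rwa [h2] at h1

lemma rot_prim (n : ℕ) (hn : 0 < n) (f : Fin n → ZMod 2) (hf : ∑ i, f i = 0) :
    ∃ F : Fin n → ZMod 2, ∀ i, F (rot n hn i) + F i = f i := by
  let G : ℕ → ZMod 2 := fun k => ∑ i ∈ Finset.range k, if h : i < n then f ⟨i, h⟩ else 0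
  have hG0 : G 0 = 0 := by simp [G]
  have hGn : G n = 0 := by
    simp only [G]
    rw [Finset.sum_range, ← hf]
    refine Finset.sum_congr rfl (fun i _ => ?_)
    rw [dif_pos i.2]
  refine ⟨fun i => G i.1, fun i => ?_⟩
  change G (rot n hn i).1 + G i.1 = f i
  rw [rot_fun n hn G (by rw [hG0, hGn])]
  have : G (i.1 + 1) = G i.1 + f i := by
    simp only [G]
    rw [Finset.sum_range_succ, dif_pos i.2]
  rw [this]
  have h2 := two_zero (G i.1)
  linear_combination h2

variable {α : Type*}

/-- the weight of a letter -/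
def wt [DecidableEq α] (a : α) (l : α × Bool) : ℤ := if l.1 = a then (if l.2 then 1 else -1) else 0

lemma wt_il [DecidableEq α] (a : α) (l : α × Bool) : wt a (il l) = - wt a l := by
  rcases l with ⟨x, b⟩
  by_cases h : x = a <;> cases b <;> simp [wt, il, h]

/-- the bound for a gluing of a word -/
theorem glue_bound [DecidableEq α] {ι : Type*} [Fintype ι] (L : List (α × Bool)) (g : ℕ)
    (hg : Gen L g) (t a : α) (typ : ℕ → Bool) (A : ℕ → ℤ) (Φ : ι → ℕ → ZMod 2)
    (φ : α → ι → ZMod 2)
    (hw1 : typ L.length = typ 0) (hw2 : A L.length = A 0) (hw3 : ∀ u, Φ u L.length = Φ u 0)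
    (hφ : φ t = 0)
    (hne : ∃ i : Fin L.length, (L[i]).1 = t)
    (h1 : ∀ i (hi : i < L.length), (L[i]).1 ≠ t → typ (i + 1) = typ i ∧ A (i + 1) = A i + wt a L[i])
    (h2 : ∀ i (hi : i < L.length), (L[i]).1 = t → (L[i]).2 = true →
      typ i = false ∧ typ (i + 1) = true ∧ A i < 0)
    (h3 : ∀ i (hi : i < L.length), (L[i]).1 = t → (L[i]).2 = false →
      typ i = true ∧ typ (i + 1) = false ∧ 0 < A i)
    (h4 : ∀ i (hi : i < L.length), (L[i]).1 = t → A (i + 1) = 0 ∧ ∀ u, Φ u i = 0)
    (h5 : ∀ i (hi : i < L.length), ∀ u, Φ u (i + 1) = Φ u i + φ (L[i]).1 u)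
    (hdet : ∀ y : ι → ZMod 2, (∀ v, ∑ u, y u * (∑ i : Fin L.length,
      (Φ v i.1 * φ (L[i]).1 u + if (L[i]).2 then 0 else φ (L[i]).1 v * φ (L[i]).1 u)) = 0) →
      y = 0) :
    (univ.filter (fun i : Fin L.length => (L[i]).1 = t ∧ (L[i]).2 = true)).card +
      Fintype.card ι + 1 ≤ 2 * g := by
  classical
  obtain ⟨π, c, ⟨hlt, hinv, hlab, hcyc, hcol⟩, hcard⟩ := hg
  have hn : 0 < L.length := by
    obtain ⟨i, _⟩ := hne
    have := i.2
    omega
  set n := L.length with hndef
  let pf : Fin n → Fin n := fun i => ⟨π i.1, hlt i.1 i.2⟩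
  have hpf : ∀ i, pf (pf i) = i := fun i => Fin.ext (hinv i.1 i.2)
  let p : Equiv.Perm (Fin n) := ⟨pf, pf, hpf, hpf⟩
  have hpv : ∀ i : Fin n, (p i).1 = π i.1 := fun i => rfl
  let l : Fin n → α × Bool := fun i => L[i]
  have hl : ∀ i, l (p i) = il (l i) := by
    intro i
    have h6 := hlab i.1 i.2
    rw [List.getElem?_eq_getElem (hlt i.1 i.2), List.getElem?_eq_getElem i.2] at h6
    exact Option.some.inj h6
  let P : Fin n → Prop := fun i => (l i).2 = true
  let τ : Fin n → Prop := fun i => (l i).1 = t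
  have hP : ∀ i, P (p i) ↔ ¬ P i := by
    intro i
    change (l (p i)).2 = true ↔ ¬ ((l i).2 = true)
    rw [hl]
    simp [il]
  have hτ : ∀ i, τ (p i) ↔ τ i := by
    intro i
    change (l (p i)).1 = t ↔ (l i).1 = t
    rw [hl]; rfl
  let K : Type := {v // v ∈ cols L c}
  have hcolsdef : ∀ v, v ∈ cols L c ↔ ∃ i, i < n + 1 ∧ c i = v := by
    intro v
    simp only [cols, ← hndef, Finset.mem_image, Finset.mem_range]
  let cc : Fin n → K := fun i => ⟨c i.1, (hcolsdef _).2 ⟨i.1, by have := i.2; omega, rfl⟩⟩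
  have hcc : Function.Surjective cc := by
    rintro ⟨v, hv⟩
    obtain ⟨i, hi, rfl⟩ := (hcolsdef v).1 hv
    by_cases h : i < n
    · exact ⟨⟨i, h⟩, rfl⟩
    · have : i = n := by omega
      subst this
      exact ⟨⟨0, hn⟩, Subtype.ext hcyc⟩
  have hccol : ∀ i, cc (rot n hn (p i)) = cc i := by
    intro i
    apply Subtype.ext
    change c (rot n hn (p i)).1 = c i.1
    rw [rot_fun n hn c hcyc.symm, hpv, hcol i.1 i.2]
  let Φ' : ι → Fin n → ZMod 2 := fun u i => Φ u i.1
  have hΦr : ∀ u i, Φ' u (rot n hn i) = Φ' u i + φ (l i).1 u := by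
    intro u i
    change Φ u (rot n hn i).1 = _
    rw [rot_fun n hn (Φ u) (hw3 u), h5 i.1 i.2 u]
    rfl
  have hform : ∀ u v, form (rot n hn) p P (Φ' u) (Φ' v) = ∑ i : Fin n,
      (Φ v i.1 * φ (L[i]).1 u + if (L[i]).2 then 0 else φ (L[i]).1 v * φ (L[i]).1 u) := by
    intro u v
    rw [form_apply, sum_pairs p P hpf hP]
    refine Finset.sum_congr rfl (fun i hi => ?_)
    have hi' : (l i).2 = true := (Finset.mem_filter.1 hi).2
    have hli : L[i] = l i := rfl
    have hlpi : L[p i] = il (l i) := hl i
    rw [hli, hlpi, hΦr, hΦr]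
    have e1 : (il (l i)).1 = (l i).1 := rfl
    have e2 : (il (l i)).2 = false := by simp [il, hi']
    rw [e1, e2, hi', if_pos rfl, if_neg (by decide)]
    change (Φ u i.1 + φ (l i).1 u + Φ u i.1) * (Φ v i.1 + φ (l i).1 v + Φ v (p i).1) = _
    have h6 := two_zero (Φ u i.1)
    linear_combination (Φ v i.1 + φ (l i).1 v + Φ v (p i).1) * h6
  have main := abs_bound (rot n hn) p P τ hpf hP hτ (rot_trans n hn) (rot_prim n hn) cc hcc hccol
    hne (fun i => typ i.1)
    (fun i hi => by
      rw [rot_fun n hn typ hw1]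
      exact (h1 i.1 i.2 hi).1)
    (fun i hi hp => by
      rw [rot_fun n hn typ hw1]
      exact ⟨(h2 i.1 i.2 hi hp).1, (h2 i.1 i.2 hi hp).2.1⟩)
    (fun i hi hp => by
      have hp' : (l i).2 = false := by
        cases hh : (l i).2 with
        | true => exact absurd hh hp
        | false => rfl
      rw [rot_fun n hn typ hw1]
      exact ⟨(h3 i.1 i.2 hi hp').1, (h3 i.1 i.2 hi hp').2.1⟩)
    (fun i => wt a (l i)) (fun i => A i.1)
    (fun i => by rw [hl, wt_il])
    (fun i hi => by
      rw [rot_fun n hn A hw2]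
      exact (h1 i.1 i.2 hi).2)
    (fun i hi => by
      rw [rot_fun n hn A hw2]
      exact (h4 i.1 i.2 hi).1)
    (fun i hi hp => (h2 i.1 i.2 hi hp).2.2)
    (fun i hi hp => by
      have hp' : (l i).2 = false := by
        cases hh : (l i).2 with
        | true => exact absurd hh hp
        | false => rfl
      exact (h3 i.1 i.2 hi hp').2.2)
    Φ'
    (fun u i => by
      rw [hΦr, hΦr, hl]
      have h6 := two_zero (Φ' u (p i))
      have h7 := two_zero (Φ' u i)
      change Φ' u (p i) + φ (l i).1 u + Φ' u (p i) = _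
      linear_combination h6 - h7)
    (fun u i hi => by
      have h6 := (h4 i.1 i.2 hi).2 u
      have h7 := (h4 (p i).1 (p i).2 ((hτ i).2 hi)).2 u
      have hi' : (l i).1 = t := hi
      rw [hΦr, hi', hφ]
      change Φ u i.1 + 0 = Φ u (p i).1
      rw [h6, h7, add_zero])
    (fun y hy => hdet y (fun v =>
      (Finset.sum_congr rfl (fun u _ => by rw [hform])).trans (hy v)))
  have hKcard : Fintype.card K = (cols L c).card := Fintype.card_coe _
  have hPcard : 2 * (univ.filter P).card = n := by
    have h6 := sum_pairs p P hpf hP (fun _ => (1 : ℕ))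
    simp only [Finset.sum_const, Finset.card_univ, Fintype.card_fin, smul_eq_mul, mul_one] at h6
    omega
  have hτcard : (univ.filter (fun i : Fin n => (L[i]).1 = t ∧ (L[i]).2 = true)).card =
      (univ.filter (fun i => τ i ∧ P i)).card := rfl
  rw [hτcard]
  omega


/-! ### States -/

section States

variable [DecidableEq α] {ι : Type} (t a : α) (φ : α → ι → ZMod 2)

/-- a letter acts on states (side, exponent since the last `t`, sum of `φ`) -/
def nxt (s : Bool × ℤ × (ι → ZMod 2)) (l : α × Bool) : Bool × ℤ × (ι → ZMod 2) :=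
  if l.1 = t then (!s.1, 0, s.2.2) else (s.1, s.2.1 + wt a l, s.2.2 + φ l.1)

/-- the conditions at a letter `t` -/
def okl (s : Bool × ℤ × (ι → ZMod 2)) (l : α × Bool) : Prop :=
  l.1 = t → (l.2 = true → s.1 = false ∧ s.2.1 < 0) ∧ (l.2 = false → s.1 = true ∧ 0 < s.2.1) ∧
    s.2.2 = 0

/-- the conditions at all letters `t` -/
def GoodL : Bool × ℤ × (ι → ZMod 2) → List (α × Bool) → Prop
  | _, [] => True
  | s, l :: L => okl t s l ∧ GoodL (nxt t a φ s l) L

lemma goodL_append (s : Bool × ℤ × (ι → ZMod 2)) (L L' : List (α × Bool)) :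
    GoodL t a φ s (L ++ L') ↔ GoodL t a φ s L ∧ GoodL t a φ (L.foldl (nxt t a φ) s) L' := by
  induction L generalizing s with
  | nil => simp [GoodL]
  | cons l L ih =>
    rw [List.cons_append, GoodL, ih, GoodL, List.foldl_cons, and_assoc]

lemma goodL_get (s : Bool × ℤ × (ι → ZMod 2)) (L : List (α × Bool)) (h : GoodL t a φ s L)
    (i : ℕ) (hi : i < L.length) : okl t ((L.take i).foldl (nxt t a φ) s) L[i] := by
  induction L generalizing s i with
  | nil => simp at hi
  | cons l L ih =>
    cases i with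
    | zero => exact h.1
    | succ i =>
      have := ih (nxt t a φ s l) h.2 i (by simpa using hi)
      simpa using this

lemma foldl_take_succ (s : Bool × ℤ × (ι → ZMod 2)) (L : List (α × Bool)) (i : ℕ)
    (hi : i < L.length) : (L.take (i + 1)).foldl (nxt t a φ) s =
      nxt t a φ ((L.take i).foldl (nxt t a φ) s) L[i] := by
  rw [List.take_succ_eq_append_getElem hi, List.foldl_append]
  rfl

/-- the sum of the weights -/
def wsum (L : List (α × Bool)) : ℤ := (L.map (wt a)).sum

/-- the sum of `φ` -/
def psum (L : List (α × Bool)) : ι → ZMod 2 := (L.map (fun l => φ l.1)).sum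

lemma foldl_free (s : Bool × ℤ × (ι → ZMod 2)) (L : List (α × Bool)) (hL : ∀ l ∈ L, l.1 ≠ t) :
    L.foldl (nxt t a φ) s = (s.1, s.2.1 + wsum a L, s.2.2 + psum φ L) := by
  induction L generalizing s with
  | nil => simp [wsum, psum]
  | cons l L ih =>
    rw [List.foldl_cons, ih _ (fun l' h => hL l' (List.mem_cons_of_mem _ h)), nxt,
      if_neg (hL l List.mem_cons_self)]
    simp only [wsum, psum, List.map_cons, List.sum_cons, add_assoc]

lemma goodL_free (s : Bool × ℤ × (ι → ZMod 2)) (L : List (α × Bool)) (hL : ∀ l ∈ L, l.1 ≠ t) :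
    GoodL t a φ s L := by
  induction L generalizing s with
  | nil => trivial
  | cons l L ih =>
    exact ⟨fun h => absurd h (hL l List.mem_cons_self),
      ih _ (fun l' h => hL l' (List.mem_cons_of_mem _ h))⟩

/-- the word of a list of blocks -/
def word (l : List (List (α × Bool) × List (α × Bool))) : List (α × Bool) :=
  l.flatMap (fun p => p.1 ++ (t, false) :: (p.2 ++ [(t, true)]))

/-- the conditions for a block -/
structure Blk (p : List (α × Bool) × List (α × Bool)) : Prop where
  r1 : FreeGroup.IsReduced p.1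
  r2 : FreeGroup.IsReduced p.2
  f1 : ∀ l ∈ p.1, l.1 ≠ t
  f2 : ∀ l ∈ p.2, l.1 ≠ t
  w1 : 0 < wsum a p.1
  w2 : wsum a p.2 < 0
  p1 : psum φ p.1 = 0
  p2 : psum φ p.2 = 0

lemma word_good (l : List (List (α × Bool) × List (α × Bool))) (h : ∀ p ∈ l, Blk t a φ p) :
    GoodL t a φ (true, 0, 0) (word t l) ∧
      (word t l).foldl (nxt t a φ) (true, 0, 0) = (true, 0, 0) := by
  induction l with
  | nil => exact ⟨trivial, rfl⟩
  | cons p l ih =>
    obtain ⟨ih1, ih2⟩ := ih (fun q hq => h q (List.mem_cons_of_mem _ hq))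
    have hp := h p List.mem_cons_self
    have e1 : word t (p :: l) = p.1 ++ ((t, false) :: (p.2 ++ ((t, true) :: word t l))) := by
      simp [word]
    have e2 := foldl_free t a φ (true, 0, 0) p.1 hp.f1
    have e3 : nxt t a φ (true, 0 + wsum a p.1, 0 + psum φ p.1) (t, false) = (false, 0, 0) := by
      simp [nxt, hp.p1]
    have e4 := foldl_free t a φ (false, 0, 0) p.2 hp.f2
    have e5 : nxt t a φ (false, 0 + wsum a p.2, 0 + psum φ p.2) (t, true) = (true, 0, 0) := by
      simp [nxt, hp.p2]
    rw [e1]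
    refine ⟨?_, ?_⟩
    · rw [goodL_append, e2]
      refine ⟨goodL_free t a φ _ _ hp.f1, ?_⟩
      rw [GoodL]
      refine ⟨?_, ?_⟩
      · intro _
        refine ⟨fun h => absurd h Bool.false_ne_true, fun _ => ⟨rfl, ?_⟩, ?_⟩
        · simpa using hp.w1
        · simpa using hp.p1
      · change GoodL t a φ (nxt t a φ (true, 0 + wsum a p.1, 0 + psum φ p.1) (t, false)) _
        rw [e3, goodL_append, e4]
        refine ⟨goodL_free t a φ _ _ hp.f2, ?_⟩
        rw [GoodL]
        refine ⟨?_, ?_⟩
        · intro _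
          refine ⟨fun _ => ⟨rfl, ?_⟩, fun h => absurd h.symm Bool.false_ne_true, ?_⟩
          · simpa using hp.w2
          · simpa using hp.p2
        · change GoodL t a φ (nxt t a φ (false, 0 + wsum a p.2, 0 + psum φ p.2) (t, true)) _
          rw [e5]
          exact ih1
    · rw [List.foldl_append, e2, List.foldl_cons]
      change (p.2 ++ ((t, true) :: word t l)).foldl (nxt t a φ)
        (nxt t a φ (true, 0 + wsum a p.1, 0 + psum φ p.1) (t, false)) = _
      rw [e3, List.foldl_append, e4, List.foldl_cons]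
      change (word t l).foldl (nxt t a φ)
        (nxt t a φ (false, 0 + wsum a p.2, 0 + psum φ p.2) (t, true)) = _
      rw [e5]
      exact ih2

lemma word_red (l : List (List (α × Bool) × List (α × Bool))) (h : ∀ p ∈ l, Blk t a φ p) :
    FreeGroup.IsReduced (word t l) ∧ ∀ x ∈ (word t l).head?, x.1 ≠ t := by
  induction l with
  | nil => exact ⟨FreeGroup.IsReduced.nil, by simp [word]⟩
  | cons p l ih =>
    obtain ⟨ih1, ih2⟩ := ih (fun q hq => h q (List.mem_cons_of_mem _ hq))
    have hp := h p List.mem_cons_self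
    have e1 : word t (p :: l) = p.1 ++ ((t, false) :: (p.2 ++ ((t, true) :: word t l))) := by
      simp [word]
    have n1 : p.1 ≠ [] := by
      intro h0
      have := hp.w1
      rw [h0] at this
      simp [wsum] at this
    have n2 : p.2 ≠ [] := by
      intro h0
      have := hp.w2
      rw [h0] at this
      simp [wsum] at this
    rw [e1]
    refine ⟨?_, ?_⟩
    · unfold FreeGroup.IsReduced
      rw [List.isChain_append]
      refine ⟨hp.r1, ?_, ?_⟩
      · obtain ⟨x, q, hq⟩ := List.exists_cons_of_ne_nil n2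
        rw [hq, List.cons_append, List.isChain_cons_cons, ← List.cons_append, ← hq]
        refine ⟨fun h0 => absurd h0.symm (hp.f2 x (by rw [hq]; exact List.mem_cons_self)), ?_⟩
        rw [List.isChain_append]
        refine ⟨hp.r2, ?_, ?_⟩
        · rw [List.isChain_cons]
          refine ⟨?_, ih1⟩
          intro y hy h0
          exact absurd h0.symm (ih2 y hy)
        · intro x hx y hy h0
          have h6 : x ∈ p.2 := List.mem_of_mem_getLast? hx
          simp only [List.head?_cons, Option.mem_def, Option.some.injEq] at hy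
          subst hy
          exact absurd h0 (hp.f2 x h6)
      · intro x hx y hy h0
        have h6 : x ∈ p.1 := List.mem_of_mem_getLast? hx
        simp only [List.head?_cons, Option.mem_def, Option.some.injEq] at hy
        subst hy
        exact absurd h0 (hp.f1 x h6)
    · intro x hx
      obtain ⟨y, q, hq⟩ := List.exists_cons_of_ne_nil n1
      rw [hq] at hx
      simp only [List.cons_append, List.head?_cons, Option.mem_def, Option.some.injEq] at hx
      subst hx
      exact hp.f1 y (by rw [hq]; exact List.mem_cons_self)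

lemma word_count (l : List (List (α × Bool) × List (α × Bool))) (h : ∀ p ∈ l, Blk t a φ p) :
    ((word t l).map (fun x => if x.1 = t ∧ x.2 = true then 1 else 0)).sum = l.length := by
  have free : ∀ L : List (α × Bool), (∀ x ∈ L, x.1 ≠ t) →
      (L.map (fun x => if x.1 = t ∧ x.2 = true then 1 else 0)).sum = 0 := by
    intro L hL
    apply List.sum_eq_zero
    intro y hy
    obtain ⟨x, hx, rfl⟩ := List.mem_map.1 hy
    rw [if_neg (fun h => hL x hx h.1)]
  induction l with
  | nil => rfl
  | cons p l ih =>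
    have ih := ih (fun q hq => h q (List.mem_cons_of_mem _ hq))
    have hp := h p List.mem_cons_self
    have e1 : word t (p :: l) = p.1 ++ ((t, false) :: (p.2 ++ ((t, true) :: word t l))) := by
      simp [word]
    rw [e1]
    simp only [List.map_append, List.map_cons, List.sum_append, List.sum_cons]
    rw [free _ hp.f1, free _ hp.f2, ih, List.length_cons]
    simp
    omega

end States

/-! ### The group of class two -/

section Class2

variable {ι : Type} [Fintype ι] [DecidableEq ι] (φ : α → ι → ZMod 2)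

/-- the homomorphism to the group of class two -/
def Th : FreeGroup α →* Hs ι (ZMod 2) := FreeGroup.lift (fun u => ⟨φ u, 0⟩)

lemma Th_single (x : α × Bool) : Th φ (FreeGroup.mk [x]) =
    ⟨φ x.1, if x.2 then 0 else vecMulVec (φ x.1) (φ x.1)⟩ := by
  rcases x with ⟨u, b⟩
  cases b with
  | true =>
    change Th φ (FreeGroup.of u) = _
    rw [Th, FreeGroup.lift_apply_of]
    simp
  | false =>
    have : (FreeGroup.mk [(u, false)] : FreeGroup α) = (FreeGroup.of u)⁻¹ := rfl
    rw [this, map_inv, Th, FreeGroup.lift_apply_of]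
    ext1
    · rw [inv_v]
      simp only
      funext w
      simp only [Pi.neg_apply]
      exact CharTwo.neg_eq _
    · rw [inv_M]
      simp

lemma Th_v (L : List (α × Bool)) : (Th φ (FreeGroup.mk L)).v = psum φ L := by
  induction L using List.reverseRecOn with
  | nil =>
    rw [← FreeGroup.one_eq_mk, map_one, one_v]
    simp [psum]
  | append_singleton L x ih =>
    rw [← FreeGroup.mul_mk, map_mul, mul_v, ih, Th_single]
    simp [psum]

lemma Th_M (L : List (α × Bool)) (w u : ι) : (Th φ (FreeGroup.mk L)).M w u =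
    ∑ i : Fin L.length, (psum φ (L.take i.1) w * φ (L[i]).1 u +
      if (L[i]).2 then 0 else φ (L[i]).1 w * φ (L[i]).1 u) := by
  induction L using List.reverseRecOn with
  | nil =>
    rw [← FreeGroup.one_eq_mk, map_one, one_M]
    simp
  | append_singleton L x ih =>
    rw [← FreeGroup.mul_mk, map_mul, mul_M, Matrix.add_apply, Matrix.add_apply, ih, Th_single,
      Th_v]
    have hlen : (L ++ [x]).length = L.length + 1 := by simp
    have key : ∀ f : ℕ → ZMod 2, ∑ i : Fin (L ++ [x]).length, f i.1 =
        ∑ i : Fin L.length, f i.1 + f L.length := by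
      intro f
      rw [← Finset.sum_range (f := f), ← Finset.sum_range (f := f), hlen, Finset.sum_range_succ]
    let d : α × Bool := x
    let f : ℕ → ZMod 2 := fun i => psum φ ((L ++ [x]).take i) w * φ ((L ++ [x]).getD i d).1 u +
      if ((L ++ [x]).getD i d).2 then 0 else
        φ ((L ++ [x]).getD i d).1 w * φ ((L ++ [x]).getD i d).1 u
    have h1 : ∑ i : Fin (L ++ [x]).length, (psum φ ((L ++ [x]).take i.1) w *
        φ ((L ++ [x])[i]).1 u + if ((L ++ [x])[i]).2 then 0 else
          φ ((L ++ [x])[i]).1 w * φ ((L ++ [x])[i]).1 u) =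
        ∑ i : Fin (L ++ [x]).length, f i.1 := by
      refine Finset.sum_congr rfl (fun i _ => ?_)
      simp only [f]
      rw [List.getD_eq_getElem _ _ i.2]
      rfl
    have h2 : ∑ i : Fin L.length, (psum φ (L.take i.1) w * φ (L[i]).1 u +
        if (L[i]).2 then 0 else φ (L[i]).1 w * φ (L[i]).1 u) = ∑ i : Fin L.length, f i.1 := by
      refine Finset.sum_congr rfl (fun i _ => ?_)
      simp only [f]
      rw [List.getD_append _ _ _ _ i.2, List.getD_eq_getElem _ _ i.2,
        List.take_append_of_le_length i.2.le]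
      rfl
    have h3 : f L.length = psum φ L w * φ x.1 u +
        if x.2 then 0 else φ x.1 w * φ x.1 u := by
      simp only [f]
      rw [List.take_append_of_le_length le_rfl, List.take_length, List.getD_append_right _ _ _ _
        le_rfl]
      simp
    rw [h1, key, h2, h3]
    have h4 : (if x.2 = true then (0 : Matrix ι ι (ZMod 2)) else vecMulVec (φ x.1) (φ x.1)) w u =
        if x.2 then 0 else φ x.1 w * φ x.1 u := by
      split_ifs
      · rfl
      · rfl
    simp only [h4]
    rw [vecMulVec_apply]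
    ring

end Class2

/-- exponent sum of the generator `a` -/
def expo [DecidableEq α] (a : α) : FreeGroup α →* Multiplicative ℤ :=
  FreeGroup.lift (fun u => Multiplicative.ofAdd (if u = a then 1 else 0))

lemma expo_mk [DecidableEq α] (a : α) (L : List (α × Bool)) :
    (expo a (FreeGroup.mk L)).toAdd = wsum a L := by
  induction L with
  | nil =>
    rw [← FreeGroup.one_eq_mk, map_one]
    simp [wsum]
  | cons x L ih =>
    rw [show x :: L = [x] ++ L from rfl, ← FreeGroup.mul_mk, map_mul, toAdd_mul, ih]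
    rcases x with ⟨u, b⟩
    cases b with
    | true =>
      have : (FreeGroup.mk [(u, true)] : FreeGroup α) = FreeGroup.of u := rfl
      rw [this, expo, FreeGroup.lift_apply_of, toAdd_ofAdd]
      simp [wsum, wt]
    | false =>
      have : (FreeGroup.mk [(u, false)] : FreeGroup α) = (FreeGroup.of u)⁻¹ := rfl
      rw [this, map_inv, expo, FreeGroup.lift_apply_of, toAdd_inv, toAdd_ofAdd]
      simp only [wsum, wt, List.map_append, List.map_cons, List.map_nil, List.sum_append,
        List.sum_cons, List.sum_nil, add_zero]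
      split_ifs <;> simp_all

/-- elements of the subgroup generated by the letters different from `t` have reduced words
without `t` -/
lemma toWord_free [DecidableEq α] (t : α) {X : FreeGroup α}
    (hX : X ∈ Subgroup.closure (FreeGroup.of '' {u | u ≠ t})) : ∀ l ∈ X.toWord, l.1 ≠ t := by
  have key : ∃ L : List (α × Bool), FreeGroup.mk L = X ∧ ∀ l ∈ L, l.1 ≠ t := by
    induction hX using Subgroup.closure_induction with
    | mem x hx =>
      obtain ⟨u, hu, rfl⟩ := hx
      exact ⟨[(u, true)], rfl, by simpa using hu⟩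
    | one => exact ⟨[], rfl, by simp⟩
    | mul x y _ _ hx hy =>
      obtain ⟨L, rfl, h1⟩ := hx
      obtain ⟨L', rfl, h2⟩ := hy
      refine ⟨L ++ L', FreeGroup.mul_mk.symm, ?_⟩
      intro l hl
      rcases List.mem_append.1 hl with h | h
      · exact h1 l h
      · exact h2 l h
    | inv x _ hx =>
      obtain ⟨L, rfl, h1⟩ := hx
      refine ⟨FreeGroup.invRev L, FreeGroup.inv_mk.symm, ?_⟩
      intro l hl
      simp only [FreeGroup.invRev, List.mem_reverse, List.mem_map] at hl
      obtain ⟨x, hx, rfl⟩ := hl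
      exact h1 x hx
  obtain ⟨L, rfl, h1⟩ := key
  intro l hl
  rw [FreeGroup.toWord_mk] at hl
  exact h1 l (FreeGroup.reduce.red.sublist.mem hl)

/-- **The sharp bound.** -/
theorem sharp [DecidableEq α] {ι : Type} [Fintype ι] [DecidableEq ι] (t a : α)
    (φ : α → ι → ZMod 2) (hφ : φ t = 0) (m : ℕ) (hm : 0 < m) (X Y : Fin m → FreeGroup α)
    (hX : ∀ i, X i ∈ Subgroup.closure (FreeGroup.of '' {u | u ≠ t}))
    (hY : ∀ i, Y i ∈ Subgroup.closure (FreeGroup.of '' {u | u ≠ t}))
    (hXa : ∀ i, 0 < (expo a (X i)).toAdd) (hYa : ∀ i, (expo a (Y i)).toAdd < 0)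
    (hXφ : ∀ i, (Th φ (X i)).v = 0) (hYφ : ∀ i, (Th φ (Y i)).v = 0)
    (hdet : IsUnit (Th φ (List.ofFn (fun i => X i * (FreeGroup.of t)⁻¹ * Y i *
      FreeGroup.of t)).prod).M.det)
    (g : ℕ) (h : PC g (List.ofFn (fun i => X i * (FreeGroup.of t)⁻¹ * Y i *
      FreeGroup.of t)).prod) : m + 1 + Fintype.card ι ≤ 2 * g := by
  classical
  let bl : List (List (α × Bool) × List (α × Bool)) :=
    List.ofFn (fun i => ((X i).toWord, (Y i).toWord))
  have hbl : ∀ p ∈ bl, Blk t a φ p := by
    intro p hp
    obtain ⟨i, rfl⟩ := (List.mem_ofFn' _ _).1 hp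
    refine ⟨FreeGroup.isReduced_toWord, FreeGroup.isReduced_toWord, toWord_free t (hX i),
      toWord_free t (hY i), ?_, ?_, ?_, ?_⟩
    · rw [← expo_mk, FreeGroup.mk_toWord]; exact hXa i
    · rw [← expo_mk, FreeGroup.mk_toWord]; exact hYa i
    · rw [← Th_v, FreeGroup.mk_toWord]; exact hXφ i
    · rw [← Th_v, FreeGroup.mk_toWord]; exact hYφ i
  have hmk : ∀ l : List (List (α × Bool) × List (α × Bool)), FreeGroup.mk (word t l) =
      (l.map (fun p => FreeGroup.mk p.1 * (FreeGroup.of t)⁻¹ * FreeGroup.mk p.2 *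
        FreeGroup.of t)).prod := by
    intro l
    induction l with
    | nil => rfl
    | cons p l ih =>
      have e1 : word t (p :: l) = p.1 ++ ([(t, false)] ++ (p.2 ++ ([(t, true)] ++ word t l))) := by
        simp [word]
      rw [e1, ← FreeGroup.mul_mk, ← FreeGroup.mul_mk, ← FreeGroup.mul_mk, ← FreeGroup.mul_mk, ih,
        List.map_cons, List.prod_cons]
      have e2 : (FreeGroup.mk [(t, false)] : FreeGroup α) = (FreeGroup.of t)⁻¹ := rfl
      have e3 : (FreeGroup.mk [(t, true)] : FreeGroup α) = FreeGroup.of t := rfl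
      rw [e2, e3]
      group
  have hW : FreeGroup.mk (word t bl) = (List.ofFn (fun i => X i * (FreeGroup.of t)⁻¹ * Y i *
      FreeGroup.of t)).prod := by
    rw [hmk, List.map_ofFn]
    congr 2
    funext i
    simp only [Function.comp_apply, FreeGroup.mk_toWord]
  obtain ⟨hgood, hfold⟩ := word_good t a φ bl hbl
  obtain ⟨hred, -⟩ := word_red t a φ bl hbl
  set L := word t bl with hL
  have hgen : Gen L g := gen_of_PC h L hred hW
  rw [← hW] at hdet
  let st : ℕ → Bool × ℤ × (ι → ZMod 2) := fun i => (L.take i).foldl (nxt t a φ) (true, 0, 0)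
  have hst0 : st 0 = (true, 0, 0) := rfl
  have hstn : st L.length = (true, 0, 0) := by
    simp only [st, List.take_length]
    exact hfold
  have hsucc : ∀ i (hi : i < L.length), st (i + 1) = nxt t a φ (st i) L[i] := fun i hi =>
    foldl_take_succ t a φ _ L i hi
  have hok : ∀ i (hi : i < L.length), okl t (st i) L[i] := fun i hi =>
    goodL_get t a φ _ L hgood i hi
  have hst2 : ∀ i, i ≤ L.length → (st i).2.2 = psum φ (L.take i) := by
    intro i
    induction i with
    | zero => intro _; simp [hst0, psum]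
    | succ i ih =>
      intro hi
      rw [hsucc i hi, List.take_succ_eq_append_getElem hi]
      simp only [psum, List.map_append, List.map_cons, List.map_nil, List.sum_append,
        List.sum_cons, List.sum_nil, add_zero]
      have ih := ih (by omega)
      simp only [psum] at ih
      rw [← ih, nxt]
      by_cases h6 : (L[i]).1 = t
      · rw [if_pos h6, h6, hφ, add_zero]
      · rw [if_neg h6]
  have hcount : (univ.filter (fun i : Fin L.length => (L[i]).1 = t ∧ (L[i]).2 = true)).card =
      m := by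
    have h6 := word_count t a φ bl hbl
    rw [← hL] at h6
    rw [Finset.card_filter]
    have h7 := Fin.sum_univ_fun_getElem L (fun x => if x.1 = t ∧ x.2 = true then 1 else 0)
    have h8 : bl.length = m := by simp [bl]
    exact (h7.trans h6).trans h8
  have hne : ∃ i : Fin L.length, (L[i]).1 = t := by
    have : (univ.filter (fun i : Fin L.length => (L[i]).1 = t ∧ (L[i]).2 = true)).Nonempty := by
      rw [← Finset.card_pos, hcount]; exact hm
    obtain ⟨i, hi⟩ := this
    exact ⟨i, (Finset.mem_filter.1 hi).2.1⟩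
  have main := glue_bound L g hgen t a (fun i => (st i).1) (fun i => (st i).2.1)
    (fun u i => (st i).2.2 u) φ (by rw [hstn, hst0]) (by rw [hstn, hst0])
    (fun u => by rw [hstn, hst0]) hφ hne
    (fun i hi hl => by
      refine ⟨?_, ?_⟩
      · simp only [hsucc i hi, nxt, if_neg hl]
      · simp only [hsucc i hi, nxt, if_neg hl])
    (fun i hi hl hb => by
      have h6 := (hok i hi hl).1 hb
      refine ⟨h6.1, ?_, h6.2⟩
      simp only [hsucc i hi, nxt, if_pos hl, h6.1]
      rfl)
    (fun i hi hl hb => by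
      have h6 := (hok i hi hl).2.1 hb
      refine ⟨h6.1, ?_, h6.2⟩
      simp only [hsucc i hi, nxt, if_pos hl, h6.1]
      rfl)
    (fun i hi hl => by
      have h6 := (hok i hi hl).2.2
      refine ⟨?_, fun u => ?_⟩
      · simp only [hsucc i hi, nxt, if_pos hl]
      · rw [h6]; rfl)
    (fun i hi u => by
      simp only [hsucc i hi, nxt]
      by_cases hl : (L[i]).1 = t
      · rw [if_pos hl, hl, hφ]; simp
      · rw [if_neg hl]; rfl)
    (fun y hy => by
      have h6 : (Th φ (FreeGroup.mk L)).M.mulVec y = 0 := by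
        funext v
        rw [Matrix.mulVec, Pi.zero_apply, ← hy v]
        simp only [dotProduct]
        refine Finset.sum_congr rfl (fun u _ => ?_)
        rw [Th_M, mul_comm]
        congr 1
        refine Finset.sum_congr rfl (fun i _ => ?_)
        rw [hst2 i.1 i.2.le]
      have h7 := Matrix.mulVec_injective_of_isUnit ((Matrix.isUnit_iff_isUnit_det _).2 hdet)
      exact h7 (h6.trans (Matrix.mulVec_zero _).symm))
  rw [hcount] at main
  omega

end H3CD
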