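import Pool.Agent.CD7.TDefs
import Pool.Agent.CD7.Sharp

/-!
# The lower bound for versions of `(t A t⁻¹ B) ^ m`
-/

set_option autoImplicit false
set_option linter.unusedSectionVars false
set_option linter.unusedSimpArgs false

namespace H3CD

open Finset Module H74CL H59CD Matrix H55CD

section Values

variable {Γ : Type*} [Group Γ]

lemma ev_append (x : ℕ → Γ) (L L' : Wd) : ev x (L ++ L') = ev x L * ev x L' := by
  simp [ev]

lemma ev_nil (x : ℕ → Γ) : ev x [] = 1 := rfl

lemma ev_single (x : ℕ → Γ) (p : ℕ × Bool) : ev x [p] = ev1 x p := by simp [ev]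

lemma ev_cons (x : ℕ → Γ) (p : ℕ × Bool) (L : Wd) : ev x (p :: L) = ev1 x p * ev x L := by
  simp [ev]

lemma ev_take_succ (x : ℕ → Γ) (L : Wd) (i : ℕ) (hi : i < L.length) :
    ev x (L.take (i + 1)) = ev x (L.take i) * ev1 x L[i] := by
  rw [List.take_succ_eq_append_getElem hi, ev_append, ev_single]

lemma al_il (p : ℕ × Bool) : al (il p) = - al p := by
  rcases p with ⟨q, b⟩
  by_cases h : q = 0 <;> cases b <;> simp [al, il, h]

end Values

variable {ι : Type} [Fintype ι] [DecidableEq ι]

lemma ev1_v (x : ℕ → Hs ι (ZMod 2)) (p : ℕ × Bool) : (ev1 x p).v = (x p.1).v := by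
  rcases p with ⟨q, b⟩
  cases b with
  | true => rfl
  | false =>
    change ((x q)⁻¹).v = (x q).v
    rw [inv_v]
    funext w
    exact CharTwo.neg_eq _

lemma ev1_M (x : ℕ → Hs ι (ZMod 2)) (p : ℕ × Bool) (w u : ι) : (ev1 x p).M w u =
    (x p.1).M w u + if p.2 then 0 else (x p.1).v w * (x p.1).v u := by
  rcases p with ⟨q, b⟩
  cases b with
  | true =>
    change (x q).M w u = _
    simp
  | false =>
    change ((x q)⁻¹).M w u = _
    rw [inv_M, Matrix.add_apply, vecMulVec_apply, Matrix.neg_apply, CharTwo.neg_eq]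
    simp

lemma ev_M (x : ℕ → Hs ι (ZMod 2)) (L : Wd) (w u : ι) : (ev x L).M w u =
    ∑ i : Fin L.length, ((ev x (L.take i.1)).v w * (x (L[i]).1).v u + (ev1 x L[i]).M w u) := by
  induction L using List.reverseRecOn with
  | nil =>
    rw [ev_nil, one_M]
    simp
  | append_singleton L y ih =>
    rw [ev_append, ev_single, mul_M, Matrix.add_apply, Matrix.add_apply, ih]
    have hlen : (L ++ [y]).length = L.length + 1 := by simp
    let f : ℕ → ZMod 2 := fun i => (ev x ((L ++ [y]).take i)).v w *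
      (x ((L ++ [y]).getD i y).1).v u + (ev1 x ((L ++ [y]).getD i y)).M w u
    have key : ∑ i : Fin (L ++ [y]).length, f i.1 =
        ∑ i : Fin L.length, f i.1 + f L.length := by
      rw [← Finset.sum_range (f := f), ← Finset.sum_range (f := f), hlen, Finset.sum_range_succ]
    have h1 : ∑ i : Fin (L ++ [y]).length, ((ev x ((L ++ [y]).take i.1)).v w *
        (x ((L ++ [y])[i]).1).v u + (ev1 x ((L ++ [y])[i])).M w u) =
        ∑ i : Fin (L ++ [y]).length, f i.1 := by
      refine Finset.sum_congr rfl (fun i _ => ?_)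
      simp only [f]
      rw [List.getD_eq_getElem _ _ i.2]
      rfl
    have h2 : ∑ i : Fin L.length, ((ev x (L.take i.1)).v w * (x (L[i]).1).v u +
        (ev1 x L[i]).M w u) = ∑ i : Fin L.length, f i.1 := by
      refine Finset.sum_congr rfl (fun i _ => ?_)
      simp only [f]
      rw [List.getD_append _ _ _ _ i.2, List.getD_eq_getElem _ _ i.2,
        List.take_append_of_le_length i.2.le]
      rfl
    have h3 : f L.length = (ev x L).v w * (x y.1).v u + (ev1 x y).M w u := by
      simp only [f]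
      rw [List.take_append_of_le_length le_rfl, List.take_length, List.getD_append_right _ _ _ _
        le_rfl]
      simp
    rw [h1, key, h2, h3, vecMulVec_apply, ev1_v]
    ring

/-- the bound for a gluing of a word with values in the group of class two -/
theorem glue_bound2 (L : Wd) (g : ℕ) (hg : Gen L g) (t : ℕ) (typ : ℕ → Bool) (A : ℕ → ℤ)
    (x : ℕ → Hs ι (ZMod 2))
    (hw1 : typ L.length = typ 0) (hw2 : A L.length = A 0) (hw3 : (ev x L).v = 0)
    (hne : ∃ i : Fin L.length, (L[i]).1 = t)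
    (h1 : ∀ i (hi : i < L.length), (L[i]).1 ≠ t → typ (i + 1) = typ i ∧ A (i + 1) = A i + al L[i])
    (h2 : ∀ i (hi : i < L.length), (L[i]).1 = t → (L[i]).2 = true →
      typ i = false ∧ typ (i + 1) = true ∧ A i < 0 ∧ A (i + 1) = 0 ∧ (ev x (L.take i)).v = 0)
    (h3 : ∀ i (hi : i < L.length), (L[i]).1 = t → (L[i]).2 = false →
      typ i = true ∧ typ (i + 1) = false ∧ 0 < A i ∧ A (i + 1) = 0 ∧
        (ev x (L.take i)).v = (x t).v)
    (hdet : IsUnit (ev x L).M.det) :
    (univ.filter (fun i : Fin L.length => (L[i]).1 = t ∧ (L[i]).2 = true)).card +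
      Fintype.card ι + 1 ≤ 2 * g := by
  classical
  obtain ⟨π, c, ⟨hlt, hinv, hlab, hcyc, hcol⟩, hcard⟩ := hg
  have hn : 0 < L.length := by
    obtain ⟨i, _⟩ := hne
    have := i.2
    omega
  have hevL : ev x (L.take L.length) = ev x L := by rw [List.take_length]
  set n := L.length with hndef
  let pf : Fin n → Fin n := fun i => ⟨π i.1, hlt i.1 i.2⟩
  have hpf : ∀ i, pf (pf i) = i := fun i => Fin.ext (hinv i.1 i.2)
  let p : Equiv.Perm (Fin n) := ⟨pf, pf, hpf, hpf⟩
  have hpv : ∀ i : Fin n, (p i).1 = π i.1 := fun i => rfl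
  let l : Fin n → ℕ × Bool := fun i => L[i]
  have hl : ∀ i, l (p i) = il (l i) := by
    intro i
    have h6 := hlab i.1 i.2
    rw [List.getElem?_eq_getElem (hlt i.1 i.2), List.getElem?_eq_getElem i.2] at h6
    exact Option.some.inj h6
  let P : Fin n → Prop := fun i => (l i).2 = true
  let τ : Fin n → Prop := fun i => (l i).1 = t
  have hP : ∀ i, P (p i) ↔ ¬ P i := by
    intro i
    change (l (p i)).2 = true ↔ ¬ ((l i).2 = true)
    rw [hl]
    simp [il]
  have hτ : ∀ i, τ (p i) ↔ τ i := by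
    intro i
    change (l (p i)).1 = t ↔ (l i).1 = t
    rw [hl]; rfl
  let K : Type := {v // v ∈ cols L c}
  have hcolsdef : ∀ v, v ∈ cols L c ↔ ∃ i, i < n + 1 ∧ c i = v := by
    intro v
    simp only [cols, ← hndef, Finset.mem_image, Finset.mem_range]
  let cc : Fin n → K := fun i => ⟨c i.1, (hcolsdef _).2 ⟨i.1, by have := i.2; omega, rfl⟩⟩
  have hcc : Function.Surjective cc := by
    rintro ⟨v, hv⟩
    obtain ⟨i, hi, rfl⟩ := (hcolsdef v).1 hv
    by_cases h : i < n
    · exact ⟨⟨i, h⟩, rfl⟩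
    · have : i = n := by omega
      subst this
      exact ⟨⟨0, hn⟩, Subtype.ext hcyc⟩
  have hccol : ∀ i, cc (rot n hn (p i)) = cc i := by
    intro i
    apply Subtype.ext
    change c (rot n hn (p i)).1 = c i.1
    rw [rot_fun n hn c hcyc.symm, hpv, hcol i.1 i.2]
  let Φ : ι → ℕ → ZMod 2 := fun u i => (ev x (L.take i)).v u
  let Φ' : ι → Fin n → ZMod 2 := fun u i => Φ u i.1
  have hΦ0 : ∀ u, Φ u 0 = 0 := fun u => by
    simp only [Φ, List.take_zero, ev_nil, one_v, Pi.zero_apply]
  have hΦn : ∀ u, Φ u n = Φ u 0 := by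
    intro u
    rw [hΦ0]
    simp only [Φ]
    rw [hevL, hw3]; rfl
  have hΦr : ∀ u i, Φ' u (rot n hn i) = Φ' u i + (x (l i).1).v u := by
    intro u i
    change Φ u (rot n hn i).1 = _
    rw [rot_fun n hn (Φ u) (hΦn u)]
    simp only [Φ, Φ']
    rw [ev_take_succ x L i.1 i.2, mul_v, Pi.add_apply, ev1_v]
    rfl
  have hform : ∀ u v, form (rot n hn) p P (Φ' u) (Φ' v) = (ev x L).M v u := by
    intro u v
    rw [form_apply, ev_M, sum_pairs p P hpf hP]
    refine Finset.sum_congr rfl (fun i hi => ?_)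
    have hi' : (l i).2 = true := (Finset.mem_filter.1 hi).2
    have hli : L[i] = l i := rfl
    have hlpi : L[p i] = il (l i) := hl i
    rw [hli, hlpi, hΦr, hΦr, ev1_M, ev1_M]
    have e1 : (il (l i)).1 = (l i).1 := rfl
    have e2 : (il (l i)).2 = false := by simp [il, hi']
    rw [e1, e2, hi', if_pos rfl, if_neg (by decide)]
    change (Φ u i.1 + (x (l i).1).v u + Φ u i.1) * (Φ v i.1 + (x (l i).1).v v + Φ v (p i).1) =
      Φ v i.1 * (x (l i).1).v u + ((x (l i).1).M v u + 0) +
        (Φ v (p i).1 * (x (l i).1).v u + ((x (l i).1).M v u +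
          (x (l i).1).v v * (x (l i).1).v u))
    have h6 := two_zero (Φ u i.1)
    have h7 := two_zero ((x (l i).1).M v u)
    linear_combination (Φ v i.1 + (x (l i).1).v v + Φ v (p i).1) * h6 - h7
  have main := abs_bound (rot n hn) p P τ hpf hP hτ (rot_trans n hn) (rot_prim n hn) cc hcc hccol
    hne (fun i => typ i.1)
    (fun i hi => by
      rw [rot_fun n hn typ hw1]
      exact (h1 i.1 i.2 hi).1)
    (fun i hi hp => by
      rw [rot_fun n hn typ hw1]
      exact ⟨(h2 i.1 i.2 hi hp).1, (h2 i.1 i.2 hi hp).2.1⟩)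
    (fun i hi hp => by
      have hp' : (l i).2 = false := by
        cases hh : (l i).2 with
        | true => exact absurd hh hp
        | false => rfl
      rw [rot_fun n hn typ hw1]
      exact ⟨(h3 i.1 i.2 hi hp').1, (h3 i.1 i.2 hi hp').2.1⟩)
    (fun i => al (l i)) (fun i => A i.1)
    (fun i => by rw [hl, al_il])
    (fun i hi => by
      rw [rot_fun n hn A hw2]
      exact (h1 i.1 i.2 hi).2)
    (fun i hi => by
      rw [rot_fun n hn A hw2]
      cases hh : (l i).2 with
      | true => exact (h2 i.1 i.2 hi hh).2.2.2.1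
      | false => exact (h3 i.1 i.2 hi hh).2.2.2.1)
    (fun i hi hp => (h2 i.1 i.2 hi hp).2.2.1)
    (fun i hi hp => by
      have hp' : (l i).2 = false := by
        cases hh : (l i).2 with
        | true => exact absurd hh hp
        | false => rfl
      exact (h3 i.1 i.2 hi hp').2.2.1)
    Φ'
    (fun u i => by
      rw [hΦr, hΦr, hl]
      have h6 := two_zero (Φ' u (p i))
      have h7 := two_zero (Φ' u i)
      change Φ' u (p i) + (x (l i).1).v u + Φ' u (p i) = _
      linear_combination h6 - h7)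
    (fun u i hi => by
      have hi' : (l i).1 = t := hi
      have hip : (l (p i)).1 = t := (hτ i).2 hi
      rw [hΦr, hi']
      change Φ u i.1 + (x t).v u = Φ u (p i).1
      simp only [Φ]
      cases hh : (l i).2 with
      | true =>
        have hh' : (l (p i)).2 = false := by rw [hl]; simp [il, hh]
        rw [(h2 i.1 i.2 hi' hh).2.2.2.2, (h3 (p i).1 (p i).2 hip hh').2.2.2.2]
        simp
      | false =>
        have hh' : (l (p i)).2 = true := by rw [hl]; simp [il, hh]
        rw [(h3 i.1 i.2 hi' hh).2.2.2.2, (h2 (p i).1 (p i).2 hip hh').2.2.2.2]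
        exact two_zero _)
    (fun y hy => by
      have h6 : (ev x L).M.mulVec y = 0 := by
        funext v
        rw [Matrix.mulVec, Pi.zero_apply, ← hy v]
        simp only [dotProduct]
        refine Finset.sum_congr rfl (fun u _ => ?_)
        rw [hform, mul_comm]
      have h7 := Matrix.mulVec_injective_of_isUnit ((Matrix.isUnit_iff_isUnit_det _).2 hdet)
      exact h7 (h6.trans (Matrix.mulVec_zero _).symm))
  have hKcard : Fintype.card K = (cols L c).card := Fintype.card_coe _
  have hPcard : 2 * (univ.filter P).card = n := by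
    have h6 := sum_pairs p P hpf hP (fun _ => (1 : ℕ))
    simp only [Finset.sum_const, Finset.card_univ, Fintype.card_fin, smul_eq_mul, mul_one] at h6
    omega
  have hτcard : (univ.filter (fun i : Fin n => (L[i]).1 = t ∧ (L[i]).2 = true)).card =
      (univ.filter (fun i => τ i ∧ P i)).card := rfl
  rw [hτcard]
  omega

/-! ### States -/

section States

variable (t : ℕ) (x : ℕ → Hs ι (ZMod 2))

/-- a letter acts on states (side, `a`-exponent since the last `t`, value) -/
def nxt2 (s : Bool × ℤ × (ι → ZMod 2)) (l : ℕ × Bool) : Bool × ℤ × (ι → ZMod 2) :=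
  if l.1 = t then (!s.1, 0, s.2.2 + (x l.1).v) else (s.1, s.2.1 + al l, s.2.2 + (x l.1).v)

/-- the conditions at a letter `t` -/
def okl2 (s : Bool × ℤ × (ι → ZMod 2)) (l : ℕ × Bool) : Prop :=
  l.1 = t → (l.2 = true → s.1 = false ∧ s.2.1 < 0 ∧ s.2.2 = 0) ∧
    (l.2 = false → s.1 = true ∧ 0 < s.2.1 ∧ s.2.2 = (x t).v)

/-- the conditions at all letters `t` -/
def GoodL2 : Bool × ℤ × (ι → ZMod 2) → Wd → Prop
  | _, [] => True
  | s, l :: L => okl2 t x s l ∧ GoodL2 (nxt2 t x s l) L

lemma goodL2_append (s : Bool × ℤ × (ι → ZMod 2)) (L L' : Wd) :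
    GoodL2 t x s (L ++ L') ↔ GoodL2 t x s L ∧ GoodL2 t x (L.foldl (nxt2 t x) s) L' := by
  induction L generalizing s with
  | nil => simp [GoodL2]
  | cons l L ih =>
    rw [List.cons_append, GoodL2, ih, GoodL2, List.foldl_cons, and_assoc]

lemma goodL2_get (s : Bool × ℤ × (ι → ZMod 2)) (L : Wd) (h : GoodL2 t x s L)
    (i : ℕ) (hi : i < L.length) : okl2 t x ((L.take i).foldl (nxt2 t x) s) L[i] := by
  induction L generalizing s i with
  | nil => simp at hi
  | cons l L ih =>
    cases i with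
    | zero => exact h.1
    | succ i =>
      have := ih (nxt2 t x s l) h.2 i (by simpa using hi)
      simpa using this

lemma foldl2_take_succ (s : Bool × ℤ × (ι → ZMod 2)) (L : Wd) (i : ℕ)
    (hi : i < L.length) : (L.take (i + 1)).foldl (nxt2 t x) s =
      nxt2 t x ((L.take i).foldl (nxt2 t x) s) L[i] := by
  rw [List.take_succ_eq_append_getElem hi, List.foldl_append]
  rfl

lemma foldl2_free (s : Bool × ℤ × (ι → ZMod 2)) (L : Wd) (hL : ∀ l ∈ L, l.1 < t) :
    L.foldl (nxt2 t x) s = (s.1, s.2.1 + ax L, s.2.2 + (ev x L).v) := by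
  induction L generalizing s with
  | nil => simp [ax, ev_nil, one_v]
  | cons l L ih =>
    have h1 : l.1 ≠ t := (hL l List.mem_cons_self).ne
    rw [List.foldl_cons, ih _ (fun l' h => hL l' (List.mem_cons_of_mem _ h)), nxt2, if_neg h1,
      ev_cons, mul_v, ev1_v]
    simp only [ax, List.map_cons, List.sum_cons, add_assoc]

lemma goodL2_free (s : Bool × ℤ × (ι → ZMod 2)) (L : Wd) (hL : ∀ l ∈ L, l.1 < t) :
    GoodL2 t x s L := by
  induction L generalizing s with
  | nil => trivial
  | cons l L ih =>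
    exact ⟨fun h => absurd h (hL l List.mem_cons_self).ne,
      ih _ (fun l' h => hL l' (List.mem_cons_of_mem _ h))⟩

end States

/-! ### Versions -/

section Versions

variable {Γ : Type*} [Group Γ]

lemma reals_cons {r : ℕ → Γ} {C : Subgroup Γ} {c : ℕ × Bool} {U L : Wd}
    (h : Reals r C (c :: U) L) : ∃ M L' : Wd, L = M ++ L' ∧ Real r C c M ∧ Reals r C U L' := by
  obtain ⟨Ls, rfl, h⟩ := h
  cases h with
  | cons h1 h2 => exact ⟨_, _, List.flatten_cons, h1, _, rfl, h2⟩

lemma reals_append {r : ℕ → Γ} {C : Subgroup Γ} {U₁ U₂ L : Wd} (h : Reals r C (U₁ ++ U₂) L) :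
    ∃ L₁ L₂ : Wd, L = L₁ ++ L₂ ∧ Reals r C U₁ L₁ ∧ Reals r C U₂ L₂ := by
  induction U₁ generalizing L with
  | nil => exact ⟨[], L, rfl, ⟨[], rfl, List.Forall₂.nil⟩, h⟩
  | cons c U₁ ih =>
    rw [List.cons_append] at h
    obtain ⟨M, L', rfl, h1, h2⟩ := reals_cons h
    obtain ⟨L₁, L₂, rfl, ⟨Ls, rfl, h3⟩, h4⟩ := ih h2
    exact ⟨M ++ Ls.flatten, L₂, by rw [List.append_assoc],
      ⟨M :: Ls, by rw [List.flatten_cons], List.Forall₂.cons h1 h3⟩, h4⟩

lemma reals_nil {r : ℕ → Γ} {C : Subgroup Γ} {L : Wd} (h : Reals r C [] L) : L = [] := by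
  obtain ⟨Ls, rfl, h⟩ := h
  cases h
  rfl

lemma svl_pos (r : ℕ → Γ) {q : ℕ} (hq : 1 ≤ q) : svl r q = r q * stk r (q - 1) := by
  obtain ⟨q, rfl⟩ : ∃ q', q = q' + 1 := ⟨q - 1, by omega⟩
  rw [svl, if_neg (by omega), stk, Nat.add_sub_cancel]

lemma ev_real {r : ℕ → Γ} {C : Subgroup Γ} (hC : C ≤ Subgroup.center Γ) {c : ℕ × Bool} {M : Wd}
    (h : Real r C c M) : ev (svl r) M = ev1 r c := by
  rcases h with ⟨h0, rfl⟩ | ⟨h1, M₁, M₂, rfl, -, -, -, -, h2⟩
  · rw [ev_single]
    simp only [ev1, h0, svl, if_true]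
  · rw [ev_append, ev_cons]
    rcases h2 with ⟨hc, h3, h4⟩ | ⟨hc, h3, h4⟩
    · have e1 : ev1 (svl r) c = r c.1 * stk r (c.1 - 1) := by
        rw [ev1, if_pos hc, svl_pos r h1]
      have e2 : ev1 r c = r c.1 := by rw [ev1, if_pos hc]
      have h5 : ev (svl r) M₁ * r c.1 = r c.1 * ev (svl r) M₁ :=
        ((Subgroup.mem_center_iff.1 (hC h3)) (r c.1)).symm
      rw [e1, e2]
      calc ev (svl r) M₁ * (r c.1 * stk r (c.1 - 1) * ev (svl r) M₂) =
          (ev (svl r) M₁ * r c.1) * (stk r (c.1 - 1) * ev (svl r) M₂) := by group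
        _ = r c.1 * (ev (svl r) M₁ * stk r (c.1 - 1) * ev (svl r) M₂) := by rw [h5]; group
        _ = r c.1 := by rw [h4, mul_one]
    · have e1 : ev1 (svl r) c = (stk r (c.1 - 1))⁻¹ * (r c.1)⁻¹ := by
        rw [ev1, if_neg (by rw [hc]; decide), svl_pos r h1, _root_.mul_inv_rev]
      have e2 : ev1 r c = (r c.1)⁻¹ := by rw [ev1, if_neg (by rw [hc]; decide)]
      have h5 : (r c.1)⁻¹ * ev (svl r) M₂ = ev (svl r) M₂ * (r c.1)⁻¹ :=
        (Subgroup.mem_center_iff.1 (hC h3)) ((r c.1)⁻¹)
      rw [e1, e2]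
      calc ev (svl r) M₁ * ((stk r (c.1 - 1))⁻¹ * (r c.1)⁻¹ * ev (svl r) M₂) =
          ev (svl r) M₁ * (stk r (c.1 - 1))⁻¹ * ((r c.1)⁻¹ * ev (svl r) M₂) := by group
        _ = (ev (svl r) M₁ * (stk r (c.1 - 1))⁻¹ * ev (svl r) M₂) * (r c.1)⁻¹ := by
          rw [h5]; group
        _ = (r c.1)⁻¹ := by rw [h4, one_mul]

lemma ev_reals' {r : ℕ → Γ} {C : Subgroup Γ} (hC : C ≤ Subgroup.center Γ) (U L : Wd)
    (h : Reals r C U L) : ev (svl r) L = ev r U := by
  induction U generalizing L with
  | nil => rw [reals_nil h]; rfl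
  | cons c U ih =>
    obtain ⟨M, L', rfl, h1, h2⟩ := reals_cons h
    rw [ev_append, ev_cons, ev_real hC h1, ih L' h2]

lemma real_free {r : ℕ → Γ} {C : Subgroup Γ} {c : ℕ × Bool} {M : Wd} (h : Real r C c M) :
    (∀ p ∈ M, p.1 ≤ c.1) ∧ ax M = al c := by
  rcases h with ⟨h0, rfl⟩ | ⟨h1, M₁, M₂, rfl, h2, h3, h4, h5, -⟩
  · exact ⟨by simp, by simp [ax]⟩
  · refine ⟨?_, ?_⟩
    · intro p hp
      rcases List.mem_append.1 hp with hp | hp
      · exact (h2 p hp).le
      · rcases List.mem_cons.1 hp with rfl | hp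
        · exact le_rfl
        · exact (h3 p hp).le
    · simp only [ax] at h4 h5
      simp only [ax, List.map_append, List.map_cons, List.sum_append, List.sum_cons, h4, h5]
      ring

lemma reals_free {r : ℕ → Γ} {C : Subgroup Γ} (t : ℕ) (U L : Wd) (hU : ∀ p ∈ U, p.1 < t)
    (h : Reals r C U L) : (∀ p ∈ L, p.1 < t) ∧ ax L = ax U := by
  induction U generalizing L with
  | nil => rw [reals_nil h]; exact ⟨by simp, rfl⟩
  | cons c U ih =>
    obtain ⟨M, L', rfl, h1, h2⟩ := reals_cons h
    obtain ⟨h3, h4⟩ := ih L' (fun p hp => hU p (List.mem_cons_of_mem _ hp)) h2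
    obtain ⟨h5, h6⟩ := real_free h1
    refine ⟨?_, ?_⟩
    · intro p hp
      rcases List.mem_append.1 hp with hp | hp
      · exact (h5 p hp).trans_lt (hU c List.mem_cons_self)
      · exact h3 p hp
    · simp only [ax] at h4 h6
      simp only [ax, List.map_append, List.map_cons, List.sum_append, List.sum_cons, h4, h6]

end Versions

section Period

variable (t : ℕ) (ht : 1 ≤ t) (r : ℕ → Hs ι (ZMod 2)) (C : Subgroup (Hs ι (ZMod 2)))
  (hC : ∀ y ∈ C, y.v = 0)

include hC in
lemma center_of : C ≤ Subgroup.center (Hs ι (ZMod 2)) := by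
  intro y hy
  rw [Subgroup.mem_center_iff]
  intro z
  exact (central y z (hC y hy)).symm

include hC ht in
/-- the version of a positive letter `t` -/
lemma state_pos (z : ℤ) (hz : z < 0) (M : Wd) (h : Real r C (t, true) M) :
    GoodL2 t (svl r) (false, z, 0) M ∧
      M.foldl (nxt2 t (svl r)) (false, z, 0) = (true, 0, (r t).v) := by
  rcases h with ⟨h0, -⟩ | ⟨-, M₁, M₂, rfl, h2, h3, h4, h5, h6⟩
  · simp only at h0; omega
  · rcases h6 with ⟨-, h7, h8⟩ | ⟨hc, -⟩
    · have v1 : (ev (svl r) M₁).v = 0 := hC _ h7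
      have v2 : (ev (svl r) M₂).v = (stk r (t - 1)).v := by
        have h9 := congrArg Hs.v h8
        rw [mul_v, mul_v, v1, one_v, zero_add] at h9
        funext w
        have h10 := congrFun h9 w
        simp only [Pi.add_apply, Pi.zero_apply] at h10
        have h11 := two_zero ((stk r (t - 1)).v w)
        linear_combination h10 - h11
      have v3 : (svl r t).v = (r t).v + (stk r (t - 1)).v := by rw [svl_pos r ht, mul_v]
      have e1 := foldl2_free t (svl r) (false, z, 0) M₁ h2
      rw [h4, v1] at e1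
      simp only [add_zero] at e1
      have e2 : nxt2 t (svl r) (false, z, 0) (t, true) = (true, 0, (svl r t).v) := by
        simp [nxt2]
      have e3 := foldl2_free t (svl r) (true, 0, (svl r t).v) M₂ h3
      rw [h5, v2] at e3
      simp only [add_zero] at e3
      refine ⟨?_, ?_⟩
      · rw [goodL2_append, e1, GoodL2, e2]
        exact ⟨goodL2_free t _ _ _ h2,
          ⟨fun _ => ⟨fun _ => ⟨rfl, hz, rfl⟩, fun h => absurd h.symm Bool.false_ne_true⟩,
            goodL2_free t _ _ _ h3⟩⟩
      · rw [List.foldl_append, e1, List.foldl_cons, e2, e3, v3]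
        congr 2
        funext w
        simp only [Pi.add_apply]
        have h11 := two_zero ((stk r (t - 1)).v w)
        linear_combination h11
    · exact absurd hc.symm Bool.false_ne_true

include hC ht in
/-- the version of a negative letter `t` -/
lemma state_neg (z : ℤ) (hz : 0 < z) (M : Wd) (h : Real r C (t, false) M) :
    GoodL2 t (svl r) (true, z, (r t).v) M ∧
      M.foldl (nxt2 t (svl r)) (true, z, (r t).v) = (false, 0, 0) := by
  rcases h with ⟨h0, -⟩ | ⟨-, M₁, M₂, rfl, h2, h3, h4, h5, h6⟩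
  · simp only at h0; omega
  · rcases h6 with ⟨hc, -⟩ | ⟨-, h7, h8⟩
    · exact absurd hc Bool.false_ne_true
    · have v2 : (ev (svl r) M₂).v = 0 := hC _ h7
      have v1 : (ev (svl r) M₁).v = (stk r (t - 1)).v := by
        have h9 := congrArg Hs.v h8
        rw [mul_v, mul_v, inv_v, v2, one_v, add_zero] at h9
        funext w
        have h10 := congrFun h9 w
        simp only [Pi.add_apply, Pi.zero_apply, Pi.neg_apply] at h10
        linear_combination h10
      have v3 : (svl r t).v = (r t).v + (stk r (t - 1)).v := by rw [svl_pos r ht, mul_v]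
      have e1 := foldl2_free t (svl r) (true, z, (r t).v) M₁ h2
      rw [h4, v1] at e1
      simp only [add_zero] at e1
      rw [← v3] at e1
      have e2 : nxt2 t (svl r) (true, z, (svl r t).v) (t, false) = (false, 0, 0) := by
        simp only [nxt2, if_true, Bool.not_true]
        congr 2
        funext w
        exact two_zero _
      have e3 := foldl2_free t (svl r) (false, 0, 0) M₂ h3
      rw [h5, v2] at e3
      simp only [add_zero] at e3
      refine ⟨?_, ?_⟩
      · rw [goodL2_append, e1, GoodL2, e2]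
        exact ⟨goodL2_free t _ _ _ h2,
          ⟨fun _ => ⟨fun h => absurd h Bool.false_ne_true, fun _ => ⟨rfl, hz, rfl⟩⟩,
            goodL2_free t _ _ _ h3⟩⟩
      · rw [List.foldl_append, e1, List.foldl_cons, e2, e3]

include hC ht in
/-- one period -/
lemma state_per (A B : Wd) (hA : ∀ p ∈ A, p.1 < t) (hB : ∀ p ∈ B, p.1 < t) (axA : ax A = 1)
    (axB : ax B = -1) (hAv : (ev r A).v = 0) (hBv : (ev r B).v = 0) (L : Wd)
    (h : Reals r C (per t A B false) L) :
    GoodL2 t (svl r) (false, -1, 0) L ∧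
      L.foldl (nxt2 t (svl r)) (false, -1, 0) = (false, -1, 0) ∧
      (L.map (fun y => if y.1 = t ∧ y.2 = true then 1 else 0)).sum = 1 := by
  have free : ∀ L : Wd, (∀ y ∈ L, y.1 < t) →
      (L.map (fun y => if y.1 = t ∧ y.2 = true then 1 else 0)).sum = 0 := by
    intro L hL
    apply List.sum_eq_zero
    intro y hy
    obtain ⟨z, hz, rfl⟩ := List.mem_map.1 hy
    rw [if_neg (fun h => (hL z hz).ne h.1)]
  have hcen := center_of C hC
  have hper : per t A B false = (t, true) :: (A ++ ((t, false) :: B)) := rfl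
  rw [hper] at h
  obtain ⟨M, L', rfl, h1, h2⟩ := reals_cons h
  obtain ⟨LA, L'', rfl, h3, h4⟩ := reals_append h2
  obtain ⟨N, LB, rfl, h5, h6⟩ := reals_cons h4
  obtain ⟨a1, a2⟩ := reals_free t A LA hA h3
  obtain ⟨b1, b2⟩ := reals_free t B LB hB h6
  have a3 := ev_reals' hcen A LA h3
  have b3 := ev_reals' hcen B LB h6
  obtain ⟨p1, p2⟩ := state_pos t ht r C hC (-1) (by norm_num) M h1
  have eA := foldl2_free t (svl r) (true, 0, (r t).v) LA a1
  rw [a2, axA, a3, hAv] at eA
  simp only [zero_add, add_zero] at eA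
  obtain ⟨n1, n2⟩ := state_neg t ht r C hC 1 (by norm_num) N h5
  have eB := foldl2_free t (svl r) (false, 0, 0) LB b1
  rw [b2, axB, b3, hBv] at eB
  simp only [zero_add, add_zero] at eB
  refine ⟨?_, ?_, ?_⟩
  · rw [goodL2_append, p2, goodL2_append, eA, goodL2_append, n2]
    exact ⟨p1, goodL2_free t _ _ _ a1, n1, goodL2_free t _ _ _ b1⟩
  · rw [List.foldl_append, p2, List.foldl_append, eA, List.foldl_append, n2, eB]
  · have cM : (M.map (fun y => if y.1 = t ∧ y.2 = true then 1 else 0)).sum = 1 := by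
      rcases h1 with ⟨h0, -⟩ | ⟨-, M₁, M₂, rfl, h2, h3, -⟩
      · simp only at h0; omega
      · simp only [List.map_append, List.map_cons, List.sum_append, List.sum_cons]
        rw [free _ h2, free _ h3]
        simp
    have cN : (N.map (fun y => if y.1 = t ∧ y.2 = true then 1 else 0)).sum = 0 := by
      rcases h5 with ⟨h0, -⟩ | ⟨-, M₁, M₂, rfl, h2, h3, -⟩
      · simp only at h0; omega
      · simp only [List.map_append, List.map_cons, List.sum_append, List.sum_cons]
        rw [free _ h2, free _ h3]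
        simp
    simp only [List.map_append, List.sum_append]
    rw [cM, cN, free _ a1, free _ b1]

include hC ht in
/-- `m` periods -/
lemma state_pow (A B : Wd) (hA : ∀ p ∈ A, p.1 < t) (hB : ∀ p ∈ B, p.1 < t) (axA : ax A = 1)
    (axB : ax B = -1) (hAv : (ev r A).v = 0) (hBv : (ev r B).v = 0) (m : ℕ) (L : Wd)
    (h : Reals r C (List.replicate m (per t A B false)).flatten L) :
    GoodL2 t (svl r) (false, -1, 0) L ∧
      L.foldl (nxt2 t (svl r)) (false, -1, 0) = (false, -1, 0) ∧
      (L.map (fun y => if y.1 = t ∧ y.2 = true then 1 else 0)).sum = m := by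
  induction m generalizing L with
  | zero =>
    rw [reals_nil h]
    exact ⟨trivial, rfl, rfl⟩
  | succ m ih =>
    rw [List.replicate_succ, List.flatten_cons] at h
    obtain ⟨L₁, L₂, rfl, h1, h2⟩ := reals_append h
    obtain ⟨a1, a2, a3⟩ := state_per t ht r C hC A B hA hB axA axB hAv hBv L₁ h1
    obtain ⟨b1, b2, b3⟩ := ih L₂ h2
    refine ⟨?_, ?_, ?_⟩
    · rw [goodL2_append, a2]; exact ⟨a1, b1⟩
    · rw [List.foldl_append, a2, b2]
    · simp only [List.map_append, List.sum_append]
      rw [a3, b3]; ring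

end Period

/-- **The lower bound for versions of `(t A t⁻¹ B) ^ m`.** -/
theorem final_lower (r : ℕ → Hs ι (ZMod 2)) (C : Subgroup (Hs ι (ZMod 2)))
    (hC : ∀ y ∈ C, y.v = 0) (q : ℕ) (hq : 1 ≤ q) (A B : Wd) (hA : ∀ p ∈ A, p.1 < q)
    (hB : ∀ p ∈ B, p.1 < q) (axA : ax A = 1) (axB : ax B = -1) (hAv : (ev r A).v = 0)
    (hBv : (ev r B).v = 0) (m : ℕ) (hm : 0 < m) (L : Wd)
    (hL : Reals r C (List.replicate m (per q A B false)).flatten L) (g : ℕ) (hg : Gen L g)
    (hdet : IsUnit (ev r (List.replicate m (per q A B false)).flatten).M.det) :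
    m + 1 + Fintype.card ι ≤ 2 * g := by
  classical
  obtain ⟨hgood, hfold, hcount0⟩ := state_pow q hq r C hC A B hA hB axA axB hAv hBv m L hL
  have hev := ev_reals' (center_of C hC) _ L hL
  rw [← hev] at hdet
  let st : ℕ → Bool × ℤ × (ι → ZMod 2) := fun i => (L.take i).foldl (nxt2 q (svl r)) (false, -1, 0)
  have hst0 : st 0 = (false, -1, 0) := rfl
  have hstn : st L.length = (false, -1, 0) := by
    simp only [st, List.take_length]
    exact hfold
  have hsucc : ∀ i (hi : i < L.length), st (i + 1) = nxt2 q (svl r) (st i) L[i] := fun i hi =>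
    foldl2_take_succ q (svl r) _ L i hi
  have hok : ∀ i (hi : i < L.length), okl2 q (svl r) (st i) L[i] := fun i hi =>
    goodL2_get q (svl r) _ L hgood i hi
  have hst2 : ∀ i, i ≤ L.length → (st i).2.2 = (ev (svl r) (L.take i)).v := by
    intro i
    induction i with
    | zero => intro _; simp [hst0, ev_nil, one_v]
    | succ i ih =>
      intro hi
      rw [hsucc i hi, ev_take_succ _ L i hi, mul_v, ev1_v, ← ih (by omega), nxt2]
      split_ifs <;> rfl
  have hcount : (univ.filter (fun i : Fin L.length => (L[i]).1 = q ∧ (L[i]).2 = true)).card =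
      m := by
    rw [Finset.card_filter]
    have h7 := Fin.sum_univ_fun_getElem L (fun x => if x.1 = q ∧ x.2 = true then 1 else 0)
    exact h7.trans hcount0
  have hne : ∃ i : Fin L.length, (L[i]).1 = q := by
    have : (univ.filter (fun i : Fin L.length => (L[i]).1 = q ∧ (L[i]).2 = true)).Nonempty := by
      rw [← Finset.card_pos, hcount]; exact hm
    obtain ⟨i, hi⟩ := this
    exact ⟨i, (Finset.mem_filter.1 hi).2.1⟩
  have main := glue_bound2 L g hg q (fun i => (st i).1) (fun i => (st i).2.1) (svl r)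
    (by rw [hstn, hst0]) (by rw [hstn, hst0])
    (by
      have h6 := hst2 L.length le_rfl
      rw [hstn, List.take_length] at h6
      exact h6.symm)
    hne
    (fun i hi hl => by
      refine ⟨?_, ?_⟩
      · simp only [hsucc i hi, nxt2, if_neg hl]
      · simp only [hsucc i hi, nxt2, if_neg hl])
    (fun i hi hl hb => by
      have h6 := (hok i hi hl).1 hb
      refine ⟨h6.1, ?_, h6.2.1, ?_, ?_⟩
      · simp only [hsucc i hi, nxt2, if_pos hl, h6.1]
        rfl
      · simp only [hsucc i hi, nxt2, if_pos hl]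
      · rw [← hst2 i hi.le]; exact h6.2.2)
    (fun i hi hl hb => by
      have h6 := (hok i hi hl).2 hb
      refine ⟨h6.1, ?_, h6.2.1, ?_, ?_⟩
      · simp only [hsucc i hi, nxt2, if_pos hl, h6.1]
        rfl
      · simp only [hsucc i hi, nxt2, if_pos hl]
      · rw [← hst2 i hi.le]; exact h6.2.2)
    hdet
  rw [hcount] at main
  omega

end H3CD
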