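import Pool.Agent.CD7.TDefs

/-!
MP_cd7e06_al, row GENU: pairings of words which are not reduced (helper32).
-/

set_option autoImplicit false

namespace H55CD

open H74CL

theorem gen_insert {α : Type*} (L₁ L₂ : List (α × Bool)) (x : α) (b : Bool) (g : ℕ)
    (h : Gen (L₁ ++ L₂) g) : Gen (L₁ ++ (x, b) :: (x, !b) :: L₂) g := by
  classical
  obtain ⟨π, c, hG, hg⟩ := h
  set k := L₁.length with hk
  set n := (L₁ ++ L₂).length with hn
  have hkn : k ≤ n := by simp [hk, hn]
  have hlen : (L₁ ++ (x, b) :: (x, !b) :: L₂).length = n + 2 := by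
    simp only [hn, List.length_append, List.length_cons]; omega
  set up : ℕ → ℕ := fun i => if i < k then i else i + 2 with hup
  obtain ⟨F, hF⟩ : ∃ F, F ∉ cols (L₁ ++ L₂) c := Infinite.exists_notMem_finset _
  set π' : ℕ → ℕ := fun i => if i < k then up (π i) else if i = k then k + 1 else
    if i = k + 1 then k else up (π (i - 2)) with hπ'
  set c' : ℕ → ℕ := fun i => if i ≤ k then c i else if i = k + 1 then F else c (i - 2) with hc'
  -- lists
  have hL : ∀ i, (L₁ ++ (x, b) :: (x, !b) :: L₂)[i]? = if i < k then L₁[i]? else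
      if i = k then some (x, b) else if i = k + 1 then some (x, !b) else L₂[i - k - 2]? := by
    intro i
    rw [List.getElem?_append]
    split_ifs with h1 h2 h3
    · rfl
    · subst h2; simp [hk]
    · subst h3; simp [hk]
    · obtain ⟨j, rfl⟩ : ∃ j, i = k + 2 + j := ⟨i - (k + 2), by omega⟩
      have e1 : k + 2 + j - L₁.length = j + 1 + 1 := by omega
      have e2 : k + 2 + j - k - 2 = j := by omega
      rw [e2, e1]
      simp
  have hL0 : ∀ i, (L₁ ++ L₂)[i]? = if i < k then L₁[i]? else L₂[i - k]? := by
    intro i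
    rw [List.getElem?_append]
  have hLup : ∀ j, (L₁ ++ (x, b) :: (x, !b) :: L₂)[up j]? = (L₁ ++ L₂)[j]? := by
    intro j
    rw [hL, hL0]
    by_cases hj : j < k
    · simp only [hup, if_pos hj]
    · simp only [hup, if_neg hj]
      rw [if_neg (by omega), if_neg (by omega), if_neg (by omega)]
      congr 1; omega
  have hc'up : ∀ j, c' (up j + 1) = c (j + 1) := by
    intro j
    by_cases hj : j < k
    · simp only [hup, hc', if_pos hj]
      rw [if_pos (by omega)]
    · simp only [hup, hc', if_neg hj]
      rw [if_neg (by omega), if_neg (by omega)]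
      congr 1
  have hupn : ∀ j, j < n → up j < n + 2 := by
    intro j hj
    simp only [hup]; split_ifs <;> omega
  have hπup : ∀ j, π' (up j) = up (π j) := by
    intro j
    by_cases hj : j < k
    · simp only [hup, hπ', if_pos hj]
    · have e : up j = j + 2 := by simp only [hup, if_neg hj]
      rw [e]
      simp only [hπ']
      rw [if_neg (by omega), if_neg (by omega), if_neg (by omega), Nat.add_sub_cancel]
  have hc'0 : ∀ j, c' (up j) = c j := by
    intro j
    by_cases hj : j < k
    · simp only [hup, hc', if_pos hj]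
      rw [if_pos (by omega)]
    · simp only [hup, hc', if_neg hj]
      rw [if_neg (by omega)]
      rw [if_neg (by omega)]
      congr 1
  have hcase : ∀ i, i < n + 2 → i = k ∨ i = k + 1 ∨ ∃ j, j < n ∧ i = up j := by
    intro i hi
    by_cases h1 : i < k
    · exact Or.inr (Or.inr ⟨i, by omega, by simp only [hup, if_pos h1]⟩)
    · by_cases h2 : i = k
      · exact Or.inl h2
      · by_cases h3 : i = k + 1
        · exact Or.inr (Or.inl h3)
        · refine Or.inr (Or.inr ⟨i - 2, by omega, ?_⟩)
          simp only [hup]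
          rw [if_neg (by omega)]; omega
  have hπk : π' k = k + 1 := by
    simp only [hπ']; rw [if_neg (by omega)]; simp
  have hπk1 : π' (k + 1) = k := by
    simp only [hπ']; rw [if_neg (by omega), if_neg (by omega)]; simp
  refine ⟨π', c', ⟨?_, ?_, ?_, ?_, ?_⟩, ?_⟩
  · intro i hi
    rw [hlen] at hi ⊢
    rcases hcase i hi with rfl | rfl | ⟨j, hj, rfl⟩
    · rw [hπk]; omega
    · rw [hπk1]; omega
    · rw [hπup]; exact hupn _ (hG.lt j hj)
  · intro i hi
    rw [hlen] at hi
    rcases hcase i hi with rfl | rfl | ⟨j, hj, rfl⟩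
    · rw [hπk, hπk1]
    · rw [hπk1, hπk]
    · rw [hπup, hπup, hG.inv j hj]
  · intro i hi
    rw [hlen] at hi
    rcases hcase i hi with rfl | rfl | ⟨j, hj, rfl⟩
    · rw [hπk, hL, hL, if_neg (by omega), if_neg (by omega), if_pos rfl, if_neg (by omega),
        if_pos rfl]
      simp [il]
    · rw [hπk1, hL, hL, if_neg (by omega), if_pos rfl, if_neg (by omega), if_neg (by omega),
        if_pos rfl]
      simp [il]
    · rw [hπup, hLup, hLup]
      exact hG.lab j hj
  · rw [hlen]
    have e1 : c' 0 = c 0 := by simp only [hc']; rw [if_pos (by omega)]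
    have e2 : c' (n + 2) = c n := by
      simp only [hc']; rw [if_neg (by omega), if_neg (by omega), Nat.add_sub_cancel]
    rw [e1, e2]
    exact hG.cyc
  · intro i hi
    rw [hlen] at hi
    rcases hcase i hi with rfl | rfl | ⟨j, hj, rfl⟩
    · rw [hπk]
      have e1 : c' k = c k := by simp only [hc']; rw [if_pos le_rfl]
      have e2 : c' (k + 1 + 1) = c k := by
        simp only [hc']; rw [if_neg (by omega), if_neg (by omega)]; congr 1
      rw [e1, e2]
    · rw [hπk1]
    · rw [hπup, hc'0, hc'up]
      exact hG.col j hj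
  · have hsub : insert F (cols (L₁ ++ L₂) c) ⊆ cols (L₁ ++ (x, b) :: (x, !b) :: L₂) c' := by
      intro v hv
      rw [cols, Finset.mem_image]
      rcases Finset.mem_insert.1 hv with rfl | hv
      · refine ⟨k + 1, Finset.mem_range.2 (by omega), ?_⟩
        simp only [hc']; rw [if_neg (by omega)]; simp
      · rw [cols, Finset.mem_image] at hv
        obtain ⟨j, hj, rfl⟩ := hv
        have hj' := Finset.mem_range.1 hj
        refine ⟨up j, Finset.mem_range.2 ?_, hc'0 j⟩
        rw [hlen]
        simp only [hup]
        split_ifs <;> omega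
    have h1 := Finset.card_le_card hsub
    rw [Finset.card_insert_of_notMem hF] at h1
    rw [hlen]
    omega

lemma gen_red' {α : Type*} {L L' : List (α × Bool)} (h : FreeGroup.Red L L') (g : ℕ)
    (hL : Gen L' g) : Gen L g := by
  induction h using Relation.ReflTransGen.head_induction_on with
  | refl => exact hL
  | head hs _ ih =>
    cases hs with
    | not => exact gen_insert _ _ _ _ _ ih

theorem gen_of_PC' {α : Type*} {g : ℕ} {z : FreeGroup α} (h : PC g z) (L : List (α × Bool))
    (hz : FreeGroup.mk L = z) : Gen L g := by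
  classical
  have h1 : Gen (FreeGroup.reduce L) g := gen_of_PC h (FreeGroup.reduce L)
    (FreeGroup.isReduced_iff_reduce_eq.2 FreeGroup.reduce.idem)
    (by rw [← hz]; exact FreeGroup.reduce.self)
  exact gen_red' FreeGroup.reduce.red g h1

end H55CD

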