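import Pool.Agent.CD7.Blocks
import Pool.Agent.Helper55.CD.Good
import Pool.Agent.Helper96.CD.Trace

/-!
MP_cd7e06_al, odd exponents, row STEP: one level of the transfer.
-/

set_option autoImplicit false

namespace H49CD

open H74CL H55CD

/-! ### `a`-exponents and numbers of letters -/

lemma ax_nil : ax [] = 0 := rfl

lemma ax_cons (p : ℕ × Bool) (L : Wd) : ax (p :: L) = al p + ax L := by simp [ax]

lemma ax_append (L₁ L₂ : Wd) : ax (L₁ ++ L₂) = ax L₁ + ax L₂ := by simp [ax]

lemma al_not (x : ℕ) (b : Bool) : al (x, !b) = - al (x, b) := by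
  unfold al; cases b <;> simp <;> split_ifs <;> simp

lemma al_pos (x : ℕ) (b : Bool) (hx : 1 ≤ x) : al (x, b) = 0 := by
  unfold al; simp; omega

lemma ax_invRev (L : Wd) : ax (FreeGroup.invRev L) = - ax L := by
  induction L with
  | nil => simp [ax_nil]
  | cons p L ih =>
    have h : FreeGroup.invRev (p :: L) = FreeGroup.invRev L ++ [(p.1, !p.2)] := by
      simp [FreeGroup.invRev]
    rw [h, ax_append, ih, ax_cons, ax_cons, al_not, ax_nil]
    ring

lemma tr_cons_eq (q : ℕ) (h : ℤ) (p : ℕ × Bool) (L : Wd) (hp : p.1 = q) :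
    tr q h (p :: L) = (p.2, h) :: tr q (h + al p) L := by simp [tr, hp]

lemma tr_cons_ne (q : ℕ) (h : ℤ) (p : ℕ × Bool) (L : Wd) (hp : p.1 ≠ q) :
    tr q h (p :: L) = tr q (h + al p) L := by simp [tr, hp]

lemma tr_len (q : ℕ) (L : Wd) (h h' : ℤ) : (tr q h L).length = (tr q h' L).length := by
  induction L generalizing h h' with
  | nil => rfl
  | cons p L ih =>
    by_cases hp : p.1 = q
    · rw [tr_cons_eq q h p L hp, tr_cons_eq q h' p L hp]; simp [ih (h + al p) (h' + al p)]
    · rw [tr_cons_ne q h p L hp, tr_cons_ne q h' p L hp]; exact ih _ _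

lemma len_tr (q : ℕ) (L : Wd) (h : ℤ) : (tr q h L).length = nT L q := by
  rw [tr_len q L h 0, tr_spec]; simp

lemma nT_append (L₁ L₂ : Wd) (q : ℕ) : nT (L₁ ++ L₂) q = nT L₁ q + nT L₂ q := by
  rw [← len_tr q (L₁ ++ L₂) 0, tr_append, List.length_append, len_tr, len_tr]

lemma nT_nil (q : ℕ) : nT [] q = 0 := by rw [← len_tr q [] 0]; rfl

lemma nT_cons_eq (p : ℕ × Bool) (L : Wd) (q : ℕ) (hp : p.1 = q) :
    nT (p :: L) q = nT L q + 1 := by
  rw [← len_tr q (p :: L) 0, tr_cons_eq _ _ _ _ hp, List.length_cons, len_tr]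

lemma nT_cons_ne (p : ℕ × Bool) (L : Wd) (q : ℕ) (hp : p.1 ≠ q) :
    nT (p :: L) q = nT L q := by
  rw [← len_tr q (p :: L) 0, tr_cons_ne _ _ _ _ hp, len_tr]

lemma tr_low (q : ℕ) (L : Wd) (h : ℤ) (hL : ∀ p ∈ L, p.1 < q) : tr q h L = [] := by
  induction L generalizing h with
  | nil => rfl
  | cons p L ih =>
    rw [tr_cons_ne q h p L (by have := hL p (by simp); omega)]
    exact ih _ (fun p' hp' => hL p' (by simp [hp']))

lemma nT_low (q : ℕ) (L : Wd) (hL : ∀ p ∈ L, p.1 < q) : nT L q = 0 := by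
  rw [← len_tr q L 0, tr_low q L 0 hL]; rfl

lemma trget (L : Wd) (q t : ℕ) (h : t < nT L q) :
    (tr q 0 L)[t]? = some (sg L q t, hh L q t) := by
  rw [tr_spec]; simp [h]

lemma low_invRev (q : ℕ) (L : Wd) (hL : ∀ p ∈ L, p.1 < q) :
    ∀ p ∈ FreeGroup.invRev L, p.1 < q := by
  intro p hp
  simp only [FreeGroup.invRev, List.mem_reverse, List.mem_map] at hp
  obtain ⟨x, hx, rfl⟩ := hp
  exact hL x hx

/-! ### the period -/

lemma per_inv (q : ℕ) (A B : Wd) (ε : Bool) :
    FreeGroup.invRev (per q A B ε) =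
      FreeGroup.invRev B ++ (q, !ε) :: (FreeGroup.invRev A ++ [(q, false)]) := by
  simp [per, FreeGroup.invRev]

lemma ax_per (q : ℕ) (hq : 1 ≤ q) (A B : Wd) (ε : Bool) (axA : ax A = 1) (axB : ax B = -1) :
    ax (per q A B ε) = 0 := by
  simp only [per, List.cons_append, ax_cons, ax_append, axA, axB, al_pos q _ hq]; ring

lemma tr_per (q : ℕ) (hq : 1 ≤ q) (A B : Wd) (ε : Bool) (hA : ∀ p ∈ A, p.1 < q)
    (hB : ∀ p ∈ B, p.1 < q) (axA : ax A = 1) (x : ℤ) :
    tr q x (per q A B ε) = [(true, x), (ε, x + 1)] := by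
  simp only [per, List.cons_append]
  rw [tr_cons_eq q _ (q, true) _ rfl, tr_append, tr_low q A _ hA,
    tr_cons_eq q _ (q, ε) _ rfl, tr_low q B _ hB]
  simp [al_pos q _ hq, axA]

lemma tr_per_inv (q : ℕ) (hq : 1 ≤ q) (A B : Wd) (ε : Bool) (hA : ∀ p ∈ A, p.1 < q)
    (hB : ∀ p ∈ B, p.1 < q) (axA : ax A = 1) (axB : ax B = -1) (x : ℤ) :
    tr q x (FreeGroup.invRev (per q A B ε)) = [(!ε, x + 1), (false, x)] := by
  rw [per_inv, tr_append, tr_low q _ _ (low_invRev q B hB), tr_cons_eq q _ (q, !ε) _ rfl,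
    tr_append, tr_low q _ _ (low_invRev q A hA), tr_cons_eq q _ (q, false) _ rfl]
  simp [al_pos q _ hq, ax_invRev, axA, axB, tr]

/-- the trace of a power of a period -/
lemma tr_pow (q : ℕ) (P : Wd) (s0 s1 : Bool) (d0 d1 : ℤ) (hP : ax P = 0)
    (h : ∀ x, tr q x P = [(s0, x + d0), (s1, x + d1)]) (n : ℕ) (x : ℤ) :
    (tr q x (List.replicate n P).flatten).length = 2 * n ∧
    ∀ k < n, (tr q x (List.replicate n P).flatten)[2 * k]? = some (s0, x + d0) ∧
      (tr q x (List.replicate n P).flatten)[2 * k + 1]? = some (s1, x + d1) := by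
  induction n with
  | zero => simp [tr]
  | succ n ih =>
    have e : tr q x (List.replicate (n + 1) P).flatten =
        (s0, x + d0) :: (s1, x + d1) :: tr q x (List.replicate n P).flatten := by
      rw [List.replicate_succ, List.flatten_cons, tr_append, h, hP]; simp
    rw [e]
    refine ⟨by simp [ih.1]; ring, ?_⟩
    intro k hk
    rcases k with _ | k
    · simp
    · have := ih.2 k (by omega)
      constructor
      · rw [show 2 * (k + 1) = 2 * k + 1 + 1 by ring, List.getElem?_cons_succ,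
          List.getElem?_cons_succ]; exact this.1
      · rw [show 2 * (k + 1) + 1 = 2 * k + 1 + 1 + 1 by ring, List.getElem?_cons_succ,
          List.getElem?_cons_succ]; exact this.2

/-! ### offsets -/

section off

variable (q n : ℕ) (v : Wd)

/-- the number of letters of index `q` before the image of position `j` -/
def off (U : Wd) (j : ℕ) : ℕ := nT ((U.take j).flatMap (sub q n v)) q

lemma off_zero (U : Wd) : off q n v U 0 = 0 := by simp [off, nT_nil]

lemma off_succ (U : Wd) (j : ℕ) (hj : j < U.length) :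
    off q n v U (j + 1) = off q n v U j + nT (sub q n v U[j]) q := by
  unfold off
  rw [List.take_succ_eq_append_getElem hj, List.flatMap_append, nT_append]
  simp

lemma off_cons (p : ℕ × Bool) (U : Wd) (j : ℕ) :
    off q n v (p :: U) (j + 1) = nT (sub q n v p) q + off q n v U j := by
  unfold off
  rw [List.take_succ_cons, List.flatMap_cons, nT_append]

lemma off_len (U : Wd) : off q n v U U.length = nT (U.flatMap (sub q n v)) q := by
  simp [off]

lemma off_mono (U : Wd) (i j : ℕ) (hij : i ≤ j) (hj : j ≤ U.length) :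
    off q n v U i ≤ off q n v U j := by
  induction j, hij using Nat.le_induction with
  | base => exact le_refl _
  | succ j hij ih =>
    have := ih (by omega)
    rw [off_succ q n v U j (by omega)]; omega

end off

/-! ### values and versions -/

section value

variable {Γ : Type*} [Group Γ]

lemma ev_nil (r : ℕ → Γ) : ev r [] = 1 := rfl

lemma ev_cons (r : ℕ → Γ) (p : ℕ × Bool) (L : Wd) : ev r (p :: L) = ev1 r p * ev r L := by
  simp [ev]

lemma ev_append (r : ℕ → Γ) (L₁ L₂ : Wd) : ev r (L₁ ++ L₂) = ev r L₁ * ev r L₂ := by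
  simp [ev]

lemma ev1_not (r : ℕ → Γ) (x : ℕ) (b : Bool) : ev1 r (x, !b) = (ev1 r (x, b))⁻¹ := by
  cases b <;> simp [ev1]

lemma ev_invRev (r : ℕ → Γ) (L : Wd) : ev r (FreeGroup.invRev L) = (ev r L)⁻¹ := by
  induction L with
  | nil => simp [ev_nil]
  | cons p L ih =>
    have h : FreeGroup.invRev (p :: L) = FreeGroup.invRev L ++ [(p.1, !p.2)] := by
      simp [FreeGroup.invRev]
    rw [h, ev_append, ih, ev_cons, ev_cons, ev1_not, ev_nil]
    group

lemma ev_rep (r : ℕ → Γ) (P : Wd) (n : ℕ) : ev r (List.replicate n P).flatten = ev r P ^ n := by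
  induction n with
  | zero => simp [ev_nil]
  | succ n ih => rw [List.replicate_succ, List.flatten_cons, ev_append, ih, pow_succ']

lemma ax_rep (P : Wd) (h : ax P = 0) (n : ℕ) : ax (List.replicate n P).flatten = 0 := by
  induction n with
  | zero => simp [ax_nil]
  | succ n ih => rw [List.replicate_succ, List.flatten_cons, ax_append, ih, h]; rfl

lemma stk_pos (r : ℕ → Γ) (q : ℕ) (hq : 1 ≤ q) : stk r q = r q * stk r (q - 1) := by
  obtain ⟨q, rfl⟩ : ∃ q', q = q' + 1 := ⟨q - 1, by omega⟩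
  rfl

lemma reals_nil (r : ℕ → Γ) (C : Subgroup Γ) (L : Wd) : Reals r C [] L ↔ L = [] := by
  constructor
  · rintro ⟨Ls, rfl, h⟩
    cases h; rfl
  · rintro rfl
    exact ⟨[], rfl, List.Forall₂.nil⟩

lemma reals_cons (r : ℕ → Γ) (C : Subgroup Γ) (p : ℕ × Bool) (Y L : Wd) :
    Reals r C (p :: Y) L ↔ ∃ M L₂, L = M ++ L₂ ∧ Real r C p M ∧ Reals r C Y L₂ := by
  constructor
  · rintro ⟨Ls, rfl, h⟩
    obtain ⟨M, Ls', h1, h2, rfl⟩ := List.forall₂_cons_left_iff.1 h
    exact ⟨M, Ls'.flatten, by simp, h1, Ls', rfl, h2⟩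
  · rintro ⟨M, L₂, rfl, h1, Ls', rfl, h2⟩
    exact ⟨M :: Ls', by simp, List.Forall₂.cons h1 h2⟩

lemma reals_append (r : ℕ → Γ) (C : Subgroup Γ) (X Y L : Wd) :
    Reals r C (X ++ Y) L ↔ ∃ L₁ L₂, L = L₁ ++ L₂ ∧ Reals r C X L₁ ∧ Reals r C Y L₂ := by
  induction X generalizing L with
  | nil =>
    constructor
    · intro h; exact ⟨[], L, rfl, (reals_nil r C []).2 rfl, h⟩
    · rintro ⟨L₁, L₂, rfl, h1, h2⟩
      rw [(reals_nil r C L₁).1 h1]; exact h2
  | cons p X ih =>
    rw [List.cons_append, reals_cons]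
    constructor
    · rintro ⟨M, L₂, rfl, h1, h2⟩
      obtain ⟨L₃, L₄, rfl, h3, h4⟩ := (ih L₂).1 h2
      exact ⟨M ++ L₃, L₄, by simp, (reals_cons r C p X _).2 ⟨M, L₃, rfl, h1, h3⟩, h4⟩
    · rintro ⟨L₁, L₂, rfl, h1, h2⟩
      obtain ⟨M, L₃, rfl, h3, h4⟩ := (reals_cons r C p X _).1 h1
      exact ⟨M, L₃ ++ L₂, by simp, h3, (ih _).2 ⟨L₃, L₂, rfl, h4, h2⟩⟩

lemma reals_one (r : ℕ → Γ) (C : Subgroup Γ) (p : ℕ × Bool) (L : Wd) :
    Reals r C [p] L ↔ Real r C p L := by
  rw [reals_cons]
  constructor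
  · rintro ⟨M, L₂, rfl, h1, h2⟩
    rw [(reals_nil r C L₂).1 h2, List.append_nil]; exact h1
  · intro h
    exact ⟨L, [], by simp, h, (reals_nil r C []).2 rfl⟩

lemma real_le (r : ℕ → Γ) (C : Subgroup Γ) (c : ℕ × Bool) (M : Wd) (h : Real r C c M) :
    ∀ p ∈ M, p.1 ≤ c.1 := by
  rcases h with ⟨_, rfl⟩ | ⟨_, M₁, M₂, rfl, h1, h2, _⟩
  · intro p hp
    simp only [List.mem_singleton] at hp
    rw [hp]
  · intro p hp
    simp only [List.mem_append, List.mem_cons] at hp
    rcases hp with hp | hp | hp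
    · exact (h1 p hp).le
    · rw [hp]
    · exact (h2 p hp).le

lemma reals_le (r : ℕ → Γ) (C : Subgroup Γ) (q : ℕ) (U L : Wd) (h : Reals r C U L)
    (hU : ∀ p ∈ U, p.1 ≤ q) : ∀ p ∈ L, p.1 ≤ q := by
  induction U generalizing L with
  | nil => rw [(reals_nil r C L).1 h]; simp
  | cons c U ih =>
    obtain ⟨M, L₂, rfl, h1, h2⟩ := (reals_cons r C c U L).1 h
    intro p hp
    rcases List.mem_append.1 hp with hp | hp
    · exact (real_le r C c M h1 p hp).trans (hU c (by simp))
    · exact ih L₂ h2 (fun p hp => hU p (by simp [hp])) p hp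

lemma reals_nT (r : ℕ → Γ) (C : Subgroup Γ) (q : ℕ) (U L : Wd) (h : Reals r C U L)
    (hU : ∀ p ∈ U, p.1 ≤ q) (hq : 1 ≤ q) : nT L q = nT U q := by
  rw [← len_tr q L 0, (tr_reals r C q U L h hU hq 0).1, len_tr]

/-! ### raising -/

lemma rs_cons_eq (q : ℕ) (Z : ℕ → Prop) [DecidablePred Z] (t : ℕ) (p : ℕ × Bool) (L : Wd)
    (hp : p.1 = q) :
    rs q Z t (p :: L) = (if Z t then (q + 1, p.2) else p) :: rs q Z (t + 1) L := by
  simp [rs, hp]

lemma rs_cons_ne (q : ℕ) (Z : ℕ → Prop) [DecidablePred Z] (t : ℕ) (p : ℕ × Bool) (L : Wd)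
    (hp : p.1 ≠ q) : rs q Z t (p :: L) = p :: rs q Z t L := by
  simp [rs, hp]

lemma rs_id (q : ℕ) (Z : ℕ → Prop) [DecidablePred Z] (L : Wd) (t : ℕ)
    (h : ∀ i < nT L q, ¬ Z (t + i)) : rs q Z t L = L := by
  induction L generalizing t with
  | nil => rfl
  | cons p L ih =>
    by_cases hp : p.1 = q
    · rw [nT_cons_eq p L q hp] at h
      rw [rs_cons_eq q Z t p L hp, if_neg (by simpa using h 0 (by omega)), ih]
      intro i hi
      have := h (i + 1) (by omega)
      rwa [show t + (i + 1) = t + 1 + i by ring] at this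
    · rw [nT_cons_ne p L q hp] at h
      rw [rs_cons_ne q Z t p L hp, ih t h]

lemma rs_mid (q : ℕ) (Z : ℕ → Prop) [DecidablePred Z] (M₁ M₂ : Wd) (s : Bool) (t : ℕ)
    (h1 : ∀ p ∈ M₁, p.1 < q) (h2 : ∀ p ∈ M₂, p.1 < q) (hZ : Z t) :
    rs q Z t (M₁ ++ (q, s) :: M₂) = M₁ ++ (q + 1, s) :: M₂ := by
  have e1 := nT_low q M₁ h1
  have e2 := nT_low q M₂ h2
  rw [rs_append, rs_id q Z M₁ t (by rw [e1]; intro i hi; omega), e1, rs_cons_eq q Z _ (q, s) _ rfl,
    add_zero, if_pos hZ, rs_id q Z M₂ _ (by rw [e2]; intro i hi; omega)]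

/-- a positive block -/
theorem block_pos (r : ℕ → Γ) (C : Subgroup Γ) (hC : C ≤ Subgroup.center Γ) (q : ℕ)
    (hq : 1 ≤ q) (A B : Wd) (ε : Bool) (hA : ∀ p ∈ A, p.1 < q) (hB : ∀ p ∈ B, p.1 < q)
    (axA : ax A = 1) (axB : ax B = -1) (n κ : ℕ) (hκ : κ < n) (hv : ev r (per q A B ε) ∈ C)
    (hvn : ev r (per q A B ε) ^ n = 1) (Z : ℕ → Prop) [DecidablePred Z] (t : ℕ)
    (hZ : ∀ i < 2 * n, (Z (t + i) ↔ i = 2 * κ)) (L : Wd)
    (hL : Reals r C (List.replicate n (per q A B ε)).flatten L) :
    Real r C (q + 1, true) (rs q Z t L) := by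
  obtain ⟨m, rfl⟩ : ∃ m, n = κ + (m + 1) := ⟨n - κ - 1, by omega⟩
  have hlow : ∀ k, ∀ p ∈ (List.replicate k (per q A B ε)).flatten, p.1 ≤ q := by
    intro k p hp
    rw [List.mem_flatten] at hp
    obtain ⟨l, hl, hp⟩ := hp
    rw [(List.mem_replicate.1 hl).2] at hp
    simp only [per, List.cons_append, List.mem_cons, List.mem_append] at hp
    rcases hp with hp | hp | hp | hp
    · rw [hp]
    · exact (hA p hp).le
    · rw [hp]
    · exact (hB p hp).le
  have hcnt : ∀ k, nT (List.replicate k (per q A B ε)).flatten q = 2 * k := by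
    intro k
    rw [← len_tr q _ 0]
    exact (tr_pow q (per q A B ε) true ε 0 1 (ax_per q hq A B ε axA axB)
      (fun x => by rw [tr_per q hq A B ε hA hB axA]; simp) k 0).1
  have hsplit : (List.replicate (κ + (m + 1)) (per q A B ε)).flatten =
      (List.replicate κ (per q A B ε)).flatten ++ (q, true) ::
        (A ++ (q, ε) :: B ++ (List.replicate m (per q A B ε)).flatten) := by
    rw [List.replicate_add, List.flatten_append, List.replicate_succ, List.flatten_cons]
    simp [per]
  set F := (List.replicate κ (per q A B ε)).flatten with hF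
  set G := (A ++ (q, ε) :: B ++ (List.replicate m (per q A B ε)).flatten) with hGdef
  have hn1 := hcnt (κ + (m + 1))
  rw [hsplit] at hL hn1
  have hlow1 := hlow (κ + (m + 1))
  rw [hsplit] at hlow1
  obtain ⟨P, L₂, rfl, hP, hL₂⟩ := (reals_append r C _ _ _).1 hL
  obtain ⟨M, S, rfl, hM, hS⟩ := (reals_cons r C _ _ _).1 hL₂
  have nP : nT P q = 2 * κ := by
    rw [reals_nT r C q F P hP (hlow κ) hq]; exact hcnt κ
  have lG : ∀ p ∈ G, p.1 ≤ q := fun p hp => hlow1 p (by simp [hp])
  have nS : nT S q = 2 * m + 1 := by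
    rw [reals_nT r C q G S hS lG hq]
    have e3 : nT (F ++ (q, true) :: G) q = nT F q + (nT G q + 1) := by
      rw [nT_append F, nT_cons_eq (q, true) G q rfl]
    have e4 : nT F q = 2 * κ := hcnt κ
    omega
  rcases hM with ⟨h0, _⟩ | ⟨_, M₁, M₂, rfl, hM1, hM2, ax1, ax2, hs⟩
  · exfalso; simp at h0; omega
  rcases hs with ⟨_, hc, hval⟩ | ⟨h0, _⟩
  swap
  · simp at h0
  simp only at hM1 hM2 hval
  have nM : nT (M₁ ++ (q, true) :: M₂) q = 1 := by
    rw [nT_append, nT_cons_eq _ _ _ rfl, nT_low q M₁ hM1, nT_low q M₂ hM2]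
  have eP : rs q Z t P = P := by
    apply rs_id
    rw [nP]
    intro i hi h
    have := (hZ i (by omega)).1 h
    omega
  have eM : rs q Z (t + 2 * κ) (M₁ ++ (q, true) :: M₂) = M₁ ++ (q + 1, true) :: M₂ :=
    rs_mid q Z M₁ M₂ true _ hM1 hM2 ((hZ (2 * κ) (by omega)).2 rfl)
  have eS : rs q Z (t + 2 * κ + 1) S = S := by
    apply rs_id
    rw [nS]
    intro i hi h
    rw [show t + 2 * κ + 1 + i = t + (2 * κ + 1 + i) by ring] at h
    have := (hZ _ (by omega)).1 h
    omega
  have eL : rs q Z t (P ++ (M₁ ++ (q, true) :: M₂ ++ S)) =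
      (P ++ M₁) ++ (q + 1, true) :: (M₂ ++ S) := by
    rw [rs_append, eP, nP, rs_append, eM, nM, eS]; simp
  rw [eL]
  have lP : ∀ p ∈ P, p.1 < q + 1 := fun p hp =>
    Nat.lt_succ_of_le (reals_le r C q F P hP (hlow κ) p hp)
  have lS : ∀ p ∈ S, p.1 < q + 1 := fun p hp =>
    Nat.lt_succ_of_le (reals_le r C q G S hS lG p hp)
  have axP : ax P = 0 := by
    rw [(tr_reals r C q F P hP (hlow κ) hq 0).2]
    exact ax_rep _ (ax_per q hq A B ε axA axB) κ
  have axS : ax S = 0 := by
    rw [(tr_reals r C q G S hS lG hq 0).2]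
    rw [hGdef, ax_append, ax_append, ax_cons, ax_rep _ (ax_per q hq A B ε axA axB), axA, axB,
      al_pos q _ hq]
    ring
  have evP : ev (svl r) P = ev r (per q A B ε) ^ κ := by
    rw [ev_reals r C hC F P hP]; exact ev_rep r _ κ
  have evS : ev (svl r) S = ev r (A ++ (q, ε) :: B) * ev r (per q A B ε) ^ m := by
    rw [ev_reals r C hC G S hS, hGdef, ev_append, ev_rep]
  have hper : ev r (per q A B ε) = r q * ev r (A ++ (q, ε) :: B) := by
    simp only [per, List.cons_append]
    rw [ev_cons]; simp [ev1]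
  refine Or.inr ⟨by simp, P ++ M₁, M₂ ++ S, rfl, ?_, ?_, ?_, ?_, Or.inl ⟨rfl, ?_, ?_⟩⟩
  · intro p hp
    rcases List.mem_append.1 hp with hp | hp
    · exact lP p hp
    · exact (hM1 p hp).trans (Nat.lt_succ_self q)
  · intro p hp
    rcases List.mem_append.1 hp with hp | hp
    · exact (hM2 p hp).trans (Nat.lt_succ_self q)
    · exact lS p hp
  · rw [ax_append, axP, ax1]; rfl
  · rw [ax_append, axS, ax2]; rfl
  · rw [ev_append, evP]
    exact C.mul_mem (C.pow_mem hv κ) hc
  · simp only [Nat.add_sub_cancel]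
    rw [ev_append, ev_append, evP, evS, stk_pos r q hq]
    set c := ev (svl r) M₁
    set m₂ := ev (svl r) M₂
    set w := ev r (A ++ (q, ε) :: B)
    set s := stk r (q - 1)
    set V := ev r (per q A B ε)
    have hcc : c * r q = r q * c := (Subgroup.mem_center_iff.1 (hC hc) (r q)).symm
    calc V ^ κ * c * (r q * s) * (m₂ * (w * V ^ m))
        = V ^ κ * (c * r q) * s * m₂ * w * V ^ m := by simp only [mul_assoc]
      _ = V ^ κ * (r q * c) * s * m₂ * w * V ^ m := by rw [hcc]
      _ = V ^ κ * r q * (c * s * m₂) * w * V ^ m := by simp only [mul_assoc]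
      _ = V ^ κ * (r q * w) * V ^ m := by rw [hval]; simp only [mul_assoc, one_mul]
      _ = V ^ κ * V * V ^ m := by rw [← hper]
      _ = V ^ (κ + (m + 1)) := by rw [← pow_succ, ← pow_add]; congr 1; ring
      _ = 1 := hvn

/-- a negative block -/
theorem block_neg (r : ℕ → Γ) (C : Subgroup Γ) (hC : C ≤ Subgroup.center Γ) (q : ℕ)
    (hq : 1 ≤ q) (A B : Wd) (ε : Bool) (hA : ∀ p ∈ A, p.1 < q) (hB : ∀ p ∈ B, p.1 < q)
    (axA : ax A = 1) (axB : ax B = -1) (n κ : ℕ) (hκ : κ < n) (hv : ev r (per q A B ε) ∈ C)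
    (hvn : ev r (per q A B ε) ^ n = 1) (Z : ℕ → Prop) [DecidablePred Z] (t : ℕ)
    (hZ : ∀ i < 2 * n, (Z (t + i) ↔ i = 2 * κ + 1)) (L : Wd)
    (hL : Reals r C (List.replicate n (FreeGroup.invRev (per q A B ε))).flatten L) :
    Real r C (q + 1, false) (rs q Z t L) := by
  obtain ⟨m, rfl⟩ : ∃ m, n = κ + (m + 1) := ⟨n - κ - 1, by omega⟩
  set v := per q A B ε with hvdef
  set T := FreeGroup.invRev B ++ (q, !ε) :: FreeGroup.invRev A with hT
  have hinv : FreeGroup.invRev v = T ++ [(q, false)] := by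
    rw [hvdef, per_inv, hT]; simp
  have lT : ∀ p ∈ T, p.1 ≤ q := by
    intro p hp
    simp only [hT, List.mem_append, List.mem_cons] at hp
    rcases hp with hp | hp | hp
    · exact (low_invRev q B hB p hp).le
    · rw [hp]
    · exact (low_invRev q A hA p hp).le
  have hlow : ∀ k, ∀ p ∈ (List.replicate k (FreeGroup.invRev v)).flatten, p.1 ≤ q := by
    intro k p hp
    rw [List.mem_flatten] at hp
    obtain ⟨l, hl, hp⟩ := hp
    rw [(List.mem_replicate.1 hl).2, hinv] at hp
    rcases List.mem_append.1 hp with hp | hp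
    · exact lT p hp
    · simp only [List.mem_singleton] at hp; rw [hp]
  have axv : ax v = 0 := ax_per q hq A B ε axA axB
  have axi : ax (FreeGroup.invRev v) = 0 := by rw [ax_invRev, axv]; rfl
  have hcnt : ∀ k, nT (List.replicate k (FreeGroup.invRev v)).flatten q = 2 * k := by
    intro k
    rw [← len_tr q _ 0]
    exact (tr_pow q (FreeGroup.invRev v) (!ε) false 1 0 axi
      (fun x => by rw [hvdef, tr_per_inv q hq A B ε hA hB axA axB]; simp) k 0).1
  have nT1 : nT T q = 1 := by
    rw [hT, nT_append, nT_cons_eq _ _ _ rfl, nT_low q _ (low_invRev q B hB),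
      nT_low q _ (low_invRev q A hA)]
  have hsplit : (List.replicate (κ + (m + 1)) (FreeGroup.invRev v)).flatten =
      (List.replicate κ (FreeGroup.invRev v)).flatten ++ (T ++ (q, false) ::
        (List.replicate m (FreeGroup.invRev v)).flatten) := by
    rw [List.replicate_add, List.flatten_append, List.replicate_succ, List.flatten_cons, hinv]
    simp
  rw [hsplit] at hL
  obtain ⟨P, L₂, rfl, hP, hL₂⟩ := (reals_append r C _ _ _).1 hL
  obtain ⟨Q, L₃, rfl, hQ, hL₃⟩ := (reals_append r C _ _ _).1 hL₂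
  obtain ⟨M, S, rfl, hM, hS⟩ := (reals_cons r C _ _ _).1 hL₃
  have nP : nT P q = 2 * κ := by
    rw [reals_nT r C q _ P hP (hlow κ) hq]; exact hcnt κ
  have nQ : nT Q q = 1 := by rw [reals_nT r C q _ Q hQ lT hq]; exact nT1
  have nS : nT S q = 2 * m := by
    rw [reals_nT r C q _ S hS (hlow m) hq]; exact hcnt m
  rcases hM with ⟨h0, _⟩ | ⟨_, M₁, M₂, rfl, hM1, hM2, ax1, ax2, hs⟩
  · exfalso; simp at h0; omega
  rcases hs with ⟨h0, _⟩ | ⟨_, hc, hval⟩
  · simp at h0
  simp only at hM1 hM2 hval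
  have nM : nT (M₁ ++ (q, false) :: M₂) q = 1 := by
    rw [nT_append, nT_cons_eq _ _ _ rfl, nT_low q M₁ hM1, nT_low q M₂ hM2]
  have eP : rs q Z t P = P := by
    apply rs_id
    rw [nP]
    intro i hi h
    have := (hZ i (by omega)).1 h
    omega
  have eQ : rs q Z (t + 2 * κ) Q = Q := by
    apply rs_id
    rw [nQ]
    intro i hi h
    rw [show t + 2 * κ + i = t + (2 * κ + i) by ring] at h
    have := (hZ _ (by omega)).1 h
    omega
  have eM : rs q Z (t + 2 * κ + 1) (M₁ ++ (q, false) :: M₂) = M₁ ++ (q + 1, false) :: M₂ :=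
    rs_mid q Z M₁ M₂ false _ hM1 hM2
      (by rw [show t + 2 * κ + 1 = t + (2 * κ + 1) by ring]; exact (hZ _ (by omega)).2 rfl)
  have eS : rs q Z (t + 2 * κ + 1 + 1) S = S := by
    apply rs_id
    rw [nS]
    intro i hi h
    rw [show t + 2 * κ + 1 + 1 + i = t + (2 * κ + 1 + 1 + i) by ring] at h
    have := (hZ _ (by omega)).1 h
    omega
  have eL : rs q Z t (P ++ (Q ++ (M₁ ++ (q, false) :: M₂ ++ S))) =
      (P ++ (Q ++ M₁)) ++ (q + 1, false) :: (M₂ ++ S) := by
    rw [rs_append, eP, nP, rs_append, eQ, nQ, rs_append, eM, nM, eS]; simp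
  rw [eL]
  have lP : ∀ p ∈ P, p.1 < q + 1 := fun p hp =>
    Nat.lt_succ_of_le (reals_le r C q _ P hP (hlow κ) p hp)
  have lQ : ∀ p ∈ Q, p.1 < q + 1 := fun p hp =>
    Nat.lt_succ_of_le (reals_le r C q _ Q hQ lT p hp)
  have lS : ∀ p ∈ S, p.1 < q + 1 := fun p hp =>
    Nat.lt_succ_of_le (reals_le r C q _ S hS (hlow m) p hp)
  have axP : ax P = 0 := by
    rw [(tr_reals r C q _ P hP (hlow κ) hq 0).2]
    exact ax_rep _ axi κ
  have axQ : ax Q = 0 := by
    rw [(tr_reals r C q _ Q hQ lT hq 0).2, hT, ax_append, ax_cons, ax_invRev, ax_invRev, axA, axB,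
      al_pos q _ hq]
    ring
  have axS : ax S = 0 := by
    rw [(tr_reals r C q _ S hS (hlow m) hq 0).2]
    exact ax_rep _ axi m
  have evP : ev (svl r) P = (ev r v)⁻¹ ^ κ := by
    rw [ev_reals r C hC _ P hP, ev_rep, ev_invRev]
  have evQ : ev (svl r) Q = ev r T := ev_reals r C hC _ Q hQ
  have evS : ev (svl r) S = (ev r v)⁻¹ ^ m := by
    rw [ev_reals r C hC _ S hS, ev_rep, ev_invRev]
  have hper : (ev r v)⁻¹ = ev r T * (r q)⁻¹ := by
    rw [← ev_invRev, hinv, ev_append, ev_cons, ev_nil]; simp [ev1]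
  refine Or.inr ⟨by simp, P ++ (Q ++ M₁), M₂ ++ S, rfl, ?_, ?_, ?_, ?_, Or.inr ⟨rfl, ?_, ?_⟩⟩
  · intro p hp
    simp only [List.mem_append] at hp
    rcases hp with hp | hp | hp
    · exact lP p hp
    · exact lQ p hp
    · exact (hM1 p hp).trans (Nat.lt_succ_self q)
  · intro p hp
    rcases List.mem_append.1 hp with hp | hp
    · exact (hM2 p hp).trans (Nat.lt_succ_self q)
    · exact lS p hp
  · rw [ax_append, ax_append, axP, axQ, ax1]; rfl
  · rw [ax_append, axS, ax2]; rfl
  · rw [ev_append, evS]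
    exact C.mul_mem hc (C.pow_mem (C.inv_mem hv) m)
  · simp only [Nat.add_sub_cancel]
    rw [ev_append, ev_append, ev_append, evP, evQ, evS, stk_pos r q hq]
    set m₁ := ev (svl r) M₁
    set c := ev (svl r) M₂
    set w := ev r T
    set s := stk r (q - 1)
    set V := ev r v
    have hcc : (r q)⁻¹ * c = c * (r q)⁻¹ := Subgroup.mem_center_iff.1 (hC hc) (r q)⁻¹
    calc V⁻¹ ^ κ * (w * m₁) * (r q * s)⁻¹ * (c * V⁻¹ ^ m)
        = V⁻¹ ^ κ * w * m₁ * s⁻¹ * ((r q)⁻¹ * c) * V⁻¹ ^ m := by
          rw [mul_inv_rev]; simp only [mul_assoc]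
      _ = V⁻¹ ^ κ * w * m₁ * s⁻¹ * (c * (r q)⁻¹) * V⁻¹ ^ m := by rw [hcc]
      _ = V⁻¹ ^ κ * w * (m₁ * s⁻¹ * c) * (r q)⁻¹ * V⁻¹ ^ m := by simp only [mul_assoc]
      _ = V⁻¹ ^ κ * (w * (r q)⁻¹) * V⁻¹ ^ m := by rw [hval]; simp only [mul_assoc, one_mul]
      _ = V⁻¹ ^ κ * V⁻¹ * V⁻¹ ^ m := by rw [← hper]
      _ = V⁻¹ ^ (κ + (m + 1)) := by rw [← pow_succ, ← pow_add]; congr 1; ring
      _ = 1 := by rw [inv_pow, hvn, inv_one]

/-- the condition on the set `Z` of marks at the letter `p` of offset `t` -/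
def OK (q n : ℕ) (Z : ℕ → Prop) (t : ℕ) (p : ℕ × Bool) : Prop :=
  (p.1 = q + 1 → ∃ κ < n, ∀ i < 2 * n, (Z (t + i) ↔ i = 2 * κ + (if p.2 then 0 else 1))) ∧
  (p.1 = q → ¬ Z t)

theorem raise (r : ℕ → Γ) (C : Subgroup Γ) (hC : C ≤ Subgroup.center Γ) (q : ℕ)
    (hq : 1 ≤ q) (A B : Wd) (ε : Bool) (hA : ∀ p ∈ A, p.1 < q) (hB : ∀ p ∈ B, p.1 < q)
    (axA : ax A = 1) (axB : ax B = -1) (n : ℕ) (hv : ev r (per q A B ε) ∈ C)
    (hvn : ev r (per q A B ε) ^ n = 1) (Z : ℕ → Prop) [DecidablePred Z] (U : Wd) :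
    ∀ (t : ℕ), (∀ p ∈ U, p.1 ≤ q + 1) →
      (∀ j (hj : j < U.length), OK q n Z (t + off q n (per q A B ε) U j) U[j]) →
      ∀ L, Reals r C (U.flatMap (sub q n (per q A B ε))) L → Reals r C U (rs q Z t L) := by
  induction U with
  | nil =>
    intro t _ _ L hL
    rw [List.flatMap_nil, reals_nil] at hL
    rw [hL, reals_nil]; rfl
  | cons p U ih =>
    intro t hU hok L hL
    rw [List.flatMap_cons, reals_append] at hL
    obtain ⟨L₁, L₂, rfl, h1, h2⟩ := hL
    have hp := hU p (by simp)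
    have ok0 := hok 0 (by simp)
    rw [off_zero, add_zero] at ok0
    simp only [List.getElem_cons_zero] at ok0
    have lsub : ∀ x ∈ sub q n (per q A B ε) p, x.1 ≤ q := by
      intro x hx
      unfold sub at hx
      have key : ∀ x ∈ per q A B ε, x.1 ≤ q := by
        intro p hp
        simp only [per, List.cons_append, List.mem_cons, List.mem_append] at hp
        rcases hp with hp | hp | hp | hp
        · rw [hp]
        · exact (hA p hp).le
        · rw [hp]
        · exact (hB p hp).le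
      split_ifs at hx with h3 h4
      · rw [List.mem_flatten] at hx
        obtain ⟨l, hl, hx⟩ := hx
        rw [(List.mem_replicate.1 hl).2] at hx
        exact key x hx
      · rw [List.mem_flatten] at hx
        obtain ⟨l, hl, hx⟩ := hx
        rw [(List.mem_replicate.1 hl).2] at hx
        simp only [FreeGroup.invRev, List.mem_reverse, List.mem_map] at hx
        obtain ⟨y, hy, rfl⟩ := hx
        exact key y hy
      · simp only [List.mem_singleton] at hx
        rw [hx]; omega
    rw [rs_append, reals_nT r C q _ L₁ h1 lsub hq, reals_cons]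
    refine ⟨_, _, rfl, ?_, ?_⟩
    · by_cases hpq : p.1 = q + 1
      · obtain ⟨κ, hκ, hZ⟩ := ok0.1 hpq
        obtain ⟨x, b⟩ := p
        simp only at hpq
        subst hpq
        cases b with
        | true =>
          simp only [sub, if_true] at h1
          simp only [if_true, add_zero] at hZ
          exact block_pos r C hC q hq A B ε hA hB axA axB n κ hκ hv hvn Z t hZ L₁ h1
        | false =>
          simp only [sub, if_true] at h1
          simp only [Bool.false_eq_true, if_false] at hZ h1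
          exact block_neg r C hC q hq A B ε hA hB axA axB n κ hκ hv hvn Z t hZ L₁ h1
      · have e : sub q n (per q A B ε) p = [p] := by simp [sub, hpq]
        rw [e] at h1
        have hid : rs q Z t L₁ = L₁ := by
          apply rs_id
          intro i hi
          have hn := reals_nT r C q [p] L₁ h1 (by simp; omega) hq
          by_cases hpq' : p.1 = q
          · rw [nT_cons_eq p [] q hpq', nT_nil] at hn
            have hi0 : i = 0 := by omega
            rw [hi0]; simpa using ok0.2 hpq'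
          · rw [nT_cons_ne p [] q hpq', nT_nil] at hn
            omega
        rw [hid]
        exact (reals_one r C p L₁).1 h1
    · apply ih _ (fun x hx => hU x (by simp [hx])) _ L₂ h2
      intro j hj
      have := hok (j + 1) (by simpa using hj)
      rw [off_cons] at this
      simp only [List.getElem_cons_succ] at this
      rwa [← add_assoc] at this

end value

/-! ### the main step -/

lemma nT_one (q : ℕ) (p : ℕ × Bool) : nT [p] q = if p.1 = q then 1 else 0 := by
  split_ifs with h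
  · rw [nT_cons_eq p [] q h, nT_nil]
  · rw [nT_cons_ne p [] q h, nT_nil]

lemma find_block (f : ℕ → ℕ) (m t : ℕ) (h0 : f 0 ≤ t) (hm : t < f m) :
    ∃ j < m, f j ≤ t ∧ t < f (j + 1) := by
  induction m with
  | zero => omega
  | succ m ih =>
    by_cases h : t < f m
    · obtain ⟨j, hj, h1⟩ := ih h
      exact ⟨j, by omega, h1⟩
    · exact ⟨m, by omega, by omega, hm⟩

/-- the letters of a middle part -/
lemma get_mid (q : ℕ) (L W₁ W₂ W₃ : Wd) (h : tr q 0 L = tr q 0 (W₁ ++ (W₂ ++ W₃))) (i : ℕ)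
    (hi : i < nT W₂ q) :
    some (sg L q (nT W₁ q + i), hh L q (nT W₁ q + i)) = (tr q (ax W₁) W₂)[i]? := by
  have hlen : nT L q = nT W₁ q + (nT W₂ q + nT W₃ q) := by
    rw [← len_tr q L 0, h, len_tr, nT_append, nT_append]
  rw [← trget L q _ (by omega), h, tr_append, List.getElem?_append_right (by rw [len_tr]; omega),
    len_tr, zero_add, tr_append, List.getElem?_append_left (by rw [len_tr]; omega)]
  congr 1; omega

section main

variable (q n : ℕ) (hq : 1 ≤ q) (A B : Wd) (ε : Bool) (hA : ∀ p ∈ A, p.1 < q)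
  (hB : ∀ p ∈ B, p.1 < q) (axA : ax A = 1) (axB : ax B = -1)

include hq hA hB axA axB

lemma nT_sub (p : ℕ × Bool) : nT (sub q n (per q A B ε) p) q =
    if p.1 = q + 1 then 2 * n else if p.1 = q then 1 else 0 := by
  have axv := ax_per q hq A B ε axA axB
  by_cases h : p.1 = q + 1
  · obtain ⟨x, b⟩ := p
    simp only at h
    subst h
    cases b with
    | true =>
      simp only [sub, if_true]
      rw [← len_tr q _ 0]
      exact (tr_pow q (per q A B ε) true ε 0 1 axv
        (fun x => by rw [tr_per q hq A B ε hA hB axA]; simp) n 0).1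
    | false =>
      simp only [sub, if_true, Bool.false_eq_true, if_false]
      rw [← len_tr q _ 0]
      exact (tr_pow q _ (!ε) false 1 0 (by rw [ax_invRev, axv]; rfl)
        (fun x => by rw [tr_per_inv q hq A B ε hA hB axA axB]; simp) n 0).1
  · have e : sub q n (per q A B ε) p = [p] := by simp [sub, h]
    rw [e, nT_one, if_neg h]

/-- the letters of a block -/
lemma blk (U L : Wd) (h : tr q 0 L = tr q 0 (U.flatMap (sub q n (per q A B ε)))) (j : ℕ)
    (hj : j < U.length) (hj1 : U[j].1 = q + 1) :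
    ∃ x : ℤ, ∀ k < n,
      (sg L q (off q n (per q A B ε) U j + 2 * k) = (if U[j].2 then true else !ε)) ∧
      (hh L q (off q n (per q A B ε) U j + 2 * k) = x + (if U[j].2 then 0 else 1)) ∧
      (sg L q (off q n (per q A B ε) U j + 2 * k + 1) = (if U[j].2 then ε else false)) ∧
      (hh L q (off q n (per q A B ε) U j + 2 * k + 1) = x + (if U[j].2 then 1 else 0)) := by
  have axv := ax_per q hq A B ε axA axB
  have hU : U = U.take j ++ U[j] :: U.drop (j + 1) := by
    rw [← List.drop_eq_getElem_cons hj, List.take_append_drop]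
  have hW : U.flatMap (sub q n (per q A B ε)) =
      (U.take j).flatMap (sub q n (per q A B ε)) ++ (sub q n (per q A B ε) U[j] ++
        (U.drop (j + 1)).flatMap (sub q n (per q A B ε))) := by
    conv_lhs => rw [hU]
    rw [List.flatMap_append, List.flatMap_cons]
  rw [hW] at h
  have hn := nT_sub q n hq A B ε hA hB axA axB U[j]
  rw [if_pos hj1] at hn
  have key := get_mid q L _ _ _ h
  rw [hn] at key
  change ∀ i < 2 * n, some (sg L q (off q n (per q A B ε) U j + i),
    hh L q (off q n (per q A B ε) U j + i)) = _ at key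
  refine ⟨ax ((U.take j).flatMap (sub q n (per q A B ε))), fun k hk => ?_⟩
  have k0 := key (2 * k) (by omega)
  have k1 := key (2 * k + 1) (by omega)
  rcases hb : U[j].2 with _ | _
  · have e : sub q n (per q A B ε) U[j] =
        (List.replicate n (FreeGroup.invRev (per q A B ε))).flatten := by
      simp [sub, hj1, hb]
    have tp := (tr_pow q (FreeGroup.invRev (per q A B ε)) (!ε) false 1 0
      (by rw [ax_invRev, axv]; rfl)
      (fun x => by rw [tr_per_inv q hq A B ε hA hB axA axB]; simp) n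
      (ax ((U.take j).flatMap (sub q n (per q A B ε))))).2 k hk
    rw [e, tp.1] at k0
    rw [e, tp.2] at k1
    simp only [Option.some.injEq, Prod.mk.injEq] at k0 k1
    simp only [Bool.false_eq_true, if_false]
    exact ⟨k0.1, k0.2, k1.1, k1.2⟩
  · have e : sub q n (per q A B ε) U[j] =
        (List.replicate n (per q A B ε)).flatten := by
      simp [sub, hj1, hb]
    have tp := (tr_pow q (per q A B ε) true ε 0 1 axv
      (fun x => by rw [tr_per q hq A B ε hA hB axA]; simp) n
      (ax ((U.take j).flatMap (sub q n (per q A B ε))))).2 k hk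
    rw [e, tp.1] at k0
    rw [e, tp.2] at k1
    simp only [Option.some.injEq, Prod.mk.injEq] at k0 k1
    simp only [if_true]
    exact ⟨k0.1, k0.2, k1.1, k1.2⟩

end main

/-- positions of the letters of index `q + 1` among the first `m` -/
def JJ (q : ℕ) (U : Wd) (m : ℕ) : Finset ℕ :=
  (Finset.range m).filter (fun j => (U[j]?).map Prod.fst = some (q + 1))

lemma mem_JJ (q : ℕ) (U : Wd) (j : ℕ) :
    j ∈ JJ q U U.length ↔ ∃ hj : j < U.length, U[j].1 = q + 1 := by
  unfold JJ
  rw [Finset.mem_filter, Finset.mem_range]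
  constructor
  · rintro ⟨hj, h⟩
    rw [List.getElem?_eq_getElem hj] at h
    exact ⟨hj, by simpa using h⟩
  · rintro ⟨hj, h⟩
    rw [List.getElem?_eq_getElem hj]
    exact ⟨hj, by simpa using h⟩

theorem step {Γ : Type*} [Group Γ] (r : ℕ → Γ) (C : Subgroup Γ) (hC : C ≤ Subgroup.center Γ)
    (q : ℕ) (hq : 1 ≤ q) (A B : Wd) (ε : Bool) (hA : ∀ p ∈ A, p.1 < q) (hB : ∀ p ∈ B, p.1 < q)
    (axA : ax A = 1) (axB : ax B = -1) (U : Wd) (hU : ∀ p ∈ U, p.1 ≤ q + 1) (g n : ℕ)
    (hn : 12 * g + 10 * U.length < n) (hv : ev r (per q A B ε) ∈ C)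
    (hvn : ev r (per q A B ε) ^ n = 1) (L : Wd)
    (hL : Reals r C (U.flatMap (sub q n (per q A B ε))) L) (hg : Gen L g) :
    ∃ L' : Wd, Reals r C U L' ∧ Gen L' g := by
  classical
  obtain ⟨π, c, hG, hc⟩ := hg
  set v := per q A B ε with hvdef
  have keyv : ∀ x ∈ v, x.1 ≤ q := by
    intro p hp
    simp only [hvdef, per, List.cons_append, List.mem_cons, List.mem_append] at hp
    rcases hp with hp | hp | hp | hp
    · rw [hp]
    · exact (hA p hp).le
    · rw [hp]
    · exact (hB p hp).le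
  have hW : ∀ p ∈ U.flatMap (sub q n v), p.1 ≤ q := by
    intro x hx
    rw [List.mem_flatMap] at hx
    obtain ⟨p, hp, hx⟩ := hx
    have hp1 := hU p hp
    unfold sub at hx
    split_ifs at hx with h3 h4
    · rw [List.mem_flatten] at hx
      obtain ⟨l, hl, hx⟩ := hx
      rw [(List.mem_replicate.1 hl).2] at hx
      exact keyv x hx
    · rw [List.mem_flatten] at hx
      obtain ⟨l, hl, hx⟩ := hx
      rw [(List.mem_replicate.1 hl).2] at hx
      simp only [FreeGroup.invRev, List.mem_reverse, List.mem_map] at hx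
      obtain ⟨y, hy, rfl⟩ := hx
      exact keyv y hy
    · simp only [List.mem_singleton] at hx
      rw [hx]; omega
  have htr : tr q 0 L = tr q 0 (U.flatMap (sub q n v)) := (tr_reals r C q _ L hL hW hq 0).1
  have hM : nT L q = off q n v U U.length := by
    rw [off_len, ← len_tr q L 0, htr, len_tr]
  have nsub := nT_sub q n hq A B ε hA hB axA axB
  rw [← hvdef] at nsub
  set o := off q n v U with ho
  have osucc : ∀ j (hj : j < U.length), o (j + 1) = o j +
      (if U[j].1 = q + 1 then 2 * n else if U[j].1 = q then 1 else 0) := by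
    intro j hj
    rw [ho, off_succ q n v U j hj, nsub]
  have omono : ∀ i j, i ≤ j → j ≤ U.length → o i ≤ o j := off_mono q n v U
  set J := JJ q U U.length with hJ
  have memJ : ∀ j, j ∈ J ↔ ∃ hj : j < U.length, U[j].1 = q + 1 := mem_JJ q U
  set σ : ℕ → Bool := fun j => ((U[j]?).map Prod.snd).getD true with hσ
  have σeq : ∀ j (hj : j < U.length), σ j = U[j].2 := by
    intro j hj
    simp [hσ, List.getElem?_eq_getElem hj]
  have hblk : ∀ j ∈ J, ∃ x : ℤ, ∀ k < n,
      (sg L q (o j + 2 * k) = (if σ j then true else !ε)) ∧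
      (hh L q (o j + 2 * k) = x + (if σ j then 0 else 1)) ∧
      (sg L q (o j + 2 * k + 1) = (if σ j then ε else false)) ∧
      (hh L q (o j + 2 * k + 1) = x + (if σ j then 1 else 0)) := by
    intro j hj
    obtain ⟨hj1, hj2⟩ := (memJ j).1 hj
    rw [σeq j hj1]
    exact blk q n hq A B ε hA hB axA axB U L htr j hj1 hj2
  have osuccJ : ∀ j ∈ J, o (j + 1) = o j + 2 * n := by
    intro j hj
    obtain ⟨hj1, hj2⟩ := (memJ j).1 hj
    rw [osucc j hj1, if_pos hj2]
  have hoJ : ∀ j ∈ J, o j + 2 * n ≤ nT L q := by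
    intro j hj
    obtain ⟨hj1, hj2⟩ := (memJ j).1 hj
    rw [← osuccJ j hj, hM]
    exact omono _ _ hj1 le_rfl
  have hdis : ∀ i ∈ J, ∀ j, i < j → j ≤ U.length → o i + 2 * n ≤ o j := by
    intro i hi j hij hj
    rw [← osuccJ i hi]
    exact omono _ _ hij hj
  have hlt : ∀ j ∈ J, j < U.length := fun j hj => ((memJ j).1 hj).1
  -- the number of exceptional consecutive pairs
  have hK : ((Finset.range (nT L q)).filter (fun t =>
      sg L q ((t + 1) % nT L q) ≠ sg L q t ∧
      hh L q ((t + 1) % nT L q) = hh L q t)).card ≤ U.length := by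
    have hsub : ((Finset.range (nT L q)).filter (fun t =>
        sg L q ((t + 1) % nT L q) ≠ sg L q t ∧
        hh L q ((t + 1) % nT L q) = hh L q t)) ⊆
        (Finset.range U.length).image (fun j => o (j + 1) - 1) := by
      intro t ht
      rw [Finset.mem_filter, Finset.mem_range] at ht
      obtain ⟨ht, -, hh'⟩ := ht
      obtain ⟨j, hj, h1, h2⟩ := find_block o U.length t
        (by rw [ho, off_zero]; omega) (by rw [← hM]; exact ht)
      rw [Finset.mem_image]
      refine ⟨j, Finset.mem_range.2 hj, ?_⟩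
      have hs := osucc j hj
      by_cases hq1 : U[j].1 = q + 1
      · have hjJ : j ∈ J := (memJ j).2 ⟨hj, hq1⟩
        rw [if_pos hq1] at hs
        by_contra hne
        have hlt' : t + 1 < nT L q := by
          have := hoJ j hjJ
          omega
        rw [Nat.mod_eq_of_lt hlt'] at hh'
        obtain ⟨x, hx⟩ := hblk j hjJ
        rcases Nat.even_or_odd' (t - o j) with ⟨k, hk | hk⟩
        · have h3 := hx k (by omega)
          rw [show t = o j + 2 * k by omega, h3.2.1, h3.2.2.2] at hh'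
          split_ifs at hh' <;> omega
        · have h3 := hx k (by omega)
          have h4 := hx (k + 1) (by omega)
          rw [show t = o j + 2 * k + 1 by omega, h3.2.2.2,
            show o j + 2 * k + 1 + 1 = o j + 2 * (k + 1) by ring, h4.2.1] at hh'
          split_ifs at hh' <;> omega
      · rw [if_neg hq1] at hs
        split_ifs at hs <;> omega
    calc _ ≤ ((Finset.range U.length).image (fun j => o (j + 1) - 1)).card :=
          Finset.card_le_card hsub
      _ ≤ (Finset.range U.length).card := Finset.card_image_le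
      _ = U.length := Finset.card_range _
  obtain ⟨Bad, hBad, hgood⟩ := good L q g hq π c hG hc U.length hK
  have hrest : ∀ m ≤ U.length, o m ≤ 2 * n * (JJ q U m).card + m := by
    intro m hm
    induction m with
    | zero => rw [ho, off_zero]; omega
    | succ m ih =>
      have h1 := ih (by omega)
      have h2 := osucc m (by omega)
      have h3 : JJ q U (m + 1) =
          if (U[m]?).map Prod.fst = some (q + 1) then insert m (JJ q U m) else JJ q U m := by
        unfold JJ
        rw [Finset.range_add_one, Finset.filter_insert]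
      rw [List.getElem?_eq_getElem (by omega : m < U.length)] at h3
      by_cases hq1 : U[m].1 = q + 1
      · rw [if_pos hq1] at h2
        rw [if_pos (by simp [hq1])] at h3
        rw [h3, Finset.card_insert_of_notMem (by simp [JJ]), h2]
        nlinarith
      · rw [if_neg hq1] at h2
        rw [if_neg (by simpa using hq1)] at h3
        rw [h3, h2]
        split_ifs <;> omega
  have hJc : J.card ≤ U.length := by
    calc J.card ≤ (Finset.range U.length).card := Finset.card_filter_le _ _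
      _ = U.length := Finset.card_range _
  obtain ⟨e, κ, hκ, he1, he2⟩ := blocks (nT L q) n (12 * g + 4 * U.length) U.length ε
    (tau L q π) (sg L q) (hh L q) (fun t ht => tau_lt L q π c hG t ht)
    (fun t ht => tau_tau L q π c hG t ht) (fun t ht => sg_tau L q π c hG t ht) J σ o hoJ
    (fun i hi j hj hij => hdis i hi j hij (hlt j hj).le)
    (by
      intro j hj hs k hk
      obtain ⟨x, hx⟩ := hblk j hj
      simp only [hs, if_true] at hx
      have h1 := hx k hk
      refine ⟨h1.1, h1.2.2.1, by rw [h1.2.2.2, h1.2.1]; ring, fun hk' => ?_⟩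
      have h2 := hx (k + 1) hk'
      rw [show o j + 2 * k + 2 = o j + 2 * (k + 1) by ring, h2.2.1, h1.2.2.2]; ring)
    (by
      intro j hj hs k hk
      obtain ⟨x, hx⟩ := hblk j hj
      simp only [hs, Bool.false_eq_true, if_false] at hx
      have h1 := hx k hk
      refine ⟨h1.1, h1.2.2.1, by rw [h1.2.2.2, h1.2.1]; ring, fun hk' => ?_⟩
      have h2 := hx (k + 1) hk'
      rw [show o j + 2 * k + 2 = o j + 2 * (k + 1) by ring, h2.2.1, h1.2.2.2]; ring)
    (by have := hrest U.length le_rfl; rw [hM]; exact this) Bad hBad hgood (by omega)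
  set mk : ℕ → ℕ := fun j => o j + 2 * κ j + (if σ j then 0 else 1) with hmk
  have mklt : ∀ j ∈ J, mk j < o j + 2 * n := by
    intro j hj
    have := hκ j hj
    simp only [hmk]
    split_ifs <;> omega
  have mkge : ∀ j, o j ≤ mk j := by
    intro j; simp only [hmk]; omega
  set Z : ℕ → Prop := fun t => ∃ j ∈ J, t = mk j with hZdef
  have hZ1 : ∀ t < nT L q, Z t → Z (tau L q π t) := by
    rintro t ht ⟨j, hj, rfl⟩
    cases hs : σ j with
    | true =>
      obtain ⟨h1, h2, h3⟩ := he1 j hj hs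
      refine ⟨e j, h1, ?_⟩
      have e1 : mk j = o j + 2 * κ j := by simp [hmk, hs]
      have e2 : mk (e j) = o (e j) + 2 * κ (e j) + 1 := by simp [hmk, h2]
      rw [e1, e2, h3]
    | false =>
      obtain ⟨i, hi, hsi, hei⟩ := he2 j hj hs
      obtain ⟨h1, h2, h3⟩ := he1 i hi hsi
      refine ⟨i, hi, ?_⟩
      have e1 : mk i = o i + 2 * κ i := by simp [hmk, hsi]
      have e2 : mk j = tau L q π (mk i) := by
        rw [e1, h3, hei]; simp [hmk, hs]
      rw [e2, tau_tau L q π c hG]
      have := mklt i hi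
      have := hoJ i hi
      omega
  have hZ : ∀ t < nT L q, Z t ↔ Z (tau L q π t) := by
    intro t ht
    refine ⟨hZ1 t ht, fun h => ?_⟩
    have h1 := hZ1 _ (tau_lt L q π c hG t ht) h
    rwa [tau_tau L q π c hG t ht] at h1
  refine ⟨rs q Z 0 L, ?_, π, c, glue_rs L q π c hG Z hZ, ?_⟩
  · apply raise r C hC q hq A B ε hA hB axA axB n hv hvn Z U 0 hU _ L hL
    intro j hj
    rw [← hvdef, ← ho, zero_add]
    constructor
    · intro hq1
      have hjJ : j ∈ J := (memJ j).2 ⟨hj, hq1⟩
      refine ⟨κ j, hκ j hjJ, fun i hi => ?_⟩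
      rw [← σeq j hj]
      constructor
      · rintro ⟨j', hj', h⟩
        have h1 := mklt j' hj'
        have h2 := mkge j'
        rcases lt_trichotomy j j' with h3 | h3 | h3
        · have := hdis j hjJ j' h3 (hlt j' hj').le
          omega
        · subst h3
          simp only [hmk] at h
          omega
        · have := hdis j' hj' j h3 hj.le
          omega
      · intro h
        exact ⟨j, hjJ, by simp only [hmk]; omega⟩
    · intro hq1
      rintro ⟨j', hj', h⟩
      have h1 := mklt j' hj'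
      have h2 := mkge j'
      have hs := osucc j hj
      rw [if_neg (by omega), if_pos hq1] at hs
      rcases lt_trichotomy j j' with h3 | h3 | h3
      · have := omono (j + 1) j' h3 (hlt j' hj').le
        omega
      · subst h3
        obtain ⟨_, h4⟩ := (memJ j).1 hj'
        omega
      · have := hdis j' hj' j h3 hj.le
        omega
  · have e1 : cols (rs q Z 0 L) c = cols L c := by
      unfold cols
      rw [rs_length]
    rw [e1, rs_length]
    exact hc

end H49CD
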