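import Pool.Agent.CD7.OddOf
import Pool.Agent.CD7.TStep
import Pool.Agent.Helper74.CL.Nec3

/-!
MP_cd7e06_al, all odd exponents: for `m` odd and `k ≥ 1`, the pair `(k, m)` is admissible if and
only if `m < 2 k`.
-/

set_option autoImplicit false

namespace H74CD7

open H74CL H55CD H59CD H25CD H85CDU

/-- every pair `(k, m)` with `m` odd and `m < 2 k` is admissible -/
theorem adm_odd (k m : ℕ) (hm : Odd m) (hk : m < 2 * k) : Adm k m :=
  adm_odd_of_step (fun j q hq U hU g n hn hvn L hL hg =>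
    H49CD.step (rH j) (CC (Fin j ⊕ Fin j)) (CC_le_center _) q hq (AL q) (BL q) (εL q)
      (AL_lt q hq) (BL_lt q hq) (ax_AL q hq) (ax_BL q hq) U hU g n hn (per_mem_CC j q hq) hvn L
      hL hg) k m hm hk

/-- the full answer for odd `m` -/
theorem adm_odd_iff (k m : ℕ) (hk : 1 ≤ k) (hm : Odd m) : Adm k m ↔ m < 2 * k :=
  ⟨adm_nec hk, adm_odd k m hm⟩

end H74CD7
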