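import Pool.Agent.CD7.TowerVal
import Pool.Agent.CD7.GenU
import Pool.Agent.CD7.Final

/-!
MP_cd7e06_al, all odd exponents: the assembly, from the one level step of the transfer.

`adm_odd_of_step`: if the one level step holds (in the class two groups over `ZMod 2`, for the
periods of the tower), then every pair `(k, m)` with `m` odd and `m < 2 k` is admissible.
-/

set_option autoImplicit false

namespace H74CD7

open H74CL H55CD H59CD H25CD H85CDU

/-- the lower bound for the top words, from the one level step -/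
theorem lower_of_step
    (hstep : ∀ (j q : ℕ), 1 ≤ q → ∀ (U : Wd), (∀ p ∈ U, p.1 ≤ q + 1) → ∀ g n : ℕ,
      12 * g + 10 * U.length < n →
      ev (rH j) (per q (AL q) (BL q) (εL q)) ^ n = 1 → ∀ L : Wd,
      Reals (rH j) (CC (Fin j ⊕ Fin j)) (U.flatMap (sub q n (per q (AL q) (BL q) (εL q)))) L →
      Gen L g → ∃ L' : Wd, Reals (rH j) (CC (Fin j ⊕ Fin j)) U L' ∧ Gen L' g)
    (r j : ℕ) : ∃ N : ℕ → ℕ, ∀ g,
      PC g (ev (val (fun q => per q (AL q) (BL q) (εL q)) N (2 * j))
        (List.replicate (2 * r + 1) (XL j ++ YL j)).flatten) → r + 1 + j ≤ g := by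
  obtain ⟨N, -, hN⟩ := transfer_of (fun g L h => gen_of_PC' h L rfl) (rH j) (CC (Fin j ⊕ Fin j))
    AL BL εL (hstep j) AL_lt BL_lt (per_sq j) (2 * j) (r + j) _ (topw_lt j (2 * r + 1))
  refine ⟨N, fun g hg => ?_⟩
  by_contra hlt
  obtain ⟨L, hL, hG⟩ := hN (hg.mono (by omega))
  have hper : XL j ++ YL j = per (2 * j + 1) (AL (2 * j + 1)) (BL (2 * j + 1)) false := by
    rw [← εL_odd j]
    exact (per_odd j).symm
  rw [hper] at hL
  have htop : (ev (rH j) (AL (2 * j + 1))).v = 0 ∧ (ev (rH j) (BL (2 * j + 1))).v = 0 := by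
    rcases Nat.eq_zero_or_pos j with rfl | hj
    · exact ⟨Subsingleton.elim _ _, Subsingleton.elim _ _⟩
    · exact ⟨(top_classes j hj).1, (top_classes j hj).2.1⟩
  have hfin := H3CD.final_lower (rH j) (CC (Fin j ⊕ Fin j)) (fun x hx => mem_CC.1 hx) (2 * j + 1)
    (by omega) (AL (2 * j + 1)) (BL (2 * j + 1)) (AL_lt _ (by omega)) (BL_lt _ (by omega))
    (ax_AL _ (by omega)) (ax_BL _ (by omega)) htop.1 htop.2 (2 * r + 1) (by omega) L
    hL (r + j) hG (by
      rw [← hper, value_top j (2 * r + 1) (by omega)]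
      exact isUnit_det_Om j)
  simp only [Fintype.card_sum, Fintype.card_fin] at hfin
  omega

/-- all pairs with odd `m`, from the one level step -/
theorem adm_odd_of_step
    (hstep : ∀ (j q : ℕ), 1 ≤ q → ∀ (U : Wd), (∀ p ∈ U, p.1 ≤ q + 1) → ∀ g n : ℕ,
      12 * g + 10 * U.length < n →
      ev (rH j) (per q (AL q) (BL q) (εL q)) ^ n = 1 → ∀ L : Wd,
      Reals (rH j) (CC (Fin j ⊕ Fin j)) (U.flatMap (sub q n (per q (AL q) (BL q) (εL q)))) L →
      Gen L g → ∃ L' : Wd, Reals (rH j) (CC (Fin j ⊕ Fin j)) U L' ∧ Gen L' g)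
    (k m : ℕ) (hm : Odd m) (hk : m < 2 * k) : Adm k m :=
  adm_odd_of_top (lower_of_step hstep) k m hm hk

end H74CD7
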