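import Pool.Agent.CD7.Heis

/-!
The class two value of the words `X_j Y_j` of the tower
`X' = t X r⁻¹ t⁻¹`, `Y' = X Y r X⁻¹`, `Z' = r X Z r X⁻¹`.
-/

set_option autoImplicit false
set_option linter.unusedSectionVars false

namespace H25CD

open H59CD Matrix

section Tower
variable {G : Type*} [Group G]

/-- the words `X_i`, `Y_i`, `Z_i` in the letters `A`, `R 0`, `R 1`, ... -/
def XYZ (A : G) (R : ℕ → G) : ℕ → G × G × G
  | 0 => (R 0 * A * (R 0)⁻¹, A⁻¹, 1)
  | i + 1 =>
    let p := XYZ A R i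
    (R (2 * i + 2) * p.1 * (R (2 * i + 1))⁻¹ * (R (2 * i + 2))⁻¹,
     p.1 * p.2.1 * R (2 * i + 1) * p.1⁻¹,
     R (2 * i + 1) * p.1 * p.2.2 * R (2 * i + 1) * p.1⁻¹)

end Tower

section Value
variable {ι : Type} [Fintype ι] [DecidableEq ι]

private lemma two0 (x : ZMod 2) : x + x = 0 := CharTwo.add_self_eq_zero x

lemma addM (M : Matrix ι ι (ZMod 2)) : M + M = 0 := by
  ext i k; simp [two0]

lemma addv (v : ι → ZMod 2) : v + v = 0 := by
  ext i; simp [two0]

lemma negM (M : Matrix ι ι (ZMod 2)) : -M = M := by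
  rw [neg_eq_iff_add_eq_zero, addM]

lemma negv (v : ι → ZMod 2) : -v = v := by
  rw [neg_eq_iff_add_eq_zero, addv]

/-- general step of the tower in the class two group -/
lemma step (ξ ρ τ : ι → ZMod 2) (P Q C : Matrix ι ι (ZMod 2)) :
    let X : Hs ι (ZMod 2) := ⟨ξ, P⟩
    let Y : Hs ι (ZMod 2) := ⟨ξ, Q⟩
    let Z : Hs ι (ZMod 2) := ⟨0, C⟩
    let r : Hs ι (ZMod 2) := ⟨ρ, 0⟩
    let t : Hs ι (ZMod 2) := ⟨τ, 0⟩
    (t * X * r⁻¹ * t⁻¹).v = ξ + ρ ∧ (X * Y * r * X⁻¹).v = ξ + ρ ∧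
      (r * X * Z * r * X⁻¹).v = 0 ∧
      (t * X * r⁻¹ * t⁻¹ * (X * Y * r * X⁻¹)).M =
        (X * Y).M + (vecMulVec τ (ξ + ρ) + vecMulVec (ξ + ρ) τ) := by
  intro X Y Z r t
  refine ⟨?_, ?_, ?_, ?_⟩
  · simp only [mul_v, inv_v, negv, X, r, t]
    have := addv τ
    calc τ + ξ + ρ + τ = (τ + τ) + (ξ + ρ) := by abel
      _ = ξ + ρ := by rw [this, zero_add]
  · simp only [mul_v, inv_v, negv, X, Y, r]
    calc ξ + ξ + ρ + ξ = (ξ + ξ) + (ξ + ρ) := by abel
      _ = ξ + ρ := by rw [addv, zero_add]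
  · simp only [mul_v, inv_v, negv, X, Z, r]
    calc ρ + ξ + 0 + ρ + ξ = (ρ + ρ) + (ξ + ξ) := by abel
      _ = 0 := by rw [addv, addv, add_zero]
  · simp only [mul_v, inv_v, mul_M, inv_M, negv, negM, X, Y, r, t]
    ext i k
    simp only [Matrix.add_apply, vecMulVec_apply, Pi.add_apply, Matrix.zero_apply]
    generalize P i k = p
    generalize Q i k = q
    generalize ξ i = a
    generalize ξ k = b
    generalize ρ i = c
    generalize ρ k = d
    generalize τ i = e
    generalize τ k = f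
    revert p q a b c d e f
    decide

end Value

section Final

/-- the classes of the symplectic basis -/
def E (j i : ℕ) : Fin j ⊕ Fin j → ZMod 2 :=
  if h : i < j then Pi.single (Sum.inl ⟨i, h⟩) 1 else 0

def F (j i : ℕ) : Fin j ⊕ Fin j → ZMod 2 :=
  if h : i < j then Pi.single (Sum.inr ⟨i, h⟩) 1 else 0

/-- the class of the letter `r_k` -/
def rho (j k : ℕ) : Fin j ⊕ Fin j → ZMod 2 :=
  if k % 2 = 0 then F j (k / 2) else E j (k / 2) + E j (k / 2 + 1)

lemma rho_even (j i : ℕ) : rho j (2 * i) = F j i := by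
  have h1 : (2 * i) % 2 = 0 := by omega
  have h2 : (2 * i) / 2 = i := by omega
  rw [rho, if_pos h1, h2]

lemma rho_even' (j i : ℕ) : rho j (2 * i + 2) = F j (i + 1) := by
  rw [show 2 * i + 2 = 2 * (i + 1) by ring, rho_even]

lemma rho_odd (j i : ℕ) : rho j (2 * i + 1) = E j i + E j (i + 1) := by
  have h1 : ¬ (2 * i + 1) % 2 = 0 := by omega
  have h2 : (2 * i + 1) / 2 = i := by omega
  rw [rho, if_neg h1, h2]

lemma rho_top (j : ℕ) : rho j (2 * j) = 0 := by
  rw [rho_even, F, dif_neg (lt_irrefl _)]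

/-- the elements of the class two group attached to the letters -/
def hA (j : ℕ) : Hs (Fin j ⊕ Fin j) (ZMod 2) := ⟨E j 0, 0⟩
def hR (j k : ℕ) : Hs (Fin j ⊕ Fin j) (ZMod 2) := ⟨rho j k, 0⟩

/-- the value of the tower -/
def W (j i : ℕ) : Hs (Fin j ⊕ Fin j) (ZMod 2) × Hs (Fin j ⊕ Fin j) (ZMod 2) ×
    Hs (Fin j ⊕ Fin j) (ZMod 2) := XYZ (hA j) (hR j) i

/-- the sum of the hyperbolic planes -/
def Om (j i : ℕ) : Matrix (Fin j ⊕ Fin j) (Fin j ⊕ Fin j) (ZMod 2) :=
  ∑ l ∈ Finset.range (i + 1), (vecMulVec (F j l) (E j l) + vecMulVec (E j l) (F j l))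

theorem tower_value (j i : ℕ) :
    (W j i).1.v = E j i ∧ (W j i).2.1.v = E j i ∧ (W j i).2.2.v = 0 ∧
      ((W j i).1 * (W j i).2.1).M = Om j i := by
  induction i with
  | zero =>
    simp only [W, XYZ]
    refine ⟨?_, ?_, ?_, ?_⟩
    · simp only [mul_v, inv_v, hA, hR, negv]
      calc rho j 0 + E j 0 + rho j 0 = (rho j 0 + rho j 0) + E j 0 := by abel
        _ = E j 0 := by rw [addv, zero_add]
    · simp only [inv_v, hA, negv]
    · rfl
    · simp only [mul_v, inv_v, mul_M, inv_M, negv, negM, hA, hR, Om]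
      rw [show (0 + 1 : ℕ) = 1 from rfl, Finset.sum_range_one]
      have h0 : rho j 0 = F j 0 := rho_even j 0
      rw [h0]
      ext i k
      simp only [Matrix.add_apply, vecMulVec_apply, Pi.add_apply, Matrix.zero_apply]
      generalize F j 0 i = a
      generalize F j 0 k = b
      generalize E j 0 i = c
      generalize E j 0 k = d
      revert a b c d
      decide
  | succ i ih =>
    obtain ⟨h1, h2, h3, h4⟩ := ih
    have hs := step (E j i) (rho j (2 * i + 1)) (rho j (2 * i + 2)) (W j i).1.M (W j i).2.1.M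
      (W j i).2.2.M
    have eX : (⟨E j i, (W j i).1.M⟩ : Hs (Fin j ⊕ Fin j) (ZMod 2)) = (W j i).1 := by
      rw [← h1]
    have eY : (⟨E j i, (W j i).2.1.M⟩ : Hs (Fin j ⊕ Fin j) (ZMod 2)) = (W j i).2.1 := by
      rw [← h2]
    have eZ : (⟨0, (W j i).2.2.M⟩ : Hs (Fin j ⊕ Fin j) (ZMod 2)) = (W j i).2.2 := by
      rw [← h3]
    simp only [eX, eY, eZ] at hs
    have er : E j i + rho j (2 * i + 1) = E j (i + 1) := by
      rw [rho_odd, ← add_assoc, addv, zero_add]
    rw [er] at hs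
    obtain ⟨g1, g2, g3, g4⟩ := hs
    have eW : W j (i + 1) =
        (hR j (2 * i + 2) * (W j i).1 * (hR j (2 * i + 1))⁻¹ * (hR j (2 * i + 2))⁻¹,
          (W j i).1 * (W j i).2.1 * hR j (2 * i + 1) * ((W j i).1)⁻¹,
          hR j (2 * i + 1) * (W j i).1 * (W j i).2.2 * hR j (2 * i + 1) * ((W j i).1)⁻¹) := rfl
    rw [eW]
    refine ⟨g1, g2, g3, ?_⟩
    refine g4.trans ?_
    rw [h4, Om, Om, Finset.sum_range_succ (n := i + 1), rho_even']

lemma Om_succ (j i : ℕ) : Om j (i + 1) =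
    Om j i + (vecMulVec (F j (i + 1)) (E j (i + 1)) + vecMulVec (E j (i + 1)) (F j (i + 1))) := by
  rw [Om, Om, Finset.sum_range_succ (n := i + 1)]

/-- the full form is the standard symplectic form -/
theorem Om_top (j : ℕ) : Om j j = Matrix.fromBlocks 0 1 1 0 := by
  rw [Om, Finset.sum_range_succ]
  have h0 : F j j = 0 := by rw [F, dif_neg (lt_irrefl _)]
  rw [h0, zero_vecMulVec, vecMulVec_zero, add_zero, add_zero]
  ext x y
  rw [Matrix.sum_apply]
  rcases x with x | x <;> rcases y with y | y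
  · rw [Matrix.fromBlocks_apply₁₁, Matrix.zero_apply]
    refine Finset.sum_eq_zero fun l hl => ?_
    rw [Finset.mem_range] at hl
    simp [E, F, hl, vecMulVec_apply]
  · rw [Matrix.fromBlocks_apply₁₂]
    rw [Finset.sum_eq_single_of_mem (x : ℕ) (Finset.mem_range.2 x.2)]
    · simp only [E, F, x.2, dif_pos, Matrix.add_apply, vecMulVec_apply, Pi.single_apply,
        Fin.eta, Matrix.one_apply]
      by_cases h : x = y
      · subst h; simp
      · have h' : ¬ y = x := fun e => h e.symm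
        simp [h, h']
    · intro l hl hne
      rw [Finset.mem_range] at hl
      have h1 : ¬ x = ⟨l, hl⟩ := fun e => hne (by rw [e])
      simp [E, F, hl, vecMulVec_apply, Pi.single_apply, h1]
  · rw [Matrix.fromBlocks_apply₂₁]
    rw [Finset.sum_eq_single_of_mem (x : ℕ) (Finset.mem_range.2 x.2)]
    · simp only [E, F, x.2, dif_pos, Matrix.add_apply, vecMulVec_apply, Pi.single_apply,
        Fin.eta, Matrix.one_apply]
      by_cases h : x = y
      · subst h; simp
      · have h' : ¬ y = x := fun e => h e.symm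
        simp [h, h']
    · intro l hl hne
      rw [Finset.mem_range] at hl
      have h1 : ¬ x = ⟨l, hl⟩ := fun e => hne (by rw [e])
      simp [E, F, hl, vecMulVec_apply, Pi.single_apply, h1]
  · rw [Matrix.fromBlocks_apply₂₂, Matrix.zero_apply]
    refine Finset.sum_eq_zero fun l hl => ?_
    rw [Finset.mem_range] at hl
    simp [E, F, hl, vecMulVec_apply]

theorem isUnit_det_Om (j : ℕ) : IsUnit (Om j j).det := by
  rw [Om_top]
  have h : (Matrix.fromBlocks 0 1 1 0 : Matrix (Fin j ⊕ Fin j) (Fin j ⊕ Fin j) (ZMod 2)) *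
      Matrix.fromBlocks 0 1 1 0 = 1 := by
    rw [Matrix.fromBlocks_multiply]
    simp [Matrix.fromBlocks_one]
  have h2 := congrArg Matrix.det h
  rw [Matrix.det_mul, Matrix.det_one] at h2
  exact IsUnit.of_mul_eq_one _ h2

/-- the value of the `m`-th power, `m` odd -/
theorem power_value (j m : ℕ) (hm : m % 2 = 1) :
    ((W j j).1 * (W j j).2.1) ^ m = ⟨0, Om j j⟩ := by
  obtain ⟨h1, h2, -, h4⟩ := tower_value j j
  have hv : ((W j j).1 * (W j j).2.1).v = 0 := by rw [mul_v, h1, h2, addv]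
  rw [pow_of_zero _ hv, h4]
  obtain ⟨q, rfl⟩ : ∃ q, m = 2 * q + 1 := ⟨m / 2, by omega⟩
  rw [add_nsmul, mul_comm, mul_nsmul, two_nsmul, addM, one_nsmul, zero_add]

end Final

end H25CD
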