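import Pool.Agent.Helper74.CL.Step
import Pool.Agent.Helper74.CL.Ree

/-!
MP_cd7e06_al, odd exponents: definitions for the transfer from the free group of rank two to the
formal words.

Formal letters: `(0, s)` is `a`, `(l + 1, s)` is `r_l` (with `r_0 = b`).  Stack letters:
`(0, s)` is `a`, `(l + 1, s)` is the stack `r_l r_{l-1} ... r_0` (or its inverse).
-/

set_option autoImplicit false

namespace H55CD

open H74CL

/-- lists of letters -/
abbrev Wd := List (ℕ × Bool)

/-- `a`-exponent of a letter -/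
def al (p : ℕ × Bool) : ℤ := if p.1 = 0 then (if p.2 then 1 else -1) else 0

/-- `a`-exponent of a list -/
def ax (L : Wd) : ℤ := (L.map al).sum

/-- height before position `i` -/
def ht (L : Wd) (i : ℕ) : ℤ := ax (L.take i)

/-- position `i` carries a letter of index `q` -/
def isT (L : Wd) (q : ℕ) (i : ℕ) : Prop := (L[i]?).map Prod.fst = some q

instance (L : Wd) (q : ℕ) : DecidablePred (isT L q) := fun i => by
  unfold isT; infer_instance

/-- number of letters of index `q` -/
def nT (L : Wd) (q : ℕ) : ℕ := Nat.count (isT L q) L.length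

/-- position of the letter number `t` of index `q` -/
noncomputable def ps (L : Wd) (q t : ℕ) : ℕ := Nat.nth (isT L q) t

/-- sign of the letter at position `i` -/
def sgn' (L : Wd) (i : ℕ) : Bool := ((L[i]?).map Prod.snd).getD true

/-- sign of the letter number `t` of index `q` -/
noncomputable def sg (L : Wd) (q t : ℕ) : Bool := sgn' L (ps L q t)

/-- height before the letter number `t` of index `q` -/
noncomputable def hh (L : Wd) (q t : ℕ) : ℤ := ht L (ps L q t)

/-- the pairing in terms of the numbers of the letters of index `q` -/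
noncomputable def tau (L : Wd) (q : ℕ) (π : ℕ → ℕ) (t : ℕ) : ℕ :=
  Nat.count (isT L q) (π (ps L q t))

/-- the trace of a list: signs and heights of the letters of index `q` -/
def tr (q : ℕ) : ℤ → Wd → List (Bool × ℤ)
  | _, [] => []
  | h, p :: L => if p.1 = q then (p.2, h) :: tr q (h + al p) L else tr q (h + al p) L

/-- raise the letters of index `q` whose number satisfies `Z` (the first number is `t`) -/
def rs (q : ℕ) (Z : ℕ → Prop) [DecidablePred Z] : ℕ → Wd → Wd
  | _, [] => []
  | t, p :: L =>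
    if p.1 = q then (if Z t then (q + 1, p.2) else p) :: rs q Z (t + 1) L
    else p :: rs q Z t L

/-- the period `v = r A r^ε B`, `r` of index `q` -/
def per (q : ℕ) (A B : Wd) (ε : Bool) : Wd := (q, true) :: A ++ (q, ε) :: B

/-- substitution of `v ^ n` for the letter of index `q + 1` -/
def sub (q n : ℕ) (v : Wd) (p : ℕ × Bool) : Wd :=
  if p.1 = q + 1 then (List.replicate n (if p.2 then v else FreeGroup.invRev v)).flatten else [p]

section
variable {Γ : Type*} [Group Γ]

/-- value of a letter -/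
def ev1 (r : ℕ → Γ) (p : ℕ × Bool) : Γ := if p.2 then r p.1 else (r p.1)⁻¹

/-- value of a list -/
def ev (r : ℕ → Γ) (L : Wd) : Γ := (L.map (ev1 r)).prod

/-- stacks: `stk r 0 = 1`, `stk r (l + 1) = r_l r_{l-1} ... r_0` -/
def stk (r : ℕ → Γ) : ℕ → Γ
  | 0 => 1
  | q + 1 => r (q + 1) * stk r q

/-- values of the stack letters: `a` for index `0`, the stack for index `q ≥ 1` -/
def svl (r : ℕ → Γ) (q : ℕ) : Γ := if q = 0 then r 0 else stk r q

/-- the stack list `M` is a version of the formal letter `c` -/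
def Real (r : ℕ → Γ) (C : Subgroup Γ) (c : ℕ × Bool) (M : Wd) : Prop :=
  (c.1 = 0 ∧ M = [c]) ∨
  (1 ≤ c.1 ∧ ∃ M₁ M₂ : Wd, M = M₁ ++ c :: M₂ ∧ (∀ p ∈ M₁, p.1 < c.1) ∧ (∀ p ∈ M₂, p.1 < c.1) ∧
    ax M₁ = 0 ∧ ax M₂ = 0 ∧
    ((c.2 = true ∧ ev (svl r) M₁ ∈ C ∧ ev (svl r) M₁ * stk r (c.1 - 1) * ev (svl r) M₂ = 1) ∨
     (c.2 = false ∧ ev (svl r) M₂ ∈ C ∧
       ev (svl r) M₁ * (stk r (c.1 - 1))⁻¹ * ev (svl r) M₂ = 1)))

/-- the stack list `L` is a version of the formal list `U` -/
def Reals (r : ℕ → Γ) (C : Subgroup Γ) (U L : Wd) : Prop :=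
  ∃ Ls : List Wd, L = Ls.flatten ∧ List.Forall₂ (Real r C) U Ls

end

end H55CD
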