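import Pool.Agent.CD7.TDefs

/-!
MP_cd7e06_al, odd exponents: the transfer through all levels (row ITER), from the one level step and
the pairing of a word which is not reduced.
-/

set_option autoImplicit false

namespace H55CD

open H74CL

/-- the values in the free group of rank two: `N l` is the exponent of `r_l` (index `l + 1`) -/
def val (V : ℕ → Wd) (N : ℕ → ℕ) : ℕ → ℕ → FreeGroup (Fin 2)
  | 0 => fun i => if i = 0 then FreeGroup.of 0 else FreeGroup.of 1
  | l + 1 => fun i => if i = l + 2 then (ev (val V N l) (V (l + 1))) ^ N (l + 1) else val V N l i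

end H55CD

namespace H59CD

open H74CL H55CD

section
variable {Γ Δ : Type*} [Group Γ] [Group Δ]

lemma PC_map (f : Γ →* Δ) {g : ℕ} {z : Γ} (h : PC g z) : PC g (f z) := by
  obtain ⟨l, rfl, rfl⟩ := h
  refine ⟨l.map (fun p => (f p.1, f p.2)), by simp, ?_⟩
  rw [List.map_map, map_list_prod, List.map_map]
  congr 1
  refine List.map_congr_left (fun p _ => ?_)
  simp

lemma ev_nil (r : ℕ → Γ) : ev r [] = 1 := rfl

lemma ev_cons (r : ℕ → Γ) (p : ℕ × Bool) (L : Wd) : ev r (p :: L) = ev1 r p * ev r L := by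
  simp [ev]

lemma ev_append (r : ℕ → Γ) (L₁ L₂ : Wd) : ev r (L₁ ++ L₂) = ev r L₁ * ev r L₂ := by
  simp [ev]

lemma ev_inv (r : ℕ → Γ) (L : Wd) : ev r (FreeGroup.invRev L) = (ev r L)⁻¹ := by
  induction L with
  | nil => simp [ev, FreeGroup.invRev]
  | cons p L ih =>
    have h : FreeGroup.invRev (p :: L) = FreeGroup.invRev L ++ [(p.1, !p.2)] := by
      simp [FreeGroup.invRev]
    rw [h, ev_append, ih, ev_cons, ev_cons, ev_nil, mul_inv_rev, mul_one]
    congr 1
    obtain ⟨i, b⟩ := p
    cases b <;> simp [ev1]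

lemma ev_rep (r : ℕ → Γ) (n : ℕ) (v : Wd) : ev r (List.replicate n v).flatten = (ev r v) ^ n := by
  induction n with
  | zero => simp [ev]
  | succ n ih => rw [List.replicate_succ, List.flatten_cons, ev_append, ih, pow_succ']

lemma ev_congr {r s : ℕ → Γ} {L : Wd} (h : ∀ p ∈ L, r p.1 = s p.1) : ev r L = ev s L := by
  unfold ev
  congr 1
  refine List.map_congr_left (fun p hp => ?_)
  simp only [ev1, h p hp]

/-- the value of a substituted list -/
lemma ev_flatMap_sub (r s : ℕ → Γ) (q n : ℕ) (v : Wd) (U : Wd)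
    (h1 : s (q + 1) = (ev r v) ^ n) (h2 : ∀ p ∈ U, p.1 ≠ q + 1 → s p.1 = r p.1) :
    ev r (U.flatMap (sub q n v)) = ev s U := by
  induction U with
  | nil => rfl
  | cons p U ih =>
    rw [List.flatMap_cons, ev_append, ih (fun p hp => h2 p (List.mem_cons_of_mem _ hp)), ev_cons]
    congr 1
    by_cases h : p.1 = q + 1
    · rw [sub, if_pos h, ev_rep]
      unfold ev1
      rw [h, h1]
      split_ifs
      · rfl
      · rw [ev_inv, inv_pow]
    · rw [sub, if_neg h, ev_cons, ev_nil, mul_one]
      unfold ev1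
      rw [h2 p (List.mem_cons_self ..) h]

end

lemma val_zero (V : ℕ → Wd) (N : ℕ → ℕ) (i : ℕ) :
    val V N 0 i = if i = 0 then FreeGroup.of 0 else FreeGroup.of 1 := rfl

lemma val_succ (V : ℕ → Wd) (N : ℕ → ℕ) (l i : ℕ) :
    val V N (l + 1) i =
      if i = l + 2 then (ev (val V N l) (V (l + 1))) ^ N (l + 1) else val V N l i := rfl

/-- the values below a level do not depend on the exponents above it -/
lemma val_congr (V : ℕ → Wd) (N N' : ℕ → ℕ) (Λ : ℕ) (h : ∀ l ≤ Λ, N l = N' l) :
    val V N Λ = val V N' Λ := by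
  induction Λ with
  | zero => rfl
  | succ Λ ih =>
    have h1 := ih (fun l hl => h l (by omega))
    funext i
    rw [val_succ, val_succ, h1, h (Λ + 1) le_rfl]

lemma mk_eq_ev_of {α : Type*} (f : ℕ → α) (U : Wd) :
    FreeGroup.mk (U.map (fun p => (f p.1, p.2))) = ev (fun i => FreeGroup.of (f i)) U := by
  induction U with
  | nil => rfl
  | cons p U ih =>
    rw [List.map_cons, ← List.singleton_append, ← FreeGroup.mul_mk, ih, ev_cons]
    congr 1
    obtain ⟨i, b⟩ := p
    cases b
    · simp [ev1, FreeGroup.of, FreeGroup.inv_mk, FreeGroup.invRev]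
    · simp [ev1, FreeGroup.of]

section
variable {Γ : Type*} [Group Γ]

lemma reals_base (r : ℕ → Γ) (C : Subgroup Γ) (U : Wd) (hU : ∀ p ∈ U, p.1 ≤ 1) :
    Reals r C U U := by
  have hfl : ∀ U : Wd, (U.map (fun p => [p])).flatten = U := by
    intro U
    induction U with
    | nil => rfl
    | cons p U ih => rw [List.map_cons, List.flatten_cons, ih]; rfl
  refine ⟨U.map (fun p => [p]), (hfl U).symm, ?_⟩
  induction U with
  | nil => exact List.Forall₂.nil
  | cons p U ih =>
    refine List.Forall₂.cons ?_ (ih (fun p hp => hU p (List.mem_cons_of_mem _ hp)))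
    have hp := hU p (List.mem_cons_self ..)
    rcases Nat.eq_zero_or_pos p.1 with h | h
    · exact Or.inl ⟨h, rfl⟩
    · have h1 : p.1 = 1 := by omega
      refine Or.inr ⟨h, [], [], rfl, by simp, by simp, rfl, rfl, ?_⟩
      rcases hb : p.2 with _ | _
      · right
        refine ⟨rfl, C.one_mem, ?_⟩
        rw [h1]
        simp [ev, stk]
      · left
        refine ⟨rfl, C.one_mem, ?_⟩
        rw [h1]
        simp [ev, stk]

/-- row ITER, from the one level step and the pairing of words which are not reduced -/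
theorem transfer_of
    (hgen : ∀ (g : ℕ) (L : Wd), PC g (FreeGroup.mk L) → Gen L g)
    (r : ℕ → Γ) (C : Subgroup Γ)
    (A B : ℕ → Wd) (ε : ℕ → Bool)
    (hstep : ∀ q, 1 ≤ q → ∀ (U : Wd), (∀ p ∈ U, p.1 ≤ q + 1) → ∀ g n : ℕ,
      12 * g + 10 * U.length < n → ev r (per q (A q) (B q) (ε q)) ^ n = 1 → ∀ L : Wd,
      Reals r C (U.flatMap (sub q n (per q (A q) (B q) (ε q)))) L → Gen L g →
      ∃ L' : Wd, Reals r C U L' ∧ Gen L' g)
    (hA : ∀ q, 1 ≤ q → ∀ p ∈ A q, p.1 < q) (hB : ∀ q, 1 ≤ q → ∀ p ∈ B q, p.1 < q)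
    (hv2 : ∀ q, 1 ≤ q → ev r (per q (A q) (B q) (ε q)) ^ 2 = 1)
    (Λ g : ℕ) (U : Wd) (hU : ∀ p ∈ U, p.1 ≤ Λ + 1) :
    ∃ N : ℕ → ℕ, (∀ l, 1 ≤ N l) ∧
      (PC g (ev (val (fun q => per q (A q) (B q) (ε q)) N Λ) U) →
        ∃ L : Wd, Reals r C U L ∧ Gen L g) := by
  set V : ℕ → Wd := fun q => per q (A q) (B q) (ε q) with hV
  have hVq : ∀ q, 1 ≤ q → ∀ p ∈ V q, p.1 ≤ q := by
    intro q hq p hp
    simp only [hV, per, List.cons_append, List.mem_cons, List.mem_append] at hp
    rcases hp with rfl | hp | rfl | hp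
    · exact le_rfl
    · exact (hA q hq p hp).le
    · exact le_rfl
    · exact (hB q hq p hp).le
  induction Λ generalizing U with
  | zero =>
    refine ⟨fun _ => 1, fun _ => le_rfl, fun h => ⟨U, reals_base r C U hU, hgen g U ?_⟩⟩
    have h1 := PC_map (FreeGroup.map (Fin.val : Fin 2 → ℕ)) h
    have h2 : FreeGroup.map (Fin.val : Fin 2 → ℕ) (ev (val V (fun _ => 1) 0) U) =
        FreeGroup.mk U := by
      have h3 : ∀ L : Wd, FreeGroup.map (Fin.val : Fin 2 → ℕ) (ev (val V (fun _ => 1) 0) L) =
          ev (fun i => FreeGroup.map (Fin.val : Fin 2 → ℕ) (val V (fun _ => 1) 0 i)) L := by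
        intro L
        induction L with
        | nil => simp [ev_nil]
        | cons p L ih =>
          rw [ev_cons, map_mul, ih, ev_cons]
          congr 1
          unfold ev1
          split_ifs <;> simp
      rw [h3]
      have h4 := mk_eq_ev_of (fun i : ℕ => i) U
      simp only [Prod.mk.eta, List.map_id'] at h4
      rw [h4]
      refine ev_congr (fun p hp => ?_)
      have hp := hU p hp
      rcases Nat.eq_zero_or_pos p.1 with h | h
      · rw [h]; simp [val]
      · have h1 : p.1 = 1 := by omega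
        rw [h1]; simp [val]
    rw [h2] at h1
    exact h1
  | succ Λ ih =>
    set n : ℕ := 2 * (12 * g + 10 * U.length + 1) with hn
    set U' : Wd := U.flatMap (sub (Λ + 1) n (V (Λ + 1))) with hU'
    have hU'm : ∀ p ∈ U', p.1 ≤ Λ + 1 := by
      intro p hp
      rw [hU', List.mem_flatMap] at hp
      obtain ⟨u, hu, hp⟩ := hp
      unfold sub at hp
      split_ifs at hp with h1 h2
      · rw [List.mem_flatten] at hp
        obtain ⟨l, hl, hp⟩ := hp
        rw [List.eq_of_mem_replicate hl] at hp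
        exact hVq _ (by omega) p hp
      · rw [List.mem_flatten] at hp
        obtain ⟨l, hl, hp⟩ := hp
        rw [List.eq_of_mem_replicate hl] at hp
        simp only [FreeGroup.invRev, List.mem_reverse, List.mem_map] at hp
        obtain ⟨p', hp', rfl⟩ := hp
        exact hVq _ (by omega) p' hp'
      · rw [List.mem_singleton] at hp
        subst hp
        have := hU p hu
        omega
    obtain ⟨N₀, hN₀, h⟩ := ih U' hU'm
    refine ⟨fun l => if l = Λ + 1 then n else N₀ l, ?_, ?_⟩
    · intro l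
      dsimp only
      split_ifs
      · omega
      · exact hN₀ l
    · intro hPC
      have e0 : val V (fun l => if l = Λ + 1 then n else N₀ l) Λ = val V N₀ Λ :=
        val_congr V _ _ Λ (fun l hl => if_neg (by omega))
      have e1 : ev (val V (fun l => if l = Λ + 1 then n else N₀ l) (Λ + 1)) U =
          ev (val V N₀ Λ) U' := by
        rw [hU']
        symm
        apply ev_flatMap_sub
        · rw [val_succ, if_pos rfl, e0]
          simp only [if_true]
        · intro p hp hne
          rw [val_succ, if_neg (by omega), e0]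
      rw [e1] at hPC
      obtain ⟨L, hL, hg⟩ := h hPC
      refine hstep (Λ + 1) (by omega) U hU g n (by omega) ?_ L hL hg
      rw [hn, pow_mul, hv2 _ (by omega), one_pow]

end

end H59CD
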