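import Pool.Agent.CD7.TDefs
import Pool.Agent.CD7.Omega

/-!
The words `X_i`, `Y_i`, `Z_i` of the tower as lists of letters (index `0` is `a`, index `l + 1` is
`r_l`), the periods `per q (A q) (B q) (ε q)`, and their values in the class two group.
-/

set_option autoImplicit false

namespace H25CD

open H59CD H55CD Matrix

/-- the lists `X_i`, `Y_i`, `Z_i`; from level `i` to level `i + 1` the letters `r`, `t` have the
indices `2 i + 2`, `2 i + 3` -/
def XL : ℕ → Wd
  | 0 => [(1, true), (0, true), (1, false)]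
  | i + 1 => (2 * i + 3, true) :: (XL i ++ [(2 * i + 2, false), (2 * i + 3, false)])

def YL : ℕ → Wd
  | 0 => [(0, false)]
  | i + 1 => XL i ++ (YL i ++ (2 * i + 2, true) :: FreeGroup.invRev (XL i))

def ZL : ℕ → Wd
  | 0 => []
  | i + 1 => (2 * i + 2, true) :: (XL i ++ (ZL i ++ (2 * i + 2, true) :: FreeGroup.invRev (XL i)))

/-- the first connector of the period of index `q` -/
def AL (q : ℕ) : Wd :=
  if q ≤ 1 then [(0, true)]
  else if q % 2 = 0 then XL (q / 2 - 1) ++ ZL (q / 2 - 1)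
  else XL (q / 2 - 1) ++ [(q - 1, false)]

/-- the second connector of the period of index `q` -/
def BL (q : ℕ) : Wd :=
  if q ≤ 1 then [(0, false)]
  else if q % 2 = 0 then FreeGroup.invRev (XL (q / 2 - 1))
  else XL (q / 2 - 1) ++ (YL (q / 2 - 1) ++ (q - 1, true) :: FreeGroup.invRev (XL (q / 2 - 1)))

/-- the sign of the second `r` in the period of index `q` -/
def εL (q : ℕ) : Bool := decide (q % 2 = 0)

lemma AL_one : AL 1 = [(0, true)] := rfl
lemma BL_one : BL 1 = [(0, false)] := rfl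

lemma AL_even (i : ℕ) : AL (2 * i + 2) = XL i ++ ZL i := by
  have h1 : ¬ 2 * i + 2 ≤ 1 := by omega
  have h2 : (2 * i + 2) % 2 = 0 := by omega
  have h3 : (2 * i + 2) / 2 - 1 = i := by omega
  rw [AL, if_neg h1, if_pos h2, h3]

lemma BL_even (i : ℕ) : BL (2 * i + 2) = FreeGroup.invRev (XL i) := by
  have h1 : ¬ 2 * i + 2 ≤ 1 := by omega
  have h2 : (2 * i + 2) % 2 = 0 := by omega
  have h3 : (2 * i + 2) / 2 - 1 = i := by omega
  rw [BL, if_neg h1, if_pos h2, h3]

lemma AL_odd (i : ℕ) : AL (2 * i + 3) = XL i ++ [(2 * i + 2, false)] := by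
  have h1 : ¬ 2 * i + 3 ≤ 1 := by omega
  have h2 : ¬ (2 * i + 3) % 2 = 0 := by omega
  have h3 : (2 * i + 3) / 2 - 1 = i := by omega
  rw [AL, if_neg h1, if_neg h2, h3]
  rfl

lemma BL_odd (i : ℕ) :
    BL (2 * i + 3) = XL i ++ (YL i ++ (2 * i + 2, true) :: FreeGroup.invRev (XL i)) := by
  have h1 : ¬ 2 * i + 3 ≤ 1 := by omega
  have h2 : ¬ (2 * i + 3) % 2 = 0 := by omega
  have h3 : (2 * i + 3) / 2 - 1 = i := by omega
  rw [BL, if_neg h1, if_neg h2, h3]
  rfl

lemma εL_even (i : ℕ) : εL (2 * i + 2) = true := by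
  rw [εL, decide_eq_true_iff]; omega

lemma εL_odd (i : ℕ) : εL (2 * i + 1) = false := by
  rw [εL, decide_eq_false_iff_not]; omega

/-- the period of odd index `2 i + 1` is the list `X_i Y_i` -/
theorem per_odd (i : ℕ) :
    per (2 * i + 1) (AL (2 * i + 1)) (BL (2 * i + 1)) (εL (2 * i + 1)) = XL i ++ YL i := by
  rw [εL_odd]
  rcases i with _ | i
  · rfl
  · rw [show 2 * (i + 1) + 1 = 2 * i + 3 by ring, AL_odd, BL_odd]
    simp only [per, XL, YL, List.cons_append, List.append_assoc, List.nil_append]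

/-- the period of even index `2 i + 2` is the list `Z_(i+1)` -/
theorem per_even (i : ℕ) :
    per (2 * i + 2) (AL (2 * i + 2)) (BL (2 * i + 2)) (εL (2 * i + 2)) = ZL (i + 1) := by
  rw [εL_even, AL_even, BL_even]
  simp only [per, ZL, List.cons_append, List.append_assoc]

/-! ### letters -/

lemma mem_invRev_fst {L : Wd} {p : ℕ × Bool} (h : p ∈ FreeGroup.invRev L) :
    ∃ p' ∈ L, p'.1 = p.1 := by
  rw [FreeGroup.invRev, List.mem_reverse, List.mem_map] at h
  obtain ⟨p', hp', rfl⟩ := h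
  exact ⟨p', hp', rfl⟩

theorem XYZL_lt (i : ℕ) : (∀ p ∈ XL i, p.1 < 2 * i + 2) ∧ (∀ p ∈ YL i, p.1 < 2 * i + 2) ∧
    (∀ p ∈ ZL i, p.1 < 2 * i + 2) := by
  induction i with
  | zero =>
    refine ⟨?_, ?_, ?_⟩
    · intro p hp
      simp only [XL, List.mem_cons, List.not_mem_nil, or_false] at hp
      rcases hp with rfl | rfl | rfl <;> simp
    · intro p hp
      simp only [YL, List.mem_cons, List.not_mem_nil, or_false] at hp
      rcases hp with rfl; simp
    · intro p hp
      simp only [ZL, List.not_mem_nil] at hp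
  | succ i ih =>
    obtain ⟨h1, h2, h3⟩ := ih
    have hinv : ∀ p ∈ FreeGroup.invRev (XL i), p.1 < 2 * i + 2 := by
      intro p hp
      obtain ⟨p', hp', e⟩ := mem_invRev_fst hp
      rw [← e]; exact h1 p' hp'
    refine ⟨?_, ?_, ?_⟩
    · intro p hp
      simp only [XL, List.mem_cons, List.mem_append, List.not_mem_nil, or_false] at hp
      rcases hp with rfl | hp | rfl | rfl
      · simp only; omega
      · have := h1 p hp; omega
      · simp only; omega
      · simp only; omega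
    · intro p hp
      simp only [YL, List.mem_cons, List.mem_append] at hp
      rcases hp with hp | hp | rfl | hp
      · have := h1 p hp; omega
      · have := h2 p hp; omega
      · simp only; omega
      · have := hinv p hp; omega
    · intro p hp
      simp only [ZL, List.mem_cons, List.mem_append] at hp
      rcases hp with rfl | hp | hp | rfl | hp
      · simp only; omega
      · have := h1 p hp; omega
      · have := h3 p hp; omega
      · simp only; omega
      · have := hinv p hp; omega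

theorem XL_lt (i : ℕ) : ∀ p ∈ XL i, p.1 < 2 * i + 2 := (XYZL_lt i).1
theorem YL_lt (i : ℕ) : ∀ p ∈ YL i, p.1 < 2 * i + 2 := (XYZL_lt i).2.1
theorem ZL_lt (i : ℕ) : ∀ p ∈ ZL i, p.1 < 2 * i + 2 := (XYZL_lt i).2.2
theorem XLinv_lt (i : ℕ) : ∀ p ∈ FreeGroup.invRev (XL i), p.1 < 2 * i + 2 := by
  intro p hp
  obtain ⟨p', hp', e⟩ := mem_invRev_fst hp
  rw [← e]; exact XL_lt i p' hp'

lemma cases_q (q : ℕ) (hq : 1 ≤ q) : q = 1 ∨ (∃ i, q = 2 * i + 2) ∨ (∃ i, q = 2 * i + 3) := by
  rcases Nat.lt_or_ge q 2 with h | h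
  · left; omega
  · right
    rcases Nat.even_or_odd' q with ⟨k, hk | hk⟩
    · left; exact ⟨k - 1, by omega⟩
    · right; exact ⟨k - 1, by omega⟩

theorem AL_lt (q : ℕ) (hq : 1 ≤ q) : ∀ p ∈ AL q, p.1 < q := by
  rcases cases_q q hq with rfl | ⟨i, rfl⟩ | ⟨i, rfl⟩
  · intro p hp
    rw [AL_one, List.mem_singleton] at hp
    subst hp; simp
  · intro p hp
    rw [AL_even, List.mem_append] at hp
    rcases hp with hp | hp
    · exact XL_lt i p hp
    · exact ZL_lt i p hp
  · intro p hp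
    rw [AL_odd, List.mem_append, List.mem_singleton] at hp
    rcases hp with hp | rfl
    · have := XL_lt i p hp; omega
    · simp

theorem BL_lt (q : ℕ) (hq : 1 ≤ q) : ∀ p ∈ BL q, p.1 < q := by
  rcases cases_q q hq with rfl | ⟨i, rfl⟩ | ⟨i, rfl⟩
  · intro p hp
    rw [BL_one, List.mem_singleton] at hp
    subst hp; simp
  · intro p hp
    rw [BL_even] at hp
    exact XLinv_lt i p hp
  · intro p hp
    rw [BL_odd] at hp
    simp only [List.mem_append, List.mem_cons] at hp
    rcases hp with hp | hp | rfl | hp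
    · have := XL_lt i p hp; omega
    · have := YL_lt i p hp; omega
    · simp
    · have := XLinv_lt i p hp; omega

/-! ### `a`-exponents -/

lemma ax_nil : ax [] = 0 := rfl

lemma ax_cons (p : ℕ × Bool) (L : Wd) : ax (p :: L) = al p + ax L := by
  simp [ax]

lemma ax_append (L M : Wd) : ax (L ++ M) = ax L + ax M := by
  simp [ax]

lemma al_not (p : ℕ × Bool) : al (p.1, !p.2) = - al p := by
  rcases p with ⟨x, b⟩
  by_cases h : x = 0
  · cases b <;> simp [al, h]
  · simp [al, h]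

lemma ax_invRev (L : Wd) : ax (FreeGroup.invRev L) = - ax L := by
  have h : ax (FreeGroup.invRev L) = ((L.map fun p => ((p.1, !p.2) : ℕ × Bool)).map al).sum := by
    rw [ax, FreeGroup.invRev, List.map_reverse, List.sum_reverse]
  rw [h, List.map_map, ax]
  induction L with
  | nil => simp
  | cons p L ih =>
    rw [List.map_cons, List.sum_cons, List.map_cons, List.sum_cons]
    rw [ih (by rw [ax, FreeGroup.invRev, List.map_reverse, List.sum_reverse])]
    simp only [Function.comp_apply, al_not]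
    ring

lemma al_succ (i : ℕ) (b : Bool) : al (i + 1, b) = 0 := by
  simp [al]

theorem ax_XYZ (i : ℕ) : ax (XL i) = 1 ∧ ax (YL i) = -1 ∧ ax (ZL i) = 0 := by
  induction i with
  | zero => refine ⟨?_, ?_, ?_⟩ <;> decide
  | succ i ih =>
    obtain ⟨h1, h2, h3⟩ := ih
    refine ⟨?_, ?_, ?_⟩
    · simp only [XL, ax_cons, ax_append, ax_nil, al_succ, h1]; ring
    · simp only [YL, ax_cons, ax_append, ax_invRev, al_succ, h1, h2]; ring
    · simp only [ZL, ax_cons, ax_append, ax_invRev, al_succ, h1, h3]; ring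

theorem ax_XL (i : ℕ) : ax (XL i) = 1 := (ax_XYZ i).1
theorem ax_YL (i : ℕ) : ax (YL i) = -1 := (ax_XYZ i).2.1
theorem ax_ZL (i : ℕ) : ax (ZL i) = 0 := (ax_XYZ i).2.2

theorem ax_AL (q : ℕ) (hq : 1 ≤ q) : ax (AL q) = 1 := by
  rcases cases_q q hq with rfl | ⟨i, rfl⟩ | ⟨i, rfl⟩
  · decide
  · rw [AL_even, ax_append, ax_XL, ax_ZL]; ring
  · rw [AL_odd, ax_append, ax_XL, ax_cons, ax_nil, al_succ]; ring

theorem ax_BL (q : ℕ) (hq : 1 ≤ q) : ax (BL q) = -1 := by
  rcases cases_q q hq with rfl | ⟨i, rfl⟩ | ⟨i, rfl⟩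
  · decide
  · rw [BL_even, ax_invRev, ax_XL]
  · rw [BL_odd, ax_append, ax_append, ax_cons, ax_invRev, ax_XL, ax_YL, al_succ]; ring

/-! ### values in a group -/

section Values
variable {Γ : Type*} [Group Γ] (r : ℕ → Γ)

lemma ev_nil : ev r [] = 1 := rfl

lemma ev_cons (p : ℕ × Bool) (L : Wd) : ev r (p :: L) = ev1 r p * ev r L := by
  simp [ev]

lemma ev_append (L M : Wd) : ev r (L ++ M) = ev r L * ev r M := by
  simp [ev]

lemma ev1_not (p : ℕ × Bool) : ev1 r (p.1, !p.2) = (ev1 r p)⁻¹ := by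
  rcases p with ⟨x, b⟩
  cases b <;> simp [ev1]

lemma ev_invRev (L : Wd) : ev r (FreeGroup.invRev L) = (ev r L)⁻¹ := by
  induction L with
  | nil => simp [FreeGroup.invRev, ev]
  | cons p L ih =>
    have h : FreeGroup.invRev (p :: L) = FreeGroup.invRev L ++ [(p.1, !p.2)] := by
      simp [FreeGroup.invRev]
    rw [h, ev_append, ih, ev_cons, ev_nil, ev1_not, ev_cons, mul_one, _root_.mul_inv_rev]

/-- the lists have the values of the tower -/
theorem ev_XYZ (i : ℕ) :
    ev r (XL i) = (XYZ (r 0) (fun k => r (k + 1)) i).1 ∧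
      ev r (YL i) = (XYZ (r 0) (fun k => r (k + 1)) i).2.1 ∧
      ev r (ZL i) = (XYZ (r 0) (fun k => r (k + 1)) i).2.2 := by
  induction i with
  | zero =>
    refine ⟨?_, ?_, ?_⟩
    · simp [XL, XYZ, ev, ev1, mul_assoc]
    · simp [YL, XYZ, ev, ev1]
    · simp [ZL, XYZ, ev]
  | succ i ih =>
    obtain ⟨h1, h2, h3⟩ := ih
    refine ⟨?_, ?_, ?_⟩
    · simp only [XL, ev_cons, ev_append, ev_nil, h1, XYZ, ev1, mul_one, if_true,
        Bool.false_eq_true, if_false]
      simp only [mul_assoc]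
    · simp only [YL, ev_cons, ev_append, ev_invRev, h1, h2, XYZ, ev1, if_true]
      simp only [mul_assoc]
    · simp only [ZL, ev_cons, ev_append, ev_invRev, h1, h3, XYZ, ev1, if_true]
      simp only [mul_assoc]

end Values

/-! ### values in the class two group -/

/-- values of the formal letters in the class two group with `2 j` functionals -/
def rH (j : ℕ) : ℕ → Hs (Fin j ⊕ Fin j) (ZMod 2)
  | 0 => hA j
  | k + 1 => hR j k

/-- the elements with zero vector -/
def CC (ι : Type) [Fintype ι] [DecidableEq ι] : Subgroup (Hs ι (ZMod 2)) where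
  carrier := {x | x.v = 0}
  mul_mem' := by
    intro a b ha hb
    simp only [Set.mem_ofPred_eq] at ha hb ⊢
    rw [mul_v, ha, hb, add_zero]
  one_mem' := rfl
  inv_mem' := by
    intro a ha
    simp only [Set.mem_ofPred_eq] at ha ⊢
    rw [inv_v, ha, neg_zero]

lemma mem_CC {ι : Type} [Fintype ι] [DecidableEq ι] {x : Hs ι (ZMod 2)} :
    x ∈ CC ι ↔ x.v = 0 := Iff.rfl

theorem CC_le_center (ι : Type) [Fintype ι] [DecidableEq ι] :
    CC ι ≤ Subgroup.center (Hs ι (ZMod 2)) := by
  intro x hx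
  rw [Subgroup.mem_center_iff]
  intro y
  exact (central x y hx).symm

theorem CC_sq {ι : Type} [Fintype ι] [DecidableEq ι] {x : Hs ι (ZMod 2)} (hx : x ∈ CC ι) :
    x ^ 2 = 1 := by
  rw [pow_of_zero x hx, two_nsmul, addM]
  rfl

theorem ev_rH (j i : ℕ) :
    ev (rH j) (XL i) = (W j i).1 ∧ ev (rH j) (YL i) = (W j i).2.1 ∧
      ev (rH j) (ZL i) = (W j i).2.2 := ev_XYZ (rH j) i

/-- all periods are central -/
theorem per_mem_CC (j q : ℕ) (hq : 1 ≤ q) :
    ev (rH j) (per q (AL q) (BL q) (εL q)) ∈ CC (Fin j ⊕ Fin j) := by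
  have hodd : ∀ i, ev (rH j) (per (2 * i + 1) (AL (2 * i + 1)) (BL (2 * i + 1)) (εL (2 * i + 1)))
      ∈ CC (Fin j ⊕ Fin j) := by
    intro i
    rw [per_odd, ev_append, (ev_rH j i).1, (ev_rH j i).2.1, mem_CC, mul_v,
      (tower_value j i).1, (tower_value j i).2.1, addv]
  rcases cases_q q hq with rfl | ⟨i, rfl⟩ | ⟨i, rfl⟩
  · exact hodd 0
  · rw [per_even, (ev_rH j (i + 1)).2.2, mem_CC]
    exact (tower_value j (i + 1)).2.2.1
  · exact hodd (i + 1)

theorem per_sq (j q : ℕ) (hq : 1 ≤ q) :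
    ev (rH j) (per q (AL q) (BL q) (εL q)) ^ 2 = 1 := CC_sq (per_mem_CC j q hq)

/-- the value of `(X_j Y_j) ^ m` for odd `m` -/
theorem value_top (j m : ℕ) (hm : m % 2 = 1) :
    ev (rH j) (List.replicate m (XL j ++ YL j)).flatten = ⟨0, Om j j⟩ := by
  have h : ∀ k : ℕ, ev (rH j) (List.replicate k (XL j ++ YL j)).flatten =
      (ev (rH j) (XL j ++ YL j)) ^ k := by
    intro k
    induction k with
    | zero => simp [ev]
    | succ k ih =>
      rw [List.replicate_succ, List.flatten_cons, ev_append, ih, pow_succ']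
  rw [h, ev_append, (ev_rH j j).1, (ev_rH j j).2.1]
  exact power_value j m hm

/-- the two connectors of the top period have class zero -/
theorem top_classes (j : ℕ) (hj : 1 ≤ j) :
    (ev (rH j) (AL (2 * j + 1))).v = 0 ∧ (ev (rH j) (BL (2 * j + 1))).v = 0 ∧
      (rH j (2 * j + 1)).v = 0 := by
  obtain ⟨i, rfl⟩ : ∃ i, j = i + 1 := ⟨j - 1, by omega⟩
  have hE : E (i + 1) (i + 1) = 0 := by rw [E, dif_neg (lt_irrefl _)]
  have hr : (rH (i + 1) (2 * i + 2)).v = E (i + 1) i := by
    change rho (i + 1) (2 * i + 1) = _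
    rw [rho_odd, hE, add_zero]
  have hX : (ev (rH (i + 1)) (XL i)).v = E (i + 1) i := by
    rw [(ev_rH (i + 1) i).1, (tower_value (i + 1) i).1]
  have hY : (ev (rH (i + 1)) (YL i)).v = E (i + 1) i := by
    rw [(ev_rH (i + 1) i).2.1, (tower_value (i + 1) i).2.1]
  refine ⟨?_, ?_, ?_⟩
  · rw [show 2 * (i + 1) + 1 = 2 * i + 3 by ring, AL_odd, ev_append, ev_cons, ev_nil, mul_one,
      mul_v, hX]
    simp only [ev1, Bool.false_eq_true, if_false, inv_v, hr, negv, addv]
  · rw [show 2 * (i + 1) + 1 = 2 * i + 3 by ring, BL_odd, ev_append, ev_append, ev_cons,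
      ev_invRev, mul_v, mul_v, mul_v, inv_v, hX, hY]
    simp only [ev1, if_true, hr, negv]
    rw [addv, add_zero, addv]
  · change rho (i + 1) (2 * (i + 1)) = 0
    exact rho_top (i + 1)

end H25CD
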