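import Pool.Agent.CD7.TIter
import Pool.Agent.CD7.Words
import Pool.Agent.Helper85.CDU.Conj

/-!
MP_cd7e06_al, odd exponents: the values of the words `X_j, Y_j, Z_j` in the free group of rank two
(every letter `r_l` being a power of the value of its period) form a conjugated tower; the final
reduction to lower bounds.
-/

set_option autoImplicit false

namespace H85CDU

open H74CL H55CD H25CD

section
variable {Γ : Type*} [Group Γ]

lemma ev_congr (r r' : ℕ → Γ) (L : Wd) (h : ∀ p ∈ L, r p.1 = r' p.1) : ev r L = ev r' L := by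
  induction L with
  | nil => rfl
  | cons p L ih =>
    rw [ev_cons, ev_cons, ih (fun p hp => h p (List.mem_cons_of_mem _ hp))]
    simp only [ev1, h p (List.mem_cons_self ..)]

lemma ev_replicate (r : ℕ → Γ) (m : ℕ) (L : Wd) :
    ev r (List.replicate m L).flatten = ev r L ^ m := by
  induction m with
  | zero => simp [ev]
  | succ m ih => rw [List.replicate_succ, List.flatten_cons, ev_append, ih, pow_succ']

/-- the values of a tower: if the letters `r (q + 1)` commute with the values of the periods of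
index `q` then the values of the formal words form a conjugated tower -/
theorem towerC_ev (r : ℕ → Γ) (j : ℕ)
    (h : ∀ q, 1 ≤ q → q ≤ 2 * j → Commute (r (q + 1)) (ev r (per q (AL q) (BL q) (εL q)))) :
    TowerC (r 0) (r 1) j (ev r (XL j)) (ev r (YL j)) (ev r (ZL j)) := by
  induction j with
  | zero =>
    have h1 : ev r (XL 0) = r 1 * r 0 * (r 1)⁻¹ := by simp [XL, ev, ev1, mul_assoc]
    have h2 : ev r (YL 0) = (r 0)⁻¹ := by simp [YL, ev, ev1]
    have h3 : ev r (ZL 0) = 1 := by simp [ZL, ev]
    rw [h1, h2, h3]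
    exact TowerC.zero
  | succ j ih =>
    have h1 := ih (fun q hq hq' => h q hq (by omega))
    have h2 := h (2 * j + 1) (by omega) (by omega)
    have h3 := h (2 * j + 2) (by omega) (by omega)
    have e1 : ev r (XL (j + 1)) =
        r (2 * j + 3) * ev r (XL j) * (r (2 * j + 2))⁻¹ * (r (2 * j + 3))⁻¹ := by
      simp only [XL, ev_cons, ev_append, ev_nil, ev1, mul_one, if_true, Bool.false_eq_true,
        if_false, mul_assoc]
    have e2 : ev r (YL (j + 1)) =
        ev r (XL j) * ev r (YL j) * r (2 * j + 2) * (ev r (XL j))⁻¹ := by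
      simp only [YL, ev_cons, ev_append, ev_invRev, ev1, if_true, mul_assoc]
    have e3 : ev r (ZL (j + 1)) =
        r (2 * j + 2) * ev r (XL j) * ev r (ZL j) * r (2 * j + 2) * (ev r (XL j))⁻¹ := by
      simp only [ZL, ev_cons, ev_append, ev_invRev, ev1, if_true, mul_assoc]
    rw [per_odd, ev_append] at h2
    rw [per_even, e3] at h3
    have := TowerC.succ (r (2 * j + 2)) (r (2 * j + 3)) h1 h2 h3
    rw [e1, e2, e3]
    exact this

end

/-! ### Values in the free group of rank two -/

lemma val_le (V : ℕ → Wd) (N : ℕ → ℕ) {l l' i : ℕ} (hl : l ≤ l') (hi : i ≤ l + 1) :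
    val V N l' i = val V N l i := by
  induction l', hl using Nat.le_induction with
  | base => rfl
  | succ l' h ih =>
    change (if i = l' + 2 then _ else val V N l' i) = _
    rw [if_neg (by omega), ih]

lemma val_zero (V : ℕ → Wd) (N : ℕ → ℕ) (l : ℕ) : val V N l 0 = FreeGroup.of 0 := by
  rw [val_le V N (Nat.zero_le l) (Nat.zero_le _)]; rfl

lemma val_one (V : ℕ → Wd) (N : ℕ → ℕ) (l : ℕ) : val V N l 1 = FreeGroup.of 1 := by
  rw [val_le V N (Nat.zero_le l) (le_refl _)]; rfl

lemma val_succ (V : ℕ → Wd) (N : ℕ → ℕ) (l q : ℕ) (hq : 1 ≤ q) (hl : q ≤ l)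
    (hV : ∀ p ∈ V q, p.1 ≤ q) :
    val V N l (q + 1) = (ev (val V N l) (V q)) ^ N q := by
  obtain ⟨q, rfl⟩ : ∃ q', q = q' + 1 := ⟨q - 1, by omega⟩
  rw [val_le V N hl (le_refl _)]
  change (if q + 2 = q + 2 then _ else _) = _
  rw [if_pos rfl]
  congr 1
  refine ev_congr _ _ _ (fun p hp => ?_)
  exact (val_le V N (by omega) (hV p hp)).symm

lemma per_le (q : ℕ) (hq : 1 ≤ q) : ∀ p ∈ per q (AL q) (BL q) (εL q), p.1 ≤ q := by
  intro p hp
  rw [per, List.cons_append, List.mem_cons, List.mem_append, List.mem_cons] at hp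
  rcases hp with rfl | hp | rfl | hp
  · exact le_refl _
  · exact (AL_lt q hq p hp).le
  · exact le_refl _
  · exact (BL_lt q hq p hp).le

/-- the values in the free group of rank two form a conjugated tower -/
theorem towerC_val (N : ℕ → ℕ) (j l : ℕ) (hl : 2 * j ≤ l) :
    TowerC (FreeGroup.of 0) (FreeGroup.of 1) j
      (ev (val (fun q => per q (AL q) (BL q) (εL q)) N l) (XL j))
      (ev (val (fun q => per q (AL q) (BL q) (εL q)) N l) (YL j))
      (ev (val (fun q => per q (AL q) (BL q) (εL q)) N l) (ZL j)) := by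
  have := towerC_ev (val (fun q => per q (AL q) (BL q) (εL q)) N l) j (fun q hq hq' => by
    rw [val_succ _ N l q hq (by omega) (per_le q hq)]
    exact (Commute.refl _).pow_left _)
  rwa [val_zero, val_one] at this

lemma topw_lt (j m : ℕ) : ∀ p ∈ (List.replicate m (XL j ++ YL j)).flatten, p.1 ≤ 2 * j + 1 := by
  intro p hp
  rw [List.mem_flatten] at hp
  obtain ⟨L, hL, hp⟩ := hp
  rw [List.eq_of_mem_replicate hL, List.mem_append] at hp
  rcases hp with hp | hp
  · have := XL_lt j p hp; omega
  · have := YL_lt j p hp; omega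

/-- the final reduction: all pairs `(k, m)` with `m` odd, from the lower bounds for the values of the
top words -/
theorem adm_odd_of_top
    (hlow : ∀ r j : ℕ, ∃ N : ℕ → ℕ, ∀ g,
      PC g (ev (val (fun q => per q (AL q) (BL q) (εL q)) N (2 * j))
        (List.replicate (2 * r + 1) (XL j ++ YL j)).flatten) → r + 1 + j ≤ g)
    (k m : ℕ) (hm : Odd m) (hk : m < 2 * k) : Adm k m := by
  refine adm_odd_of_lowerC (fun r j => ?_) k m hm hk
  obtain ⟨N, hN⟩ := hlow r j
  refine ⟨_, _, _, _, _, towerC_val N j (2 * j) (le_refl _), fun g hg => hN g ?_⟩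
  rwa [ev_replicate, ev_append]

end H85CDU
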